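import Mathlib

/-!
# Polynomial time structures on binary strings, terms, names
-/

set_option autoImplicit false

namespace PT21

/-- Functions on binary strings computed by a Turing machine in polynomial time. -/
def PolyTime (f : List Bool → List Bool) : Prop :=
  Nonempty (Turing.TM2ComputableInPolyTime (id : List Bool → List Bool)
    (id : List Bool → List Bool) f)

/-- The code of a tuple of binary strings: every bit `b` becomes `1b`, and `00` ends a string. -/
def tup (l : List (List Bool)) : List Bool :=
  l.flatMap fun x => (x.flatMap fun b => [true, b]) ++ [false, false]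

/-- The set of strings is decidable in polynomial time. -/
def PSet (A : Set (List Bool)) : Prop :=
  ∃ g, PolyTime g ∧ ∀ x, (x ∈ A → g x = [true]) ∧ (x ∉ A → g x = [false])

/-- Transported along the naming `ν`, the function is computable in polynomial time. -/
def PFun (ν : ℕ → List Bool) {r : ℕ} (f : (Fin r → ℕ) → ℕ) : Prop :=
  ∃ g, PolyTime g ∧ ∀ x : Fin r → ℕ, g (tup (List.ofFn fun i => ν (x i))) = ν (f x)

/-- Transported along the naming `ν`, the relation is decidable in polynomial time. -/
def PRel (ν : ℕ → List Bool) {r : ℕ} (R : (Fin r → ℕ) → Prop) : Prop :=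
  ∃ g, PolyTime g ∧ ∀ x : Fin r → ℕ,
    (R x → g (tup (List.ofFn fun i => ν (x i))) = [true]) ∧
    (¬ R x → g (tup (List.ofFn fun i => ν (x i))) = [false])

/-- Terms built from variables, `0`, `1`, `+`, `*`, `2 ^ x` and `3 ^ x`. -/
inductive Tm (V : Type) : Type
  | var (i : V) : Tm V
  | zero : Tm V
  | one : Tm V
  | add (t u : Tm V) : Tm V
  | mul (t u : Tm V) : Tm V
  | exp2 (t : Tm V) : Tm V
  | exp3 (t : Tm V) : Tm V

/-- The value of a term. -/
def Tm.val {V : Type} (ρ : V → ℕ) : Tm V → ℕ
  | .var i => ρ i
  | .zero => 0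
  | .one => 1
  | .add t u => t.val ρ + u.val ρ
  | .mul t u => t.val ρ * u.val ρ
  | .exp2 t => 2 ^ t.val ρ
  | .exp3 t => 3 ^ t.val ρ

end PT21
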