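import Pool.Agent.PT21.Expand

/-!
# Equations between terms are decidable in polynomial time
-/

set_option autoImplicit false

namespace PT21

open Pool.Agent.PTL

section runs

variable {N : ℕ} {w z : List Bool}

/-- No letter at the position. -/
def en (N : ℕ) (w : List Bool) (p : ℕ) : Prop := ¬ rS N w p ∧ ¬ rT N w p ∧ ¬ rH N w p

/-- The same letter at two positions. -/
def sl (N : ℕ) (w : List Bool) (p q : ℕ) : Prop :=
  (rS N w p ∧ rS N w q) ∨ (rT N w p ∧ rT N w q) ∨ (rH N w p ∧ rH N w q)

/-- The same word at two positions. -/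
def sw (N : ℕ) (w : List Bool) (p q : ℕ) : Prop :=
  ∃ L < N, (∀ i < L, sl N w (p + 4 * i) (q + 4 * i)) ∧ en N w (p + 4 * L) ∧ en N w (q + 4 * L)

/-- Letters `S`. -/
def runS (N : ℕ) (w : List Bool) (p s : ℕ) : Prop := ∀ i < s, rS N w (p + 4 * i)

theorem en_iff (hg : Good N w z) {p : ℕ} (hp : p ≤ z.length + 1) :
    en N w p ↔ ltr z p = none := by
  have hN := hg.hN
  unfold en
  rw [rS_iff hg.h6 (by omega), rT_iff hg.h6 (by omega), rH_iff hg.h6 (by omega)]
  cases h : ltr z p with
  | none => simp
  | some l => cases l <;> simp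

theorem sl_iff (hg : Good N w z) {p q : ℕ} (hp : p ≤ z.length + 1) (hq : q ≤ z.length + 1) :
    sl N w p q ↔ ∃ l, ltr z p = some l ∧ ltr z q = some l := by
  have hN := hg.hN
  unfold sl
  rw [rS_iff hg.h6 (by omega), rT_iff hg.h6 (by omega), rH_iff hg.h6 (by omega),
    rS_iff hg.h6 (by omega), rT_iff hg.h6 (by omega), rH_iff hg.h6 (by omega)]
  constructor
  · rintro (h | h | h)
    · exact ⟨_, h⟩
    · exact ⟨_, h⟩
    · exact ⟨_, h⟩
  · rintro ⟨l, h⟩
    cases l with
    | S => exact Or.inl h
    | T => exact Or.inr (Or.inl h)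
    | H => exact Or.inr (Or.inr h)

theorem sw_sound (hg : Good N w z) : ∀ (L p q : ℕ), p ≤ z.length + 1 → q ≤ z.length + 1 →
    (∀ i < L, sl N w (p + 4 * i) (q + 4 * i)) → en N w (p + 4 * L) → en N w (q + 4 * L) →
    W z p = W z q := by
  intro L
  induction L with
  | zero =>
    intro p q hp hq _ h1 h2
    rw [mul_zero, add_zero] at h1 h2
    rw [W_none ((en_iff hg hp).1 h1), W_none ((en_iff hg hq).1 h2)]
  | succ L ih =>
    intro p q hp hq h h1 h2
    have h0 := h 0 (by omega)
    rw [mul_zero, add_zero, add_zero, sl_iff hg hp hq] at h0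
    obtain ⟨l, h3, h4⟩ := h0
    have h5 := ltr_lt h3
    have h6 := ltr_lt h4
    rw [show p + 4 * (L + 1) = p + 4 + 4 * L by ring] at h1
    rw [show q + 4 * (L + 1) = q + 4 + 4 * L by ring] at h2
    rw [W_some h3, W_some h4, ih (p + 4) (q + 4) (by omega) (by omega) (fun i hi => ?_) h1 h2]
    have := h (i + 1) (by omega)
    rwa [show p + 4 * (i + 1) = p + 4 + 4 * i by ring,
      show q + 4 * (i + 1) = q + 4 + 4 * i by ring] at this

theorem sw_complete (hg : Good N w z) : ∀ (L p q : ℕ), p ≤ z.length + 1 → q ≤ z.length + 1 →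
    W z p = W z q → (W z p).length = L →
    (∀ i < L, sl N w (p + 4 * i) (q + 4 * i)) ∧ en N w (p + 4 * L) ∧ en N w (q + 4 * L) := by
  intro L
  induction L with
  | zero =>
    intro p q hp hq h1 h2
    have h3 : ∀ r, W z r = [] → ltr z r = none := by
      intro r hr
      cases h' : ltr z r with
      | none => rfl
      | some l =>
        rw [W_some h'] at hr
        exact absurd hr (by simp)
    have h4 : W z p = [] := List.length_eq_zero_iff.1 h2
    refine ⟨fun i hi => absurd hi (by omega), ?_, ?_⟩
    · rw [mul_zero, add_zero, en_iff hg hp]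
      exact h3 _ h4
    · rw [mul_zero, add_zero, en_iff hg hq]
      exact h3 _ (h1 ▸ h4)
  | succ L ih =>
    intro p q hp hq h1 h2
    cases hlp : ltr z p with
    | none =>
      rw [W_none hlp] at h2
      simp at h2
    | some l =>
      cases hlq : ltr z q with
      | none =>
        rw [h1, W_none hlq] at h2
        simp at h2
      | some l' =>
        rw [W_some hlp, W_some hlq] at h1
        rw [W_some hlp, List.length_cons] at h2
        obtain ⟨h3, h4⟩ := List.cons.inj h1
        have h5 := ltr_lt hlp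
        have h6 := ltr_lt hlq
        obtain ⟨h7, h8, h9⟩ := ih (p + 4) (q + 4) (by omega) (by omega) h4 (by omega)
        refine ⟨fun i hi => ?_, ?_, ?_⟩
        · cases i with
          | zero =>
            rw [mul_zero, add_zero, add_zero, sl_iff hg hp hq]
            exact ⟨l, hlp, h3 ▸ hlq⟩
          | succ i =>
            rw [show p + 4 * (i + 1) = p + 4 + 4 * i by ring,
              show q + 4 * (i + 1) = q + 4 + 4 * i by ring]
            exact h7 i (by omega)
        · rwa [show p + 4 * (L + 1) = p + 4 + 4 * L by ring]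
        · rwa [show q + 4 * (L + 1) = q + 4 + 4 * L by ring]

theorem sw_iff (hg : Good N w z) {p q : ℕ} (hp : p ≤ z.length + 1) (hq : q ≤ z.length + 1) :
    sw N w p q ↔ W z p = W z q := by
  constructor
  · rintro ⟨L, -, h1, h2, h3⟩
    exact sw_sound hg L p q hp hq h1 h2 h3
  · intro h
    have h1 := W_length z p
    have hN := hg.hN
    exact ⟨_, by omega, sw_complete hg _ p q hp hq h rfl⟩

theorem runS_sound (hg : Good N w z) : ∀ (s p : ℕ), p ≤ z.length + 1 → runS N w p s →
    p + 4 * s ≤ z.length + 1 ∧ W z p = List.replicate s .S ++ W z (p + 4 * s) := by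
  have hN := hg.hN
  intro s
  induction s with
  | zero =>
    intro p hp _
    simpa using hp
  | succ s ih =>
    intro p hp h
    have h0 := h 0 (by omega)
    rw [mul_zero, add_zero, rS_iff hg.h6 (by omega)] at h0
    have h5 := ltr_lt h0
    obtain ⟨h1, h2⟩ := ih (p + 4) (by omega) (fun i hi => by
      have := h (i + 1) (by omega)
      rwa [show p + 4 * (i + 1) = p + 4 + 4 * i by ring] at this)
    rw [show p + 4 * (s + 1) = p + 4 + 4 * s by ring]
    refine ⟨h1, ?_⟩
    rw [W_some h0, h2]
    rfl

theorem runS_complete (hg : Good N w z) : ∀ (s p : ℕ) (u : List Ltr), p ≤ z.length + 1 →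
    W z p = List.replicate s .S ++ u →
    runS N w p s ∧ p + 4 * s ≤ z.length + 1 ∧ W z (p + 4 * s) = u := by
  have hN := hg.hN
  intro s
  induction s with
  | zero =>
    intro p u hp h
    refine ⟨fun i hi => absurd hi (by omega), by simpa using hp, by simpa using h⟩
  | succ s ih =>
    intro p u hp h
    cases hlp : ltr z p with
    | none =>
      rw [W_none hlp] at h
      simp [List.replicate_succ] at h
    | some l =>
      rw [W_some hlp, List.replicate_succ, List.cons_append] at h
      obtain ⟨h3, h4⟩ := List.cons.inj h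
      subst h3
      have h5 := ltr_lt hlp
      obtain ⟨h6, h7, h8⟩ := ih (p + 4) u (by omega) h4
      rw [show p + 4 * (s + 1) = p + 4 + 4 * s by ring]
      refine ⟨fun i hi => ?_, h7, h8⟩
      cases i with
      | zero =>
        rw [mul_zero, add_zero, rS_iff hg.h6 (by omega)]
        exact hlp
      | succ i =>
        rw [show p + 4 * (i + 1) = p + 4 + 4 * i by ring]
        exact h6 i (by omega)

end runs

section tests

variable {k : ℕ} {N p q s : (ℕ → ℕ) → ℕ}

theorem isT_en (hN : IsE k N) (hp : IsE k p) : IsT k (fun w env => en (N env) w (p env)) :=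
  (isT_rS hN hp).not.and ((isT_rT hN hp).not.and (isT_rH hN hp).not)

theorem isT_sl (hN : IsE k N) (hp : IsE k p) (hq : IsE k q) :
    IsT k (fun w env => sl (N env) w (p env) (q env)) :=
  ((isT_rS hN hp).and (isT_rS hN hq)).or (((isT_rT hN hp).and (isT_rT hN hq)).or
    ((isT_rH hN hp).and (isT_rH hN hq)))

theorem isT_sw (hN : IsE k N) (hp : IsE k p) (hq : IsE k q) :
    IsT k (fun w env => sw (N env) w (p env) (q env)) := by
  refine IsT.ex hN fun k₁ h₁ L hL => (IsT.all hL fun k₂ h₂ i hi => ?_).and
    ((isT_en (hN.mono h₁) ((hp.mono h₁).add ((IsE.const 4).mul hL))).and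
      (isT_en (hN.mono h₁) ((hq.mono h₁).add ((IsE.const 4).mul hL))))
  exact isT_sl (hN.mono (h₁.trans h₂)) ((hp.mono (h₁.trans h₂)).add ((IsE.const 4).mul hi))
    ((hq.mono (h₁.trans h₂)).add ((IsE.const 4).mul hi))

theorem isT_runS (hN : IsE k N) (hp : IsE k p) (hs : IsE k s) :
    IsT k (fun w env => runS (N env) w (p env) (s env)) :=
  IsT.all hs fun _ h₁ _ hi => isT_rS (hN.mono h₁) ((hp.mono h₁).add ((IsE.const 4).mul hi))

end tests

/-- Decision of the equations `t + m = t'` with small `m` between terms of level `ℓ`. -/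
def Dec (ℓ : ℕ) : Prop :=
  ∀ (V : Type) [Fintype V] [DecidableEq V] (t t' : Tm V), Lv ℓ t → Lv ℓ t' →
    ∃ (K₀ : ℕ) (Φ : ℕ → List Bool → (V → ℕ) → ℕ → Prop),
      (∀ (k : ℕ) (N m : (ℕ → ℕ) → ℕ) (p : V → (ℕ → ℕ) → ℕ), IsE k N → IsE k m →
        (∀ i, IsE k (p i)) → IsT k (fun w env => Φ (N env) w (fun i => p i env) (m env))) ∧
      ∀ K ≥ K₀, ∀ (z w : List Bool), Good ((z.length + 3) ^ K) w z → ∀ (p : V → ℕ) (m : ℕ),
        (∀ i, p i ≤ z.length + 1 ∧ Can (W z (p i))) → 2 ^ m < (z.length + 3) ^ K →
        (Φ ((z.length + 3) ^ K) w p m ↔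
          t.val (fun i => wval (W z (p i))) + m = t'.val (fun i => wval (W z (p i))))

theorem dec_zero : Dec 0 := by
  intro V _ _ t t' ht ht'
  cases t with
  | var a =>
    cases t' with
    | var b =>
      obtain ⟨C, hC⟩ := can_diff
      obtain ⟨K₀, hK₀⟩ := big_K (C + 2)
      refine ⟨K₀, fun N w p m => (∃ v < N, lk N w 2 (p a) v ∧ v + m < N ∧ lk N w 2 (p b) (v + m)) ∨
        (runS N w (p b) m ∧ sw N w (p a) (p b + 4 * m)), ?_, ?_⟩
      · intro k N m p hN hm hp
        refine (IsT.ex hN fun k₁ h₁ v hv => ?_).or ((isT_runS hN (hp b) hm).and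
          (isT_sw hN (hp a) ((hp b).add ((IsE.const 4).mul hm))))
        exact (isT_lk (hN.mono h₁) (IsE.const 2) ((hp a).mono h₁) hv).and
          ((IsT.lt (hv.add (hm.mono h₁)) (hN.mono h₁)).and
            (isT_lk (hN.mono h₁) (IsE.const 2) ((hp b).mono h₁) (hv.add (hm.mono h₁))))
      · intro K hK z w hg p m hp hm
        have hpa := hp a
        have hpb := hp b
        simp only [Tm.val]
        constructor
        · rintro (⟨v, hv, h1, h2, h3⟩ | ⟨h1, h2⟩)
          · rw [(hg.h2 _ hpa.1 _ hv).1 h1, (hg.h2 _ hpb.1 _ h2).1 h3]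
          · obtain ⟨h3, h4⟩ := runS_sound hg m _ hpb.1 h1
            rw [sw_iff hg hpa.1 h3] at h2
            rw [h4, wval_replicate, h2, add_comm]
        · intro h
          have hlog := log_bound hm
          have hla := W_length z (p a)
          have hlb := W_length z (p b)
          have hM : z.length + K * (z.length + 3) ≤ (K + 1) * (z.length + 3) := by
            rw [add_mul]
            omega
          have hM2 : 2 ≤ (K + 1) * (z.length + 3) := by nlinarith
          rcases hC ((K + 1) * (z.length + 3)) m _ _ hM2 hpa.2 hpb.2 (by omega) (by omega)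
            h.symm with h1 | h1
          · right
            obtain ⟨h2, h3, h4⟩ := runS_complete hg m _ _ hpb.1 h1
            exact ⟨h2, (sw_iff hg hpa.1 h3).2 h4.symm⟩
          · left
            have hbig := hK₀ K hK (z.length + 3) (by omega)
            set M := (K + 1) * (z.length + 3) with hMdef
            have h2 : M ≤ M ^ (C + 1) := by
              calc M = M ^ 1 := (pow_one M).symm
                _ ≤ M ^ (C + 1) := Nat.pow_le_pow_right (by omega) (by omega)
            have h3 : M ^ C ≤ M ^ (C + 1) := Nat.pow_le_pow_right (by omega) (by omega)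
            have h4 : M ^ C + M ≤ M ^ (C + 2) := by
              calc M ^ C + M ≤ M ^ (C + 1) + M ^ (C + 1) := by omega
                _ = M ^ (C + 1) * 2 := by ring
                _ ≤ M ^ (C + 1) * M := Nat.mul_le_mul_left _ hM2
                _ = M ^ (C + 2) := (pow_succ M (C + 1)).symm
            refine ⟨wval (W z (p a)), by omega, (hg.h2 _ hpa.1 _ (by omega)).2 rfl, by omega,
              (hg.h2 _ hpb.1 _ (by omega)).2 h.symm⟩
    | zero =>
      refine ⟨0, fun N w p m => m = 0 ∧ lk N w 2 (p a) 0, ?_, ?_⟩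
      · intro k N m p hN hm hp
        exact (IsT.eq hm (IsE.const 0)).and (isT_lk hN (IsE.const 2) (hp a) (IsE.const 0))
      · intro K _ z w hg p m hp hm
        have hN := hg.hN
        beta_reduce
        rw [hg.h2 _ (hp a).1 _ (by omega)]
        simp only [Tm.val]
        omega
    | one => exact absurd ht' (by simp [Lv])
    | add _ _ => exact absurd ht' (by simp [Lv])
    | mul _ _ => exact absurd ht' (by simp [Lv])
    | exp2 _ => exact absurd ht' (by simp [Lv])
    | exp3 _ => exact absurd ht' (by simp [Lv])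
  | zero =>
    cases t' with
    | var b =>
      refine ⟨0, fun N w p m => lk N w 2 (p b) m, ?_, ?_⟩
      · intro k N m p hN hm hp
        exact isT_lk hN (IsE.const 2) (hp b) hm
      · intro K _ z w hg p m hp hm
        have h1 : m < 2 ^ m := Nat.lt_two_pow_self
        beta_reduce
        rw [hg.h2 _ (hp b).1 _ (by omega)]
        simp only [Tm.val]
        omega
    | zero =>
      refine ⟨0, fun N w p m => m = 0, ?_, ?_⟩
      · intro k N m p hN hm hp
        exact IsT.eq hm (IsE.const 0)
      · intro K _ z w hg p m hp hm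
        simp only [Tm.val]
        omega
    | one => exact absurd ht' (by simp [Lv])
    | add _ _ => exact absurd ht' (by simp [Lv])
    | mul _ _ => exact absurd ht' (by simp [Lv])
    | exp2 _ => exact absurd ht' (by simp [Lv])
    | exp3 _ => exact absurd ht' (by simp [Lv])
  | one => exact absurd ht (by simp [Lv])
  | add _ _ => exact absurd ht (by simp [Lv])
  | mul _ _ => exact absurd ht (by simp [Lv])
  | exp2 _ => exact absurd ht (by simp [Lv])
  | exp3 _ => exact absurd ht (by simp [Lv])

end PT21
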