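import Pool.Agent.PT21.Frame

/-!
# Terms, expansions, levels, and closure properties of tests
-/

set_option autoImplicit false

namespace PT21

open Pool.Agent.PTL

/-- Types of heads. -/
inductive Hd
  | n | t | h
  deriving DecidableEq, Fintype

/-- Value of a head. -/
def Hd.val : Hd → ℕ → ℕ
  | .n, _ => 0
  | .t, x => 2 ^ x
  | .h, x => 3 ^ x

section terms

variable {V V' : Type}

/-- Renaming of variables. -/
def Tm.ren (f : V → V') : Tm V → Tm V'
  | .var i => .var (f i)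
  | .zero => .zero
  | .one => .one
  | .add t u => .add (t.ren f) (u.ren f)
  | .mul t u => .mul (t.ren f) (u.ren f)
  | .exp2 t => .exp2 (t.ren f)
  | .exp3 t => .exp3 (t.ren f)

theorem Tm.val_ren (f : V → V') (ρ : V' → ℕ) (t : Tm V) :
    (t.ren f).val ρ = t.val (fun i => ρ (f i)) := by
  induction t with
  | var i => rfl
  | zero => rfl
  | one => rfl
  | add t u iht ihu => simp [Tm.ren, Tm.val, iht, ihu]
  | mul t u iht ihu => simp [Tm.ren, Tm.val, iht, ihu]
  | exp2 t ih => simp [Tm.ren, Tm.val, ih]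
  | exp3 t ih => simp [Tm.ren, Tm.val, ih]

/-- Expansion of a term into a sum of items `c * 2 ^ α * 3 ^ β`. -/
def ex (τ : V → Hd) : Tm V → List (List V × Tm (V ⊕ V) × Tm (V ⊕ V))
  | .var i => ([i], .zero, .zero) :: (match τ i with
    | .n => []
    | .t => [([], .var (.inr i), .zero)]
    | .h => [([], .zero, .var (.inr i))])
  | .zero => []
  | .one => [([], .zero, .zero)]
  | .add t u => ex τ t ++ ex τ u
  | .mul t u => (ex τ t).flatMap fun a => (ex τ u).map fun b =>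
      (a.1 ++ b.1, .add a.2.1 b.2.1, .add a.2.2 b.2.2)
  | .exp2 t => [([], t.ren .inl, .zero)]
  | .exp3 t => [([], .zero, t.ren .inl)]

/-- Value of an item. -/
def itv (s : V → ℕ) (ρ : V ⊕ V → ℕ) (a : List V × Tm (V ⊕ V) × Tm (V ⊕ V)) : ℕ :=
  (a.1.map s).prod * 2 ^ a.2.1.val ρ * 3 ^ a.2.2.val ρ

theorem ex_sum (τ : V → Hd) (s ρ σ : V → ℕ) (h : ∀ i, ρ i = s i + (τ i).val (σ i)) (t : Tm V) :
    ((ex τ t).map (itv s (Sum.elim ρ σ))).sum = t.val ρ := by
  induction t with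
  | var i =>
    simp only [ex, Tm.val, h i]
    cases τ i <;> simp [itv, Tm.val, Hd.val]
  | zero => simp [ex, Tm.val]
  | one => simp [ex, Tm.val, itv]
  | add t u iht ihu => simp [ex, Tm.val, iht, ihu]
  | mul t u iht ihu =>
    rw [ex, Tm.val, ← iht, ← ihu, List.map_flatMap]
    generalize ex τ t = L
    generalize ex τ u = L'
    induction L with
    | nil => simp
    | cons a L ih =>
      rw [List.flatMap_cons, List.sum_append, ih, List.map_cons, List.sum_cons, add_mul]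
      congr 1
      clear ih
      induction L' with
      | nil => simp
      | cons b L' ih' =>
        simp only [List.map_cons, List.sum_cons, mul_add] at ih' ⊢
        rw [ih']
        congr 1
        simp only [itv, List.map_append, List.prod_append, Tm.val, pow_add]
        ring
  | exp2 t ih =>
    simp only [ex, Tm.val, List.map_cons, List.map_nil, List.sum_cons, List.sum_nil, itv,
      Tm.val_ren, List.prod_nil, Sum.elim_inl]
    ring
  | exp3 t ih =>
    simp only [ex, Tm.val, List.map_cons, List.map_nil, List.sum_cons, List.sum_nil, itv,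
      Tm.val_ren, List.prod_nil, Sum.elim_inl]
    ring

/-- Levels of terms. -/
def Lv : ℕ → Tm V → Prop
  | 0, .var _ => True
  | 0, .zero => True
  | 0, _ => False
  | _ + 1, .var _ => True
  | _ + 1, .zero => True
  | _ + 1, .one => True
  | ℓ + 1, .add t u => Lv (ℓ + 1) t ∧ Lv (ℓ + 1) u
  | ℓ + 1, .mul t u => 1 ≤ ℓ ∧ Lv (ℓ + 1) t ∧ Lv (ℓ + 1) u
  | ℓ + 1, .exp2 t => Lv ℓ t
  | ℓ + 1, .exp3 t => Lv ℓ t

theorem Lv.var (ℓ : ℕ) (i : V) : Lv ℓ (.var i) := by
  cases ℓ <;> simp [Lv]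

theorem Lv.zero (ℓ : ℕ) : Lv ℓ (.zero : Tm V) := by
  cases ℓ <;> simp [Lv]

theorem Lv.succ {ℓ : ℕ} {t : Tm V} (h : Lv ℓ t) : Lv (ℓ + 1) t := by
  induction t generalizing ℓ with
  | var i => exact Lv.var _ _
  | zero => exact Lv.zero _
  | one => simp [Lv]
  | add t u iht ihu =>
    cases ℓ with
    | zero => simp [Lv] at h
    | succ ℓ => exact ⟨iht h.1, ihu h.2⟩
  | mul t u iht ihu =>
    cases ℓ with
    | zero => simp [Lv] at h
    | succ ℓ => exact ⟨by omega, iht h.2.1, ihu h.2.2⟩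
  | exp2 t ih =>
    cases ℓ with
    | zero => simp [Lv] at h
    | succ ℓ => exact ih (ℓ := ℓ) h
  | exp3 t ih =>
    cases ℓ with
    | zero => simp [Lv] at h
    | succ ℓ => exact ih (ℓ := ℓ) h

theorem Lv.mono {ℓ ℓ' : ℕ} (hle : ℓ ≤ ℓ') {t : Tm V} (h : Lv ℓ t) : Lv ℓ' t := by
  induction hle with
  | refl => exact h
  | step _ ih => exact ih.succ

theorem exists_lv (t : Tm V) : ∃ ℓ, Lv ℓ t := by
  induction t with
  | var i => exact ⟨0, Lv.var _ _⟩
  | zero => exact ⟨0, Lv.zero _⟩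
  | one => exact ⟨1, by simp [Lv]⟩
  | add t u iht ihu =>
    obtain ⟨ℓ, h⟩ := iht
    obtain ⟨ℓ', h'⟩ := ihu
    exact ⟨ℓ + ℓ' + 1, h.mono (by omega), h'.mono (by omega)⟩
  | mul t u iht ihu =>
    obtain ⟨ℓ, h⟩ := iht
    obtain ⟨ℓ', h'⟩ := ihu
    exact ⟨ℓ + ℓ' + 1 + 1, by omega, h.mono (by omega), h'.mono (by omega)⟩
  | exp2 t ih =>
    obtain ⟨ℓ, h⟩ := ih
    exact ⟨ℓ + 1, h⟩
  | exp3 t ih =>
    obtain ⟨ℓ, h⟩ := ih
    exact ⟨ℓ + 1, h⟩

theorem Lv.ren {ℓ : ℕ} {t : Tm V} (f : V → V') (h : Lv ℓ t) : Lv ℓ (t.ren f) := by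
  induction t generalizing ℓ with
  | var i => exact Lv.var _ _
  | zero => exact Lv.zero _
  | one =>
    cases ℓ with
    | zero => simp [Lv] at h
    | succ ℓ => simp [Lv, Tm.ren]
  | add t u iht ihu =>
    cases ℓ with
    | zero => simp [Lv] at h
    | succ ℓ => exact ⟨iht h.1, ihu h.2⟩
  | mul t u iht ihu =>
    cases ℓ with
    | zero => simp [Lv] at h
    | succ ℓ => exact ⟨h.1, iht h.2.1, ihu h.2.2⟩
  | exp2 t ih =>
    cases ℓ with
    | zero => simp [Lv] at h
    | succ ℓ => exact ih (ℓ := ℓ) h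
  | exp3 t ih =>
    cases ℓ with
    | zero => simp [Lv] at h
    | succ ℓ => exact ih (ℓ := ℓ) h

theorem ex_lv (τ : V → Hd) {ℓ : ℕ} {t : Tm V} (h : Lv (ℓ + 1) t) :
    ∀ a ∈ ex τ t, Lv ℓ a.2.1 ∧ Lv ℓ a.2.2 := by
  induction t with
  | var i =>
    intro a ha
    simp only [ex, List.mem_cons] at ha
    rcases ha with rfl | ha
    · exact ⟨Lv.zero _, Lv.zero _⟩
    · cases hτ : τ i with
      | n => simp [hτ] at ha
      | t =>
        simp only [hτ, List.mem_singleton] at ha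
        rw [ha]
        exact ⟨Lv.var _ _, Lv.zero _⟩
      | h =>
        simp only [hτ, List.mem_singleton] at ha
        rw [ha]
        exact ⟨Lv.zero _, Lv.var _ _⟩
  | zero => simp [ex]
  | one =>
    intro a ha
    simp only [ex, List.mem_singleton] at ha
    rw [ha]
    exact ⟨Lv.zero _, Lv.zero _⟩
  | add t u iht ihu =>
    intro a ha
    rw [ex, List.mem_append] at ha
    rcases ha with ha | ha
    · exact iht h.1 a ha
    · exact ihu h.2 a ha
  | mul t u iht ihu =>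
    intro a ha
    rw [ex, List.mem_flatMap] at ha
    obtain ⟨b, hb, ha⟩ := ha
    rw [List.mem_map] at ha
    obtain ⟨c, hc, rfl⟩ := ha
    have h1 := iht h.2.1 b hb
    have h2 := ihu h.2.2 c hc
    obtain ⟨ℓ', rfl⟩ : ∃ ℓ', ℓ = ℓ' + 1 := ⟨ℓ - 1, by have := h.1; omega⟩
    exact ⟨⟨h1.1, h2.1⟩, ⟨h1.2, h2.2⟩⟩
  | exp2 t ih =>
    intro a ha
    simp only [ex, List.mem_singleton] at ha
    rw [ha]
    exact ⟨Lv.ren _ h, Lv.zero _⟩
  | exp3 t ih =>
    intro a ha
    simp only [ex, List.mem_singleton] at ha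
    rw [ha]
    exact ⟨Lv.zero _, Lv.ren _ h⟩

end terms

section closure

theorem isT_exFin {n : ℕ} : ∀ {k : ℕ} {f : (ℕ → ℕ) → ℕ}
    {ψ : List Bool → (ℕ → ℕ) → (Fin n → ℕ) → Prop} (_ : IsE k f)
    (_ : ∀ k', k ≤ k' → ∀ y : Fin n → (ℕ → ℕ) → ℕ, (∀ i, IsE k' (y i)) →
      IsT k' (fun w env => ψ w env (fun i => y i env))),
    IsT k (fun w env => ∃ v : Fin n → ℕ, (∀ i, v i < f env) ∧ ψ w env v) := by
  induction n with
  | zero =>
    intro k f ψ _ h
    refine (h k le_rfl (fun i => i.elim0) (fun i => i.elim0)).congr fun w env => ?_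
    have e : ∀ v v' : Fin 0 → ℕ, v = v' := fun v v' => funext fun i => i.elim0
    constructor
    · rintro ⟨v, -, hv⟩
      rw [e v fun i => Fin.elim0 i] at hv
      rw [e (fun i => _) fun i => Fin.elim0 i]
      exact hv
    · intro hv
      exact ⟨_, fun i => i.elim0, hv⟩
  | succ n ih =>
    intro k f ψ hf h
    have h1 := IsT.ex (ψ := fun w env v₀ => ∃ v : Fin n → ℕ, (∀ i, v i < f env) ∧
      ψ w env (Fin.cons v₀ v)) hf fun k' hk y hy => by
        refine ih (ψ := fun w env v => ψ w env (Fin.cons (y env) v)) (hf.mono hk)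
          fun k'' hk' ys hys => ?_
        refine (h k'' (hk.trans hk') (Fin.cons y ys) (fun i => ?_)).congr fun w env => ?_
        · refine Fin.cases ?_ (fun i => ?_) i
          · simpa using hy.mono hk'
          · simpa using hys i
        · have : (fun i => (Fin.cons y ys : Fin (n + 1) → (ℕ → ℕ) → ℕ) i env) =
              (Fin.cons (y env) (fun i => ys i env) : Fin (n + 1) → ℕ) := by
            funext i
            refine Fin.cases ?_ (fun i => ?_) i <;> simp
          rw [this]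
    refine h1.congr fun w env => ?_
    constructor
    · rintro ⟨v, hv, hψ⟩
      refine ⟨v 0, hv 0, Fin.tail v, fun i => hv i.succ, ?_⟩
      rw [Fin.cons_self_tail]
      exact hψ
    · rintro ⟨v₀, hv₀, v, hv, hψ⟩
      refine ⟨Fin.cons v₀ v, fun i => ?_, hψ⟩
      refine Fin.cases ?_ (fun i => ?_) i
      · simpa using hv₀
      · simpa using hv i

theorem isT_exFam {ι : Type} [Fintype ι] {k : ℕ} {f : (ℕ → ℕ) → ℕ}
    {ψ : List Bool → (ℕ → ℕ) → (ι → ℕ) → Prop} (hf : IsE k f)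
    (h : ∀ k', k ≤ k' → ∀ y : ι → (ℕ → ℕ) → ℕ, (∀ i, IsE k' (y i)) →
      IsT k' (fun w env => ψ w env (fun i => y i env))) :
    IsT k (fun w env => ∃ v : ι → ℕ, (∀ i, v i < f env) ∧ ψ w env v) := by
  let e := Fintype.equivFin ι
  refine (isT_exFin (ψ := fun w env v => ψ w env (fun i => v (e i))) hf
    fun k' hk y hy => h k' hk (fun i => y (e i)) fun i => hy _).congr fun w env => ?_
  constructor
  · rintro ⟨v, hv, hψ⟩
    refine ⟨fun i => v (e.symm i), fun i => hv _, ?_⟩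
    simpa using hψ
  · rintro ⟨v, hv, hψ⟩
    exact ⟨fun i => v (e i), fun i => hv _, hψ⟩

theorem isT_all {ι : Type} [Finite ι] {k : ℕ} {φ : ι → List Bool → (ℕ → ℕ) → Prop}
    (h : ∀ i, IsT k (φ i)) : IsT k (fun w env => ∀ i, φ i w env) :=
  (IsT.exists fun i => (h i).not).not.congr fun w env => by push Not; rfl

theorem isE_sum {ι : Type} {k : ℕ} (s : Finset ι) (g : ι → (ℕ → ℕ) → ℕ)
    (h : ∀ i, IsE k (g i)) : IsE k (fun env => ∑ i ∈ s, g i env) := by
  classical
  induction s using Finset.induction_on with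
  | empty => simpa using IsE.const 0
  | insert i s hi ih =>
    have := (h i).add ih
    simpa [Finset.sum_insert hi] using this

theorem isE_prod {ι : Type} {k : ℕ} (l : List ι) (g : ι → (ℕ → ℕ) → ℕ)
    (h : ∀ i, IsE k (g i)) : IsE k (fun env => (l.map fun i => g i env).prod) := by
  induction l with
  | nil => simpa using IsE.const 1
  | cons i l ih => simpa using (h i).mul ih

end closure

theorem big_K (E : ℕ) : ∃ K₀ : ℕ, ∀ K ≥ K₀, ∀ x ≥ 3, ((K + 1) * x) ^ E < x ^ K := by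
  have h := tendsto_pow_const_div_const_pow_of_one_lt E (show (1 : ℝ) < 3 by norm_num)
  have h1 : ∀ᶠ n : ℕ in Filter.atTop, (n : ℝ) ^ E / 3 ^ n < 1 / 3 ^ (E + 1) :=
    h.eventually_lt_const (by positivity)
  obtain ⟨K₀, hK₀⟩ := Filter.eventually_atTop.1 h1
  refine ⟨K₀ + E, fun K hK x hx => ?_⟩
  have h2 := hK₀ (K + 1) (by omega)
  rw [div_lt_div_iff₀ (by positivity) (by positivity), one_mul] at h2
  have h3 : (K + 1) ^ E * 3 ^ (E + 1) < 3 ^ (K + 1) := by exact_mod_cast h2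
  have h4 : (K + 1) ^ E < 3 ^ (K - E) := by
    have e1 : K + 1 = (K - E) + (E + 1) := by omega
    have e2 : 3 ^ (K + 1) = 3 ^ (K - E) * 3 ^ (E + 1) := by
      conv_lhs => rw [e1]
      rw [pow_add]
    rw [e2] at h3
    exact Nat.lt_of_mul_lt_mul_right h3
  calc ((K + 1) * x) ^ E = (K + 1) ^ E * x ^ E := mul_pow _ _ _
    _ < 3 ^ (K - E) * x ^ E := Nat.mul_lt_mul_of_pos_right h4 (by positivity)
    _ ≤ x ^ (K - E) * x ^ E := Nat.mul_le_mul_right _ (Nat.pow_le_pow_left hx _)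
    _ = x ^ K := by rw [← pow_add, Nat.sub_add_cancel (by omega)]

theorem log_bound {m n K : ℕ} (h : 2 ^ m < (n + 3) ^ K) : m < K * (n + 3) := by
  have h1 : (n + 3) ^ K ≤ (2 ^ (n + 3)) ^ K := Nat.pow_le_pow_left Nat.lt_two_pow_self.le _
  have h2 : 2 ^ m < 2 ^ ((n + 3) * K) := by
    rw [pow_mul]
    omega
  have := (Nat.pow_lt_pow_iff_right (by norm_num)).1 h2
  rw [mul_comm]
  exact this

end PT21
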