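import Pool.Agent.PT21.Read

/-!
# The tables are computed in polynomial time
-/

set_option autoImplicit false

namespace PT21

open Pool.Agent.PTL

/-- The letter tables. -/
def lnum : Ltr → ℕ
  | .S => 3
  | .T => 4
  | .H => 5

/-- The string `w` contains all tables for the input `z`. -/
structure Good (N : ℕ) (w z : List Bool) : Prop where
  hN : z.length + 5 ≤ N
  h0 : ∀ a < N, ∀ b < N, (lk N w 0 a b ↔ b = 2 ^ a)
  h1 : ∀ a < N, ∀ b < N, (lk N w 1 a b ↔ b = 3 ^ a)
  h2 : ∀ p ≤ z.length + 1, ∀ b < N, (lk N w 2 p b ↔ wval (W z p) = b)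
  h3 : ∀ v < N, ∀ i < N, ∀ l : Ltr, (lk N w (lnum l) v i ↔ (nf v)[i]? = some l)
  h6 : ∀ p < N, (rb N w p ↔ bt z p = true)

section letters

variable {N : ℕ} {w z : List Bool}

theorem rS_iff (h : ∀ p < N, (rb N w p ↔ bt z p = true)) {p : ℕ} (hp : p + 3 < N) :
    rS N w p ↔ ltr z p = some .S := by
  unfold rS ltr
  rw [h p (by omega), h (p + 1) (by omega), h (p + 2) (by omega), h (p + 3) hp]
  cases bt z p <;> cases bt z (p + 1) <;> cases bt z (p + 2) <;> cases bt z (p + 3) <;> simp

theorem rT_iff (h : ∀ p < N, (rb N w p ↔ bt z p = true)) {p : ℕ} (hp : p + 3 < N) :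
    rT N w p ↔ ltr z p = some .T := by
  unfold rT ltr
  rw [h p (by omega), h (p + 1) (by omega), h (p + 2) (by omega), h (p + 3) hp]
  cases bt z p <;> cases bt z (p + 1) <;> cases bt z (p + 2) <;> cases bt z (p + 3) <;> simp

theorem rH_iff (h : ∀ p < N, (rb N w p ↔ bt z p = true)) {p : ℕ} (hp : p + 3 < N) :
    rH N w p ↔ ltr z p = some .H := by
  unfold rH ltr
  rw [h p (by omega), h (p + 1) (by omega), h (p + 2) (by omega), h (p + 3) hp]
  cases bt z p <;> cases bt z (p + 1) <;> cases bt z (p + 2) <;> cases bt z (p + 3) <;> simp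

end letters

/-- Relation between the tables and the truth that is preserved by the step. -/
structure Sound (N : ℕ) (w z : List Bool) : Prop where
  h0 : ∀ a < N, ∀ b < N, lk N w 0 a b → b = 2 ^ a
  h1 : ∀ a < N, ∀ b < N, lk N w 1 a b → b = 3 ^ a
  h2 : ∀ p ≤ z.length + 1, ∀ b < N, lk N w 2 p b → wval (W z p) = b
  h3 : ∀ v < N, ∀ i < N, ∀ l : Ltr, lk N w (lnum l) v i → (nf v)[i]? = some l
  h6 : ∀ p < N, (rb N w p ↔ bt z p = true)

theorem nf_pow2 (k : ℕ) : nf (2 ^ k) = .T :: nf k := by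
  rw [nf, dif_neg (by positivity), log_pow2, if_pos rfl]

theorem nf_pow3 {k : ℕ} (h : ¬ pw2 (3 ^ k)) : nf (3 ^ k) = .H :: nf k := by
  rw [pw2_iff] at h
  rw [nf, dif_neg (by positivity), if_neg (fun e => h ⟨_, e⟩), log_pow3, if_pos rfl]

theorem nf_other {v : ℕ} (h0 : v ≠ 0) (h2 : ¬ pw2 v) (h3 : ¬ pw3 v) :
    nf v = .S :: nf (v - 1) := by
  rw [pw2_iff] at h2
  rw [pw3_iff] at h3
  rw [nf, dif_neg h0, if_neg (fun e => h2 ⟨_, e⟩), if_neg (fun e => h3 ⟨_, e⟩)]

theorem lnum_lt (l : Ltr) : lnum l < 8 := by cases l <;> decide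

theorem lnum_cases (l : Ltr) : lnum l = 3 ∨ lnum l = 4 ∨ lnum l = 5 := by cases l <;> decide

theorem lnum_inj {l l' : Ltr} (h : lnum l = lnum l') : l = l' := by
  cases l <;> cases l' <;> first | rfl | (exact absurd h (by decide))

theorem rule0_iff {l : Ltr} {v : ℕ} : rule0 (lnum l) v ↔ (nf v)[0]? = some l := by
  unfold rule0
  by_cases h0 : v = 0
  · subst h0
    rw [nf_zero]
    simp
  · by_cases h2 : pw2 v
    · obtain ⟨k, rfl⟩ := (pw2_iff v).1 h2
      rw [nf_pow2]
      cases l <;> simp [lnum, h2]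
    · by_cases h3 : pw3 v
      · obtain ⟨k, rfl⟩ := (pw3_iff v).1 h3
        rw [nf_pow3 h2]
        cases l <;> simp [lnum, h2, h3]
      · rw [nf_other h0 h2 h3]
        cases l <;> simp [lnum, h2, h3, h0]

theorem Sound.step {N : ℕ} {w z : List Bool} (h : Sound N w z) (hN : z.length + 5 ≤ N) :
    Sound N (PT21.mk N (PT21.step N w)) z := by
  have e : ∀ {r a b : ℕ}, r < 8 → a < N → b < N → (lk N (PT21.mk N (PT21.step N w)) r a b ↔
      PT21.step N w r a b) := fun hr ha hb => lk_mk hr ha hb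
  refine ⟨?_, ?_, ?_, ?_, ?_⟩
  · intro a ha b hb hl
    rw [e (by norm_num) ha hb] at hl
    rcases hl with hl | ⟨-, hl⟩ | ⟨hr, -⟩ | ⟨hr, -⟩ | ⟨hr, -⟩
    · exact h.h0 a ha b hb hl
    · rcases hl with ⟨rfl, rfl⟩ | ⟨a', ha', b', hb', rfl, rfl, hl⟩
      · rfl
      · rw [h.h0 a' ha' b' hb' hl, pow_succ]
        ring
    · omega
    · omega
    · omega
  · intro a ha b hb hl
    rw [e (by norm_num) ha hb] at hl
    rcases hl with hl | ⟨hr, -⟩ | ⟨-, hl⟩ | ⟨hr, -⟩ | ⟨hr, -⟩
    · exact h.h1 a ha b hb hl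
    · omega
    · rcases hl with ⟨rfl, rfl⟩ | ⟨a', ha', b', hb', rfl, rfl, hl⟩
      · rfl
      · rw [h.h1 a' ha' b' hb' hl, pow_succ]
        ring
    · omega
    · omega
  · intro p hp b hb hl
    rw [e (by norm_num) (by omega) hb] at hl
    rcases hl with hl | ⟨hr, -⟩ | ⟨hr, -⟩ | ⟨-, hl⟩ | ⟨hr, -⟩
    · exact h.h2 p hp b hb hl
    · omega
    · omega
    · have hp3 : p + 3 < N := by omega
      rcases hl with ⟨⟨h1, h2, h3⟩, hb0⟩ | ⟨h1, v', hv', rfl, h2⟩ | ⟨h1, v', hv', h2, h3⟩ |
        ⟨h1, v', hv', h2, h3⟩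
      · rw [rS_iff h.h6 hp3] at h1
        rw [rT_iff h.h6 hp3] at h2
        rw [rH_iff h.h6 hp3] at h3
        have : ltr z p = none := by
          cases h' : ltr z p with
          | none => rfl
          | some l =>
            cases l with
            | S => exact absurd h' h1
            | T => exact absurd h' h2
            | H => exact absurd h' h3
        rw [W_none this, hb0]
        rfl
      · rw [rS_iff h.h6 hp3] at h1
        have := ltr_lt h1
        rw [W_some h1, wval]
        rw [h.h2 (p + 4) (by omega) v' hv' h2]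
      · rw [rT_iff h.h6 hp3] at h1
        have := ltr_lt h1
        rw [W_some h1, wval]
        rw [h.h2 (p + 4) (by omega) v' hv' h2]
        exact (h.h0 v' hv' b hb h3).symm
      · rw [rH_iff h.h6 hp3] at h1
        have := ltr_lt h1
        rw [W_some h1, wval]
        rw [h.h2 (p + 4) (by omega) v' hv' h2]
        exact (h.h1 v' hv' b hb h3).symm
    · omega
  · intro v hv i hi l hl
    rw [e (lnum_lt l) hv hi] at hl
    have hc := lnum_cases l
    rcases hl with hl | ⟨hr, -⟩ | ⟨hr, -⟩ | ⟨hr, -⟩ | ⟨-, hl⟩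
    · exact h.h3 v hv i hi l hl
    · omega
    · omega
    · omega
    · rcases hl with ⟨rfl, hl⟩ | ⟨i', hi', rfl, hl⟩
      · exact rule0_iff.1 hl
      · rcases hl with ⟨k, hk, h4, h5⟩ | ⟨h2, k, hk, h4, h5⟩ | ⟨h0, h2, h3, h5⟩
        · rw [h.h0 k hk v hv h4, nf_pow2, List.getElem?_cons_succ]
          exact h.h3 k hk i' hi' l h5
        · have h6 := h.h1 k hk v hv h4
          rw [h6] at h2 ⊢
          rw [nf_pow3 h2, List.getElem?_cons_succ]
          exact h.h3 k hk i' hi' l h5
        · rw [nf_other h0 h2 h3, List.getElem?_cons_succ]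
          exact h.h3 (v - 1) (by omega) i' hi' l h5
  · intro p hp
    unfold rb
    rw [e (by norm_num) hp (by omega)]
    constructor
    · rintro (hl | ⟨hr, -⟩ | ⟨hr, -⟩ | ⟨hr, -⟩ | ⟨hr, -⟩)
      · exact (h.h6 p hp).1 hl
      · omega
      · omega
      · omega
      · omega
    · intro hb
      exact Or.inl ((h.h6 p hp).2 hb)

theorem sound_init {N : ℕ} {z : List Bool} (hN : z.length + 5 ≤ N) :
    Sound N (PT21.mk N (init z)) z := by
  have e : ∀ {r a b : ℕ}, r < 8 → a < N → b < N → (lk N (PT21.mk N (init z)) r a b ↔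
      init z r a b) := fun hr ha hb => lk_mk hr ha hb
  refine ⟨?_, ?_, ?_, ?_, ?_⟩
  · intro a ha b hb hl
    rw [e (by norm_num) ha hb] at hl
    exact absurd hl.1 (by norm_num)
  · intro a ha b hb hl
    rw [e (by norm_num) ha hb] at hl
    exact absurd hl.1 (by norm_num)
  · intro p hp b hb hl
    rw [e (by norm_num) (by omega) hb] at hl
    exact absurd hl.1 (by norm_num)
  · intro v hv i hi l hl
    rw [e (lnum_lt l) hv hi] at hl
    have hc := lnum_cases l
    have := hl.1
    omega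
  · intro p hp
    unfold rb
    rw [e (by norm_num) hp (by omega)]
    exact ⟨fun h => h.2.2, fun h => ⟨rfl, rfl, h⟩⟩

theorem good_of_fix {N : ℕ} {w z : List Bool} (hN : z.length + 5 ≤ N) (hs : Sound N w z)
    (hw : PT21.mk N (PT21.step N w) = w) : Good N w z := by
  have e : ∀ {r a b : ℕ}, r < 8 → a < N → b < N → PT21.step N w r a b → lk N w r a b := by
    intro r a b hr ha hb h
    rw [← hw]
    exact (lk_mk hr ha hb).2 h
  have c0 : ∀ a b, b < N → b = 2 ^ a → lk N w 0 a b := by
    intro a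
    induction a with
    | zero =>
      intro b hb hb'
      exact e (by norm_num) (by omega) hb (Or.inr (Or.inl ⟨rfl, Or.inl ⟨rfl, hb'⟩⟩))
    | succ a ih =>
      intro b hb hb'
      have h1 : a + 1 < 2 ^ (a + 1) := Nat.lt_two_pow_self
      have h2 : 2 ^ (a + 1) = 2 * 2 ^ a := by rw [pow_succ]; ring
      refine e (by norm_num) (by omega) hb (Or.inr (Or.inl ⟨rfl, Or.inr
        ⟨a, by omega, 2 ^ a, by omega, rfl, by omega, ih _ (by omega) rfl⟩⟩))
  have c1 : ∀ a b, b < N → b = 3 ^ a → lk N w 1 a b := by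
    intro a
    induction a with
    | zero =>
      intro b hb hb'
      exact e (by norm_num) (by omega) hb (Or.inr (Or.inr (Or.inl ⟨rfl, Or.inl ⟨rfl, hb'⟩⟩)))
    | succ a ih =>
      intro b hb hb'
      have h1 : a + 1 < 3 ^ (a + 1) := Nat.lt_pow_self (by norm_num)
      have h2 : 3 ^ (a + 1) = 3 * 3 ^ a := by rw [pow_succ]; ring
      refine e (by norm_num) (by omega) hb (Or.inr (Or.inr (Or.inl ⟨rfl, Or.inr
        ⟨a, by omega, 3 ^ a, by omega, rfl, by omega, ih _ (by omega) rfl⟩⟩)))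
  have c2 : ∀ (m p : ℕ), z.length + 1 - p ≤ m → p ≤ z.length + 1 → ∀ b < N,
      wval (W z p) = b → lk N w 2 p b := by
    intro m
    induction m with
    | zero =>
      intro p hm hp b hb hv
      have hpe : p = z.length + 1 := by omega
      have hl : ltr z p = none := by
        cases h' : ltr z p with
        | none => rfl
        | some l =>
          have := ltr_lt h'
          omega
      have hp3 : p + 3 < N := by omega
      rw [W_none hl] at hv
      refine e (by norm_num) (by omega) hb (Or.inr (Or.inr (Or.inr (Or.inl ⟨rfl, Or.inl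
        ⟨⟨?_, ?_, ?_⟩, hv.symm⟩⟩))))
      · rw [rS_iff hs.h6 hp3, hl]
        simp
      · rw [rT_iff hs.h6 hp3, hl]
        simp
      · rw [rH_iff hs.h6 hp3, hl]
        simp
    | succ m ih =>
      intro p hm hp b hb hv
      have hp3 : p + 3 < N := by omega
      cases hl : ltr z p with
      | none =>
        rw [W_none hl] at hv
        refine e (by norm_num) (by omega) hb (Or.inr (Or.inr (Or.inr (Or.inl ⟨rfl, Or.inl
          ⟨⟨?_, ?_, ?_⟩, hv.symm⟩⟩))))
        · rw [rS_iff hs.h6 hp3, hl]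
          simp
        · rw [rT_iff hs.h6 hp3, hl]
          simp
        · rw [rH_iff hs.h6 hp3, hl]
          simp
      | some l =>
        have h4 := ltr_lt hl
        have hih := ih (p + 4) (by omega) (by omega)
        rw [W_some hl] at hv
        cases l with
        | S =>
          rw [wval] at hv
          refine e (by norm_num) (by omega) hb (Or.inr (Or.inr (Or.inr (Or.inl ⟨rfl, Or.inr
            (Or.inl ⟨(rS_iff hs.h6 hp3).2 hl, wval (W z (p + 4)), by omega, hv.symm,
              hih _ (by omega) rfl⟩)⟩))))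
        | T =>
          rw [wval] at hv
          have h5 : wval (W z (p + 4)) < 2 ^ wval (W z (p + 4)) := Nat.lt_two_pow_self
          refine e (by norm_num) (by omega) hb (Or.inr (Or.inr (Or.inr (Or.inl ⟨rfl, Or.inr
            (Or.inr (Or.inl ⟨(rT_iff hs.h6 hp3).2 hl, wval (W z (p + 4)), by omega,
              hih _ (by omega) rfl, c0 _ _ hb hv.symm⟩))⟩))))
        | H =>
          rw [wval] at hv
          have h5 : wval (W z (p + 4)) < 3 ^ wval (W z (p + 4)) := Nat.lt_pow_self (by norm_num)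
          refine e (by norm_num) (by omega) hb (Or.inr (Or.inr (Or.inr (Or.inl ⟨rfl, Or.inr
            (Or.inr (Or.inr ⟨(rH_iff hs.h6 hp3).2 hl, wval (W z (p + 4)), by omega,
              hih _ (by omega) rfl, c1 _ _ hb hv.symm⟩))⟩))))
  have c3 : ∀ i, i < N → ∀ v < N, ∀ l : Ltr, (nf v)[i]? = some l → lk N w (lnum l) v i := by
    intro i
    induction i with
    | zero =>
      intro hi v hv l hl
      exact e (lnum_lt l) hv hi (Or.inr (Or.inr (Or.inr (Or.inr
        ⟨lnum_cases l, Or.inl ⟨rfl, rule0_iff.2 hl⟩⟩))))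
    | succ i ih =>
      intro hi v hv l hl
      refine e (lnum_lt l) hv hi (Or.inr (Or.inr (Or.inr (Or.inr
        ⟨lnum_cases l, Or.inr ⟨i, by omega, rfl, ?_⟩⟩))))
      by_cases h0 : v = 0
      · subst h0
        rw [nf_zero] at hl
        simp at hl
      · by_cases h2 : pw2 v
        · obtain ⟨k, rfl⟩ := (pw2_iff v).1 h2
          rw [nf_pow2, List.getElem?_cons_succ] at hl
          have h5 : k < 2 ^ k := Nat.lt_two_pow_self
          exact Or.inl ⟨k, by omega, c0 _ _ hv rfl, ih (by omega) k (by omega) l hl⟩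
        · by_cases h3 : pw3 v
          · obtain ⟨k, rfl⟩ := (pw3_iff v).1 h3
            rw [nf_pow3 h2, List.getElem?_cons_succ] at hl
            have h5 : k < 3 ^ k := Nat.lt_pow_self (by norm_num)
            exact Or.inr (Or.inl ⟨h2, k, by omega, c1 _ _ hv rfl, ih (by omega) k (by omega) l hl⟩)
          · rw [nf_other h0 h2 h3, List.getElem?_cons_succ] at hl
            exact Or.inr (Or.inr ⟨h0, h2, h3, ih (by omega) (v - 1) (by omega) l hl⟩)
  exact ⟨hN, fun a ha b hb => ⟨hs.h0 a ha b hb, c0 a b hb⟩,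
    fun a ha b hb => ⟨hs.h1 a ha b hb, c1 a b hb⟩,
    fun p hp b hb => ⟨hs.h2 p hp b hb, c2 _ p le_rfl hp b hb⟩,
    fun v hv i hi l => ⟨hs.h3 v hv i hi l, c3 i hi v hv l⟩, hs.h6⟩

/-- Programs may use the tables. -/
theorem frame {K : ℕ} (hK : 2 ≤ K) {F : List Bool → ℕ → List Bool}
    (hF : ∀ k N, IsE k N → IsP k (fun w env => F w (N env))) :
    ∃ f, PTC f ∧ ∀ z : List Bool, ∃ w, Good ((z.length + 3) ^ K) w z ∧
      f z = F w ((z.length + 3) ^ K) := by
  classical
  have h₀ : PTC (fun z => mk ((z.length + 3) ^ K) (init z)) := by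
    refine PTC.of (F := fun z L => mk ((L + 3) ^ K) (init z)) fun k L hL => ?_
    refine (IsP.tbl [fun _ => 8, fun env => (L env + 3) ^ K, fun env => (L env + 3) ^ K] k
      (by simp [IsE.const, (hL.add (IsE.const 3)).pow K])
      (φ := fun w _ l => app3 (init w) l) fun k' hk ys hys hy => ?_)
    match ys, hys with
    | [y1, y2, y3], _ =>
      exact isT_init (hy _ (by simp)) (hy _ (by simp)) (hy _ (by simp))
  obtain ⟨H, h₁, h₁'⟩ := exists_fix (ψ := PT21.step)
    (fun k N r a b hN hr ha hb => isT_step hN hr ha hb) (fun _ _ _ _ _ h => Or.inl h)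
  obtain ⟨f₂, h₂, h₂', -⟩ := PTC.ofLen isE_len len_mono hF
  refine ⟨_, h₂.comp (h₁.comp h₀), fun z => ?_⟩
  have hN : z.length + 5 ≤ (z.length + 3) ^ K := by
    calc z.length + 5 ≤ (z.length + 3) ^ 2 := by nlinarith
      _ ≤ (z.length + 3) ^ K := Nat.pow_le_pow_right (by omega) hK
  obtain ⟨n, x, hx0, hx1, hx2, hx3⟩ := h₁' ((z.length + 3) ^ K) (init z)
  have hsound : ∀ i, Sound ((z.length + 3) ^ K) (x i) z := by
    intro i
    induction i with
    | zero =>
      rw [hx0]
      exact sound_init hN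
    | succ i ih =>
      rw [hx1]
      exact ih.step hN
  have hlen : (x n).length = len ((z.length + 3) ^ K) := by
    cases n with
    | zero => rw [hx0, mk_length]
    | succ i => rw [hx1, mk_length]
  refine ⟨x n, good_of_fix hN (hsound n) (by rw [← hx1, hx3]), ?_⟩
  rw [hx2, h₂' (x n) _ hlen]

end PT21
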