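import Pool.Agent.PT21.Step

/-!
# Names, tuples of names, functions and relations
-/

set_option autoImplicit false

namespace PT21

open Pool.Agent.PTL

/-- Two bits for a letter. -/
def lc : Ltr → List Bool
  | .S => [false, false]
  | .T => [true, false]
  | .H => [true, true]

/-- The code of a word. -/
def enc (u : List Ltr) : List Bool := u.flatMap lc

/-- The name of a number. -/
def nu (n : ℕ) : List Bool := enc (nf n)

theorem enc_nil : enc [] = [] := rfl

theorem enc_cons (l : Ltr) (u : List Ltr) : enc (l :: u) = lc l ++ enc u := rfl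

theorem enc_length (u : List Ltr) : (enc u).length = 2 * u.length := by
  induction u with
  | nil => rfl
  | cons l u ih =>
    rw [enc_cons, List.length_append, ih, List.length_cons]
    cases l <;> simp [lc] <;> ring

/-- Flags before all bits. -/
def dbl (x : List Bool) : List Bool := x.flatMap fun b => [true, b]

theorem dbl_nil : dbl [] = [] := rfl

theorem dbl_cons (b : Bool) (x : List Bool) : dbl (b :: x) = true :: b :: dbl x := rfl

theorem dbl_append (x y : List Bool) : dbl (x ++ y) = dbl x ++ dbl y :=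
  List.flatMap_append

theorem dbl_length (x : List Bool) : (dbl x).length = 2 * x.length := by
  induction x with
  | nil => rfl
  | cons b x ih =>
    rw [dbl_cons, List.length_cons, List.length_cons, ih, List.length_cons]
    ring

theorem tup_nil : tup [] = [] := rfl

theorem tup_cons (x : List Bool) (l : List (List Bool)) :
    tup (x :: l) = dbl x ++ false :: false :: tup l := by
  simp [tup, dbl]

theorem tup_append (l l' : List (List Bool)) : tup (l ++ l') = tup l ++ tup l' :=
  List.flatMap_append

theorem bt_append (y z : List Bool) (p : ℕ) : bt (y ++ z) (y.length + p) = bt z p := by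
  unfold bt
  rw [List.getD_append_right _ _ _ _ (by omega), Nat.add_sub_cancel_left]

theorem bt_append' (y z : List Bool) {p q : ℕ} (h : p = y.length + q) :
    bt (y ++ z) p = bt z q := by
  rw [h]
  exact bt_append y z q

theorem ltr_append (y z : List Bool) (p : ℕ) : ltr (y ++ z) (y.length + p) = ltr z p := by
  unfold ltr
  rw [add_assoc, add_assoc, add_assoc, bt_append, bt_append, bt_append, bt_append]

theorem W_append (y z : List Bool) (p : ℕ) : W (y ++ z) (y.length + p) = W z p := by
  cases h : ltr z p with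
  | none => rw [W_none h, W_none ((ltr_append y z p).trans h)]
  | some l =>
    have h1 := ltr_lt h
    rw [W_some h, W_some ((ltr_append y z p).trans h), add_assoc, W_append y z (p + 4)]
termination_by z.length - p

theorem ltr_lc (l : Ltr) (r : List Bool) : ltr (dbl (lc l) ++ r) 0 = some l := by
  cases l <;> rfl

theorem W_code (u : List Ltr) (r : List Bool) (hr : bt r 0 = false) :
    W (dbl (enc u) ++ r) 0 = u := by
  induction u with
  | nil =>
    apply W_none
    unfold ltr
    rw [if_neg]
    rw [enc_nil, dbl_nil, List.nil_append, hr]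
    simp
  | cons l u ih =>
    rw [enc_cons, dbl_append, List.append_assoc, W_some (ltr_lc l _)]
    have h1 : (dbl (lc l)).length = 4 := by cases l <;> rfl
    have h2 := W_append (dbl (lc l)) (dbl (enc u) ++ r) 0
    rw [h1] at h2
    rw [h2, ih]

/-- The starting position of a string in a tuple. -/
def pos (l : List (List Ltr)) (i : ℕ) : ℕ := (tup ((l.take i).map enc)).length

theorem pos_zero (l : List (List Ltr)) : pos l 0 = 0 := rfl

theorem take_succ' {α : Type} (l : List α) (i : ℕ) (h : i < l.length) :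
    l.take (i + 1) = l.take i ++ [l[i]] := by
  rw [List.take_add_one, List.getElem?_eq_getElem h]
  rfl

theorem pos_succ (l : List (List Ltr)) (i : ℕ) (h : i < l.length) :
    pos l (i + 1) = pos l i + 4 * l[i].length + 2 := by
  unfold pos
  rw [take_succ' l i h, List.map_append, tup_append, List.length_append, List.map_singleton,
    tup_cons, List.length_append, dbl_length, enc_length, tup_nil]
  simp only [List.length_cons, List.length_nil]
  ring

theorem W_pos (l : List (List Ltr)) (i : ℕ) (h : i < l.length) :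
    W (tup (l.map enc)) (pos l i) = l[i] := by
  have h1 : tup (l.map enc) = tup ((l.take i).map enc) ++
      (dbl (enc l[i]) ++ false :: false :: tup ((l.drop (i + 1)).map enc)) := by
    conv_lhs => rw [← List.take_append_drop i l]
    rw [List.map_append, tup_append, ← List.getElem_cons_drop h, List.map_cons, tup_cons]
  have h2 := W_append (tup ((l.take i).map enc))
    (dbl (enc l[i]) ++ false :: false :: tup ((l.drop (i + 1)).map enc)) 0
  rw [add_zero] at h2
  rw [h1]
  show W _ (tup ((l.take i).map enc)).length = _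
  rw [h2, W_code _ _ rfl]

theorem pos_le (l : List (List Ltr)) (i : ℕ) : pos l i ≤ (tup (l.map enc)).length := by
  unfold pos
  conv_rhs => rw [← List.take_append_drop i l]
  rw [List.map_append, tup_append, List.length_append]
  omega

section next

/-- The word at `p` has length `L`. -/
def wl (N : ℕ) (w : List Bool) (p L : ℕ) : Prop :=
  (∀ i < L, ¬ en N w (p + 4 * i)) ∧ en N w (p + 4 * L)

theorem wl_sound {N : ℕ} {w z : List Bool} (hg : Good N w z) : ∀ (L p : ℕ),
    p ≤ z.length + 1 → wl N w p L → (W z p).length = L := by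
  intro L
  induction L with
  | zero =>
    intro p hp h
    have h1 := h.2
    rw [mul_zero, add_zero, en_iff hg hp] at h1
    rw [W_none h1]
    rfl
  | succ L ih =>
    intro p hp h
    have h0 := h.1 0 (by omega)
    rw [mul_zero, add_zero, en_iff hg hp] at h0
    cases hl : ltr z p with
    | none => exact absurd hl h0
    | some l =>
      have h5 := ltr_lt hl
      have h6 : wl N w (p + 4) L := by
        refine ⟨fun i hi => ?_, ?_⟩
        · have := h.1 (i + 1) (by omega)
          rwa [show p + 4 * (i + 1) = p + 4 + 4 * i by ring] at this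
        · have := h.2
          rwa [show p + 4 * (L + 1) = p + 4 + 4 * L by ring] at this
      rw [W_some hl, List.length_cons, ih (p + 4) (by omega) h6]

theorem wl_complete {N : ℕ} {w z : List Bool} (hg : Good N w z) : ∀ (L p : ℕ),
    p ≤ z.length + 1 → (W z p).length = L → wl N w p L := by
  intro L
  induction L with
  | zero =>
    intro p hp h
    refine ⟨fun i hi => absurd hi (by omega), ?_⟩
    rw [mul_zero, add_zero, en_iff hg hp]
    cases hl : ltr z p with
    | none => rfl
    | some l =>
      rw [W_some hl] at h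
      simp at h
  | succ L ih =>
    intro p hp h
    cases hl : ltr z p with
    | none =>
      rw [W_none hl] at h
      simp at h
    | some l =>
      have h5 := ltr_lt hl
      rw [W_some hl, List.length_cons] at h
      obtain ⟨h1, h2⟩ := ih (p + 4) (by omega) (by omega)
      refine ⟨fun i hi => ?_, ?_⟩
      · cases i with
        | zero =>
          rw [mul_zero, add_zero, en_iff hg hp, hl]
          simp
        | succ i =>
          rw [show p + 4 * (i + 1) = p + 4 + 4 * i by ring]
          exact h1 i (by omega)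
      · rwa [show p + 4 * (L + 1) = p + 4 + 4 * L by ring]

/-- The next string starts at `q`. -/
def nx (N : ℕ) (w : List Bool) (p q : ℕ) : Prop := ∃ L < N, wl N w p L ∧ q = p + 4 * L + 2

theorem nx_iff {N : ℕ} {w z : List Bool} (hg : Good N w z) {p q : ℕ} (hp : p ≤ z.length + 1) :
    nx N w p q ↔ q = p + 4 * (W z p).length + 2 := by
  constructor
  · rintro ⟨L, -, h1, h2⟩
    rw [wl_sound hg L p hp h1]
    exact h2
  · intro h
    have h1 := W_length z p
    have hN := hg.hN
    exact ⟨_, by omega, wl_complete hg _ p hp rfl, h⟩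

theorem isT_wl {k : ℕ} {N p L : (ℕ → ℕ) → ℕ} (hN : IsE k N) (hp : IsE k p) (hL : IsE k L) :
    IsT k (fun w env => wl (N env) w (p env) (L env)) :=
  (IsT.all hL fun _ h₁ _ hi => (isT_en (hN.mono h₁) ((hp.mono h₁).add
    ((IsE.const 4).mul hi))).not).and (isT_en hN (hp.add ((IsE.const 4).mul hL)))

theorem isT_nx {k : ℕ} {N p q : (ℕ → ℕ) → ℕ} (hN : IsE k N) (hp : IsE k p) (hq : IsE k q) :
    IsT k (fun w env => nx (N env) w (p env) (q env)) :=
  IsT.ex hN fun _ h₁ _ hL => (isT_wl (hN.mono h₁) (hp.mono h₁) hL).and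
    (IsT.eq (hq.mono h₁) (((hp.mono h₁).add ((IsE.const 4).mul hL)).add (IsE.const 2)))

end next

/-- All equations between terms are decidable in polynomial time. -/
theorem pRel_eq (r : ℕ) (t t' : Tm (Fin r)) : PRel nu (fun x => t.val x = t'.val x) := by
  classical
  obtain ⟨K₀, Φ, h1, h2⟩ := eq_test (Fin r) t t'
  obtain ⟨f, hf, hf'⟩ := frame (K := K₀ + 2) (by omega)
    (F := fun w N => [decide (∃ P : Fin (r + 1) → ℕ, (∀ i, P i < N) ∧
      ((P 0 = 0 ∧ ∀ i : Fin r, nx N w (P i.castSucc) (P i.succ)) ∧
        Φ N w (fun i => P i.castSucc)))]) (by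
      intro k N hN
      refine IsP.dec (isT_exFam hN fun k₁ h₁ P hP => ?_)
      have hN' := hN.mono h₁
      exact ((IsT.eq (hP 0) (IsE.const 0)).and (isT_all fun i => isT_nx hN' (hP _) (hP _))).and
        (h1 k₁ N (fun i => P i.castSucc) hN' fun i => hP _))
  refine ⟨f, hf.polyTime, fun x => ?_⟩
  set l : List (List Ltr) := List.ofFn fun i => nf (x i) with hl
  have hll : l.length = r := List.length_ofFn
  have hz : tup (List.ofFn fun i => nu (x i)) = tup (l.map enc) := by
    rw [hl, List.map_ofFn]
    rfl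
  rw [hz]
  set z := tup (l.map enc) with hzdef
  obtain ⟨w, hg, hfz⟩ := hf' z
  have hN := hg.hN
  have hget : ∀ i : Fin r, ∀ h : (i : ℕ) < l.length, l[(i : ℕ)] = nf (x i) := by
    intro i h
    simp [hl]
  have hch : ∀ P : Fin (r + 1) → ℕ, (P 0 = 0 ∧ ∀ i : Fin r, nx ((z.length + 3) ^ (K₀ + 2)) w
      (P i.castSucc) (P i.succ)) ↔ ∀ i, P i = pos l i := by
    intro P
    constructor
    · rintro ⟨h3, h4⟩ i
      induction i using Fin.induction with
      | zero => exact h3
      | succ i ih =>
        have h5 := h4 i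
        have h6 : pos l i ≤ z.length := pos_le l i
        rw [Fin.val_castSucc] at ih
        rw [nx_iff hg (by rw [ih]; omega), ih, W_pos l i (by omega)] at h5
        rw [h5, Fin.val_succ, pos_succ l i (by omega)]
    · intro h
      refine ⟨h 0, fun i => ?_⟩
      have h6 : pos l i ≤ z.length := pos_le l i
      rw [h, h, Fin.val_castSucc, Fin.val_succ, nx_iff hg (by omega), W_pos l i (by omega),
        pos_succ l i (by omega)]
  have hval : (fun i : Fin r => wval (W z (pos l i))) = x := by
    funext i
    rw [W_pos l i (by omega), hget i (by omega), wval_nf]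
  have hmain : (∃ P : Fin (r + 1) → ℕ, (∀ i, P i < (z.length + 3) ^ (K₀ + 2)) ∧
      ((P 0 = 0 ∧ ∀ i : Fin r, nx ((z.length + 3) ^ (K₀ + 2)) w (P i.castSucc) (P i.succ)) ∧
        Φ ((z.length + 3) ^ (K₀ + 2)) w (fun i => P i.castSucc))) ↔ t.val x = t'.val x := by
    have h3 := h2 (K₀ + 2) (by omega) z w hg (fun i : Fin r => pos l i) (fun i => by
      refine ⟨Nat.le_succ_of_le (pos_le l i), ?_⟩
      rw [W_pos l i (by omega), hget i (by omega)]
      exact can_nf _)
    rw [hval] at h3
    rw [← h3]
    constructor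
    · rintro ⟨P, -, h4, h5⟩
      rw [hch] at h4
      have : (fun i : Fin r => P i.castSucc) = fun i : Fin r => pos l i := by
        funext i
        rw [h4]
        rfl
      rwa [this] at h5
    · intro h
      refine ⟨fun i => pos l i, fun i => ?_, (hch _).2 fun i => rfl, h⟩
      have : pos l i ≤ z.length := pos_le l i
      beta_reduce
      omega
  rw [hfz]
  constructor
  · intro h
    rw [decide_eq_true (hmain.2 h)]
  · intro h
    rw [decide_eq_false (fun h' => h (hmain.1 h'))]

section functions

open Classical in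
/-- Choice by a test. -/
noncomputable def cif (a : Prop) (x y : List Bool) : List Bool := if a then x else y

theorem cif_pos {a : Prop} {x y : List Bool} (h : a) : cif a x y = x := if_pos h

theorem cif_neg {a : Prop} {x y : List Bool} (h : ¬ a) : cif a x y = y := if_neg h

theorem isP_cif {k : ℕ} {φ : List Bool → (ℕ → ℕ) → Prop} {F G : List Bool → (ℕ → ℕ) → List Bool}
    (hφ : IsT k φ) (h : IsP k F) (h' : IsP k G) :
    IsP k (fun w env => cif (φ w env) (F w env) (G w env)) := IsP.ite hφ h h'

theorem flat_get (u : List Ltr) (M : ℕ) (h : u.length ≤ M) :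
    ((List.range M).flatMap fun i => ((u[i]?).map lc).getD []) = enc u := by
  induction u generalizing M with
  | nil =>
    rw [enc_nil, List.flatMap_eq_nil_iff]
    intro i _
    simp
  | cons l u ih =>
    obtain ⟨M', rfl⟩ : ∃ M', M = M' + 1 := ⟨M - 1, by simp at h; omega⟩
    rw [List.range_succ_eq_map, List.flatMap_cons, List.flatMap_map, enc_cons,
      ← ih M' (by simpa using h)]
    rfl

/-- Emit the letter given by three tests. -/
noncomputable def em (a b c : Prop) : List Bool :=
  cif a [false, false] (cif b [true, false] (cif c [true, true] []))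

theorem em_eq {a b c : Prop} (o : Option Ltr) (ha : a ↔ o = some .S) (hb : b ↔ o = some .T)
    (hc : c ↔ o = some .H) : em a b c = (o.map lc).getD [] := by
  unfold em
  rcases o with _ | l
  · rw [cif_neg (by rw [ha]; simp), cif_neg (by rw [hb]; simp), cif_neg (by rw [hc]; simp)]
    rfl
  · cases l with
    | S =>
      rw [cif_pos (ha.2 rfl)]
      rfl
    | T =>
      rw [cif_neg (by rw [ha]; simp), cif_pos (hb.2 rfl)]
      rfl
    | H =>
      rw [cif_neg (by rw [ha]; simp), cif_neg (by rw [hb]; simp), cif_pos (hc.2 rfl)]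
      rfl

theorem isP_em {k : ℕ} {a b c : List Bool → (ℕ → ℕ) → Prop} (ha : IsT k a) (hb : IsT k b)
    (hc : IsT k c) : IsP k (fun w env => em (a w env) (b w env) (c w env)) :=
  isP_cif ha ((IsP.emit false).append (IsP.emit false)) (isP_cif hb
    ((IsP.emit true).append (IsP.emit false)) (isP_cif hc
      ((IsP.emit true).append (IsP.emit true)) IsP.nil))

/-- Copy the code of the word at position `0`. -/
noncomputable def cpy (w : List Bool) (N : ℕ) : List Bool :=
  (List.range N).flatMap fun i => em (4 * i + 3 < N ∧ rS N w (4 * i))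
    (4 * i + 3 < N ∧ rT N w (4 * i)) (4 * i + 3 < N ∧ rH N w (4 * i))

theorem isP_cpy {k : ℕ} {N : (ℕ → ℕ) → ℕ} (hN : IsE k N) :
    IsP k (fun w env => cpy w (N env)) := by
  refine IsP.loop hN fun k₁ h₁ i hi => ?_
  have hN' := hN.mono h₁
  have h4 := (IsE.const (k := k₁) 4).mul hi
  have hlt := IsT.lt (h4.add (IsE.const 3)) hN'
  exact isP_em (hlt.and (isT_rS hN' h4)) (hlt.and (isT_rT hN' h4)) (hlt.and (isT_rH hN' h4))

theorem ltr_get (u : List Ltr) (i : ℕ) : ltr (tup [enc u]) (4 * i) = u[i]? := by
  have h0 : tup [enc u] = dbl (enc u) ++ [false, false] := by rw [tup_cons, tup_nil]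
  rw [h0]
  clear h0
  induction u generalizing i with
  | nil =>
    rw [enc_nil, dbl_nil, List.nil_append, List.getElem?_nil]
    cases h : ltr [false, false] (4 * i) with
    | none => rfl
    | some l =>
      have := ltr_lt h
      simp at this
  | cons l u ih =>
    rw [enc_cons, dbl_append, List.append_assoc]
    cases i with
    | zero => exact ltr_lc l _
    | succ i =>
      have h1 : (dbl (lc l)).length = 4 := by cases l <;> rfl
      have h2 := ltr_append (dbl (lc l)) (dbl (enc u) ++ [false, false]) (4 * i)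
      rw [h1] at h2
      rw [show 4 * (i + 1) = 4 + 4 * i by ring, h2, ih, List.getElem?_cons_succ]

theorem cpy_eq {N : ℕ} {w : List Bool} {u : List Ltr} (hg : Good N w (tup [enc u])) :
    cpy w N = enc u := by
  have hN := hg.hN
  have hlen : (tup [enc u]).length = 4 * u.length + 2 := by
    rw [tup_cons, tup_nil, List.length_append, dbl_length, enc_length]
    simp only [List.length_cons, List.length_nil]
    ring
  rw [← flat_get u N (by omega)]
  unfold cpy
  apply List.flatMap_congr
  intro i _
  apply em_eq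
  · by_cases h : 4 * i + 3 < N
    · rw [rS_iff hg.h6 h, ltr_get]
      simp [h]
    · have : u[i]? = none := List.getElem?_eq_none (by omega)
      rw [this]
      simp [h]
  · by_cases h : 4 * i + 3 < N
    · rw [rT_iff hg.h6 h, ltr_get]
      simp [h]
    · have : u[i]? = none := List.getElem?_eq_none (by omega)
      rw [this]
      simp [h]
  · by_cases h : 4 * i + 3 < N
    · rw [rH_iff hg.h6 h, ltr_get]
      simp [h]
    · have : u[i]? = none := List.getElem?_eq_none (by omega)
      rw [this]
      simp [h]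

theorem W_tup (u : List Ltr) : W (tup [enc u]) 0 = u := by
  rw [tup_cons, tup_nil]
  exact W_code u _ rfl

theorem pFun_of {f : ℕ → ℕ} {K : ℕ} (hK : 2 ≤ K) {F : List Bool → ℕ → List Bool}
    (hF : ∀ k N, IsE k N → IsP k (fun w env => F w (N env)))
    (h : ∀ n w, Good (((tup [nu n]).length + 3) ^ K) w (tup [nu n]) →
      F w (((tup [nu n]).length + 3) ^ K) = nu (f n)) :
    PFun nu (r := 1) (fun x => f (x 0)) := by
  obtain ⟨g, hg, hg'⟩ := frame hK hF
  refine ⟨g, hg.polyTime, fun x => ?_⟩
  have : (List.ofFn fun i => nu (x i)) = [nu (x 0)] := by simp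
  rw [this]
  obtain ⟨w, h1, h2⟩ := hg' (tup [nu (x 0)])
  rw [h2, h _ w h1]

theorem pFun_exp2 : PFun nu (r := 1) (fun x => 2 ^ x 0) := by
  refine pFun_of (f := fun n => 2 ^ n) le_rfl (F := fun w N => [true, false] ++ cpy w N)
    (fun k N hN => ((IsP.emit true).append (IsP.emit false)).append (isP_cpy hN)) ?_
  intro n w hg
  show [true, false] ++ cpy w _ = nu (2 ^ n)
  rw [show nu n = enc (nf n) from rfl] at hg ⊢
  rw [cpy_eq hg]
  unfold nu
  rw [nf_pow2, enc_cons]
  rfl

theorem pFun_exp3 : PFun nu (r := 1) (fun x => 3 ^ x 0) := by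
  refine pFun_of (f := fun n => 3 ^ n) le_rfl
    (F := fun w N => cif (en N w 0) [true, false] ([true, true] ++ cpy w N))
    (fun k N hN => isP_cif (isT_en hN (IsE.const 0)) ((IsP.emit true).append (IsP.emit false))
      (((IsP.emit true).append (IsP.emit true)).append (isP_cpy hN))) ?_
  intro n w hg
  show cif (en _ w 0) [true, false] ([true, true] ++ cpy w _) = nu (3 ^ n)
  rw [show nu n = enc (nf n) from rfl] at hg ⊢
  rw [cpy_eq hg]
  have h0 : en (((tup [enc (nf n)]).length + 3) ^ 2) w 0 ↔ n = 0 := by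
    rw [en_iff hg (Nat.zero_le _)]
    have h1 := ltr_get (nf n) 0
    rw [mul_zero] at h1
    rw [h1]
    constructor
    · intro h
      have h2 : nf n = [] := by
        cases h3 : nf n with
        | nil => rfl
        | cons l u =>
          rw [h3] at h
          simp at h
      have h3 := wval_nf n
      rw [h2] at h3
      exact h3.symm
    · intro h
      rw [h, nf_zero]
      rfl
  unfold nu
  by_cases hn : n = 0
  · rw [cif_pos (h0.2 hn), hn, pow_zero]
    have : nf 1 = [.T] := by
      have := nf_pow2 0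
      rwa [pow_zero, nf_zero] at this
    rw [this]
    rfl
  · rw [cif_neg (fun h => hn (h0.1 h)), nf_pow3, enc_cons]
    · rfl
    · rw [pw2_iff]
      rintro ⟨k, hk⟩
      exact three_pow_ne_two_pow hn hk

/-- Emit the code of the canonical word of a number given by a test. -/
noncomputable def emn (w : List Bool) (N : ℕ) (φ : ℕ → Prop) : List Bool :=
  (List.range N).flatMap fun i => em (∃ a < N, φ a ∧ lk N w 3 a i)
    (∃ a < N, φ a ∧ lk N w 4 a i) (∃ a < N, φ a ∧ lk N w 5 a i)

theorem nf_length_le (n : ℕ) : (nf n).length ≤ n := by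
  induction n using Nat.strong_induction_on with
  | _ n ih =>
    rw [nf]
    split_ifs with h0 h2 h3
    · simp
    · have h4 := Nat.log_lt_self 2 h0
      have := ih _ h4
      rw [List.length_cons]
      omega
    · have h4 := Nat.log_lt_self 3 h0
      have := ih _ h4
      rw [List.length_cons]
      omega
    · have := ih (n - 1) (by omega)
      rw [List.length_cons]
      omega

theorem emn_eq {N : ℕ} {w z : List Bool} (hg : Good N w z) {φ : ℕ → Prop} {a : ℕ} (ha : a < N)
    (hφ : ∀ b < N, φ b ↔ b = a) : emn w N φ = enc (nf a) := by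
  have hl := nf_length_le a
  rw [← flat_get (nf a) N (by omega)]
  unfold emn
  apply List.flatMap_congr
  intro i hi
  have hi' := List.mem_range.1 hi
  have key : ∀ l : Ltr, (∃ b < N, φ b ∧ lk N w (lnum l) b i) ↔ (nf a)[i]? = some l := by
    intro l
    rw [← hg.h3 a ha i hi' l]
    constructor
    · rintro ⟨b, hb, h1, h2⟩
      rw [hφ b hb] at h1
      rwa [h1] at h2
    · intro h
      exact ⟨a, ha, (hφ a ha).2 rfl, h⟩
  exact em_eq _ (key .S) (key .T) (key .H)

theorem isP_emn {k : ℕ} {N : (ℕ → ℕ) → ℕ} (hN : IsE k N)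
    {φ : List Bool → (ℕ → ℕ) → ℕ → Prop}
    (hφ : ∀ k', k ≤ k' → ∀ y, IsE k' y → IsT k' (fun w env => φ w env (y env))) :
    IsP k (fun w env => emn w (N env) (φ w env)) := by
  refine IsP.loop hN fun k₁ h₁ i hi => ?_
  have key : ∀ c : ℕ, IsT k₁ (fun w env => ∃ a < N env, φ w env a ∧
      lk (N env) w c a (i env)) := by
    intro c
    refine IsT.ex (hN.mono h₁) fun k₂ h₂ a ha => ?_
    exact (hφ k₂ (h₁.trans h₂) a ha).and
      (isT_lk (hN.mono (h₁.trans h₂)) (IsE.const c) ha (hi.mono h₂))
  exact isP_em (key 3) (key 4) (key 5)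

/-- The successor of the number at position `0` is `c ^ a`, for small numbers;
`c = 0` stands for `2` and `c = 1` for `3`. -/
def sp (N : ℕ) (w : List Bool) (p c a : ℕ) : Prop :=
  ∃ v < N, v + 1 < N ∧ lk N w 2 p v ∧ lk N w c a (v + 1)

theorem isT_sp {k : ℕ} {N p a : (ℕ → ℕ) → ℕ} (c : ℕ) (hN : IsE k N) (hp : IsE k p)
    (ha : IsE k a) : IsT k (fun w env => sp (N env) w (p env) c (a env)) :=
  IsT.ex hN fun _ h₁ _ hv => (IsT.lt (hv.add (IsE.const 1)) (hN.mono h₁)).and
    ((isT_lk (hN.mono h₁) (IsE.const 2) (hp.mono h₁) hv).and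
      (isT_lk (hN.mono h₁) (IsE.const c) (ha.mono h₁) (hv.add (IsE.const 1))))

theorem sp_iff0 {N : ℕ} {w z : List Bool} (hg : Good N w z) {p a : ℕ} (hp : p ≤ z.length + 1)
    (ha : a < N) : sp N w p 0 a ↔ wval (W z p) + 1 < N ∧ wval (W z p) + 1 = 2 ^ a := by
  constructor
  · rintro ⟨v, hv, h1, h2, h3⟩
    rw [hg.h2 p hp v hv] at h2
    rw [h2]
    exact ⟨h1, (hg.h0 a ha _ h1).1 h3⟩
  · rintro ⟨h1, h2⟩
    exact ⟨wval (W z p), by omega, h1, (hg.h2 p hp _ (by omega)).2 rfl, (hg.h0 a ha _ h1).2 h2⟩

theorem sp_iff1 {N : ℕ} {w z : List Bool} (hg : Good N w z) {p a : ℕ} (hp : p ≤ z.length + 1)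
    (ha : a < N) : sp N w p 1 a ↔ wval (W z p) + 1 < N ∧ wval (W z p) + 1 = 3 ^ a := by
  constructor
  · rintro ⟨v, hv, h1, h2, h3⟩
    rw [hg.h2 p hp v hv] at h2
    rw [h2]
    exact ⟨h1, (hg.h1 a ha _ h1).1 h3⟩
  · rintro ⟨h1, h2⟩
    exact ⟨wval (W z p), by omega, h1, (hg.h2 p hp _ (by omega)).2 rfl, (hg.h1 a ha _ h1).2 h2⟩

/-- The program for the successor. -/
noncomputable def fS (w : List Bool) (N : ℕ) : List Bool :=
  cif (∃ a < N, sp N w 0 0 a) ([true, false] ++ emn w N (fun a => sp N w 0 0 a))
    (cif (∃ a < N, sp N w 0 1 a) ([true, true] ++ emn w N (fun a => sp N w 0 1 a))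
      ([false, false] ++ cpy w N))

theorem isP_fS {k : ℕ} {N : (ℕ → ℕ) → ℕ} (hN : IsE k N) :
    IsP k (fun w env => fS w (N env)) := by
  have h : ∀ c, IsT k (fun w env => ∃ a < N env, sp (N env) w 0 c a) := fun c =>
    IsT.ex hN fun _ h₁ _ ha => isT_sp c (hN.mono h₁) (IsE.const 0) ha
  have h' : ∀ c, IsP k (fun w env => emn w (N env) (fun a => sp (N env) w 0 c a)) := fun c =>
    isP_emn (φ := fun w env a => sp (N env) w 0 c a) hN fun _ h₁ _ ha =>
      isT_sp c (hN.mono h₁) (IsE.const 0) ha
  exact isP_cif (h 0) (((IsP.emit true).append (IsP.emit false)).append (h' 0))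
    (isP_cif (h 1) (((IsP.emit true).append (IsP.emit true)).append (h' 1))
      (((IsP.emit false).append (IsP.emit false)).append (isP_cpy hN)))

theorem pFun_succ : PFun nu (r := 1) (fun x => x 0 + 1) := by
  obtain ⟨C, hC⟩ := succ_pw
  obtain ⟨K₀, hK₀⟩ := big_K C
  refine pFun_of (f := fun n => n + 1) (K := K₀ + 2) (by omega) (F := fS)
    (fun k N hN => isP_fS hN) ?_
  intro n w hg
  rw [show nu n = enc (nf n) from rfl] at hg ⊢
  set z := tup [enc (nf n)] with hz
  have hW : W z 0 = nf n := W_tup _
  have hv : wval (W z 0) = n := by rw [hW, wval_nf]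
  have hl := W_length z 0
  have hN := hg.hN
  set N := (z.length + 3) ^ (K₀ + 2) with hNdef
  have hbig : IsPw (n + 1) → n + 1 < N := by
    intro h
    have hM : z.length + 3 ≤ (K₀ + 2 + 1) * (z.length + 3) :=
      Nat.le_mul_of_pos_left _ (by omega)
    have h1 := hC ((K₀ + 2 + 1) * (z.length + 3)) (W z 0) (by omega) (by omega)
      (by rw [hv]; exact h)
    rw [hv] at h1
    exact h1.trans_lt (hK₀ (K₀ + 2) (by omega) _ (by omega))
  have e0 : ∀ a < N, sp N w 0 0 a ↔ n + 1 = 2 ^ a := by
    intro a ha
    rw [sp_iff0 hg (Nat.zero_le _) ha, hv]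
    exact ⟨fun h => h.2, fun h => ⟨hbig (Or.inl ⟨a, h⟩), h⟩⟩
  have e1 : ∀ a < N, sp N w 0 1 a ↔ n + 1 = 3 ^ a := by
    intro a ha
    rw [sp_iff1 hg (Nat.zero_le _) ha, hv]
    exact ⟨fun h => h.2, fun h => ⟨hbig (Or.inr ⟨a, h⟩), h⟩⟩
  show fS w N = enc (nf (n + 1))
  unfold fS
  by_cases h2 : ∃ a, n + 1 = 2 ^ a
  · obtain ⟨a, ha⟩ := h2
    have h3 := hbig (Or.inl ⟨a, ha⟩)
    have h4 : a < 2 ^ a := Nat.lt_two_pow_self
    have haN : a < N := by omega
    rw [cif_pos ⟨a, haN, (e0 a haN).2 ha⟩, emn_eq hg haN (fun b hb => ?_), ha, nf_pow2, enc_cons]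
    · rfl
    · rw [e0 b hb, ha]
      exact ⟨fun h => (Nat.pow_right_injective le_rfl h).symm, fun h => by rw [h]⟩
  · rw [cif_neg (fun ⟨a, h, h'⟩ => h2 ⟨a, (e0 a h).1 h'⟩)]
    by_cases h3 : ∃ a, n + 1 = 3 ^ a
    · obtain ⟨a, ha⟩ := h3
      have h5 := hbig (Or.inr ⟨a, ha⟩)
      have h4 : a < 3 ^ a := Nat.lt_pow_self (by norm_num)
      have haN : a < N := by omega
      rw [cif_pos ⟨a, haN, (e1 a haN).2 ha⟩, emn_eq hg haN (fun b hb => ?_), ha, nf_pow3, enc_cons]
      · rfl
      · rw [pw2_iff, ← ha]
        exact h2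
      · rw [e1 b hb, ha]
        exact ⟨fun h => (Nat.pow_right_injective (by norm_num : 2 ≤ 3) h).symm,
          fun h => by rw [h]⟩
    · rw [cif_neg (fun ⟨a, h, h'⟩ => h3 ⟨a, (e1 a h).1 h'⟩), cpy_eq hg,
        nf_other (v := n + 1) (by omega) (by rw [pw2_iff]; exact h2) (by rw [pw3_iff]; exact h3),
        Nat.add_sub_cancel, enc_cons]
      rfl

end functions

end PT21
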