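import Pool.Agent.PT21.Words
import Pool.Agent.PT21.Defs
import Pool.Agent.PTL.Fix

/-!
# Reading words in strings; the tables
-/

set_option autoImplicit false

namespace PT21

open Pool.Agent.PTL

/-- A bit of a string. -/
def bt (z : List Bool) (p : ℕ) : Bool := z.getD p false

/-- The letter at a position. -/
def ltr (z : List Bool) (p : ℕ) : Option Ltr :=
  if bt z p = true ∧ bt z (p + 2) = true then
    (if bt z (p + 1) = true then (if bt z (p + 3) = true then some .H else some .T)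
      else (if bt z (p + 3) = true then none else some .S))
  else none

theorem bt_lt {z : List Bool} {p : ℕ} (h : bt z p = true) : p < z.length := by
  by_contra hc
  unfold bt at h
  rw [List.getD_eq_default _ _ (by omega)] at h
  exact absurd h (by simp)

theorem ltr_lt {z : List Bool} {p : ℕ} {l : Ltr} (h : ltr z p = some l) : p + 2 < z.length := by
  unfold ltr at h
  split_ifs at h with h1
  · exact bt_lt h1.2
  · exact bt_lt h1.2
  · exact bt_lt h1.2

/-- The word starting at a position. -/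
def W (z : List Bool) (p : ℕ) : List Ltr :=
  match h : ltr z p with
  | some l => l :: W z (p + 4)
  | none => []
termination_by z.length - p
decreasing_by
  have := ltr_lt h
  omega

theorem W_some {z : List Bool} {p : ℕ} {l : Ltr} (h : ltr z p = some l) :
    W z p = l :: W z (p + 4) := by
  rw [W]
  split
  · rename_i l' h'
    rw [h] at h'
    rw [Option.some.inj h']
  · rename_i h'
    rw [h] at h'
    exact absurd h' (by simp)

theorem W_none {z : List Bool} {p : ℕ} (h : ltr z p = none) : W z p = [] := by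
  rw [W]
  split
  · rename_i l' h'
    rw [h] at h'
    exact absurd h' (by simp)
  · rfl

theorem W_length (z : List Bool) (p : ℕ) : (W z p).length ≤ z.length - p := by
  by_cases h : ∃ l, ltr z p = some l
  · obtain ⟨l, h⟩ := h
    have h1 := ltr_lt h
    rw [W_some h, List.length_cons]
    have := W_length z (p + 4)
    omega
  · have : ltr z p = none := by
      cases h' : ltr z p with
      | none => rfl
      | some l => exact absurd ⟨l, h'⟩ h
    rw [W_none this]
    simp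
termination_by z.length - p

/-- The bounds of the table. -/
def bds (N : ℕ) : List ℕ := [8, N, N]

/-- An entry of the table. -/
def lk (N : ℕ) (w : List Bool) (r a b : ℕ) : Prop := w.getD (idx (bds N) [r, a, b]) false = true

/-- A relation of three numbers, as a relation of lists. -/
def app3 (ψ : ℕ → ℕ → ℕ → Prop) : List ℕ → Prop
  | [r, a, b] => ψ r a b
  | _ => False

open Classical in
/-- The table of a relation. -/
noncomputable def mk (N : ℕ) (ψ : ℕ → ℕ → ℕ → Prop) : List Bool :=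
  tbl (bds N) fun l => decide (app3 ψ l)

/-- Length of the table. -/
def len (N : ℕ) : ℕ := (bds N).prod

theorem len_eq (N : ℕ) : len N = 8 * N ^ 2 := by
  simp only [len, bds, List.prod_cons, List.prod_nil]
  ring

theorem len_mono : StrictMono len := by
  intro a b h
  rw [len_eq, len_eq]
  have := Nat.pow_lt_pow_left h (n := 2) (by norm_num)
  omega

theorem isE_len (k : ℕ) (N : (ℕ → ℕ) → ℕ) (hN : IsE k N) : IsE k (fun env => len (N env)) := by
  have : (fun env : ℕ → ℕ => len (N env)) = fun env => 8 * N env ^ 2 := by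
    funext env
    exact len_eq _
  rw [this]
  exact (IsE.const 8).mul (hN.pow 2)

theorem mk_length (N : ℕ) (ψ : ℕ → ℕ → ℕ → Prop) : (mk N ψ).length = len N :=
  tbl_length _ _

theorem lk_mk {N : ℕ} {ψ : ℕ → ℕ → ℕ → Prop} {r a b : ℕ} (hr : r < 8)
    (ha : a < N) (hb : b < N) : lk N (mk N ψ) r a b ↔ ψ r a b := by
  unfold lk mk
  rw [tbl_getD (bds N) [r, a, b] _ ⟨hr, ha, hb, trivial⟩]
  simp [app3]

theorem isP_mk {k : ℕ} {N : (ℕ → ℕ) → ℕ} (hN : IsE k N)
    {ψ : ℕ → List Bool → ℕ → ℕ → ℕ → Prop}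
    (hψ : ∀ k (N r a b : (ℕ → ℕ) → ℕ), IsE k N → IsE k r → IsE k a → IsE k b →
      IsT k (fun w env => ψ (N env) w (r env) (a env) (b env))) :
    IsP k (fun w env => mk (N env) (ψ (N env) w)) := by
  refine IsP.tbl [fun _ => 8, N, N] k (by simp [hN, IsE.const])
    (φ := fun w env l => app3 (ψ (N env) w) l) fun k' hk ys hys hy => ?_
  match ys, hys with
  | [y1, y2, y3], _ =>
    exact hψ k' N y1 y2 y3 (hN.mono hk) (hy _ (by simp)) (hy _ (by simp)) (hy _ (by simp))

theorem exists_step {ln : ℕ → ℕ} (hln : ∀ k N, IsE k N → IsE k (fun env => ln (N env)))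
    (hmono : StrictMono ln)
    {ψ : ℕ → List Bool → ℕ → ℕ → ℕ → Prop}
    (hψ : ∀ k (N r a b : (ℕ → ℕ) → ℕ), IsE k N → IsE k r → IsE k a → IsE k b →
      IsT k (fun w env => ψ (N env) w (r env) (a env) (b env))) :
    ∃ F, PTC F ∧ (∀ w N, w.length = ln N → F w = mk N (ψ N w)) ∧
      ∀ w, (∀ N, w.length ≠ ln N) → F w = [] :=
  PTC.ofLen hln hmono (F := fun w N => mk N (ψ N w)) fun _ _ hN => isP_mk hN hψ

/-- An increasing step with its fixed point. -/
theorem exists_fix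
    {ψ : ℕ → List Bool → ℕ → ℕ → ℕ → Prop}
    (hψ : ∀ k (N r a b : (ℕ → ℕ) → ℕ), IsE k N → IsE k r → IsE k a → IsE k b →
      IsT k (fun w env => ψ (N env) w (r env) (a env) (b env)))
    (hinc : ∀ N w r a b, lk N w r a b → ψ N w r a b) :
    ∃ H, PTC H ∧ ∀ N ψ₀, ∃ (n : ℕ) (x : ℕ → List Bool), x 0 = mk N ψ₀ ∧
      (∀ i, x (i + 1) = mk N (ψ N (x i))) ∧ H (mk N ψ₀) = x n ∧ x (n + 1) = x n := by
  classical
  obtain ⟨F, hF, hF1, hF2⟩ := exists_step isE_len len_mono hψ
  have hlen : ∀ w, (F w).length ≤ w.length := by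
    intro w
    by_cases h : ∃ N, w.length = len N
    · obtain ⟨N, hN⟩ := h
      rw [hF1 w N hN, mk_length, hN]
    · push Not at h
      rw [hF2 w h]
      simp
  refine ⟨_, PTC.iter hF hlen hF, fun N ψ₀ => ?_⟩
  set x : ℕ → List Bool := fun i => F^[i] (mk N ψ₀) with hxdef
  have hx0 : x 0 = mk N ψ₀ := rfl
  have hxs : ∀ i, x (i + 1) = F (x i) := fun i => Function.iterate_succ_apply' F i _
  have hxl : ∀ i, (x i).length = len N := by
    intro i
    induction i with
    | zero => exact mk_length _ _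
    | succ i ih => rw [hxs, hF1 _ N ih, mk_length]
  have hx1 : ∀ i, x (i + 1) = mk N (ψ N (x i)) := fun i => by rw [hxs, hF1 _ N (hxl i)]
  have hform : ∀ i, ∃ f : List ℕ → Bool, x i = tbl (bds N) f := by
    intro i
    cases i with
    | zero => exact ⟨_, hx0⟩
    | succ i => exact ⟨_, hx1 i⟩
  have hup : ∀ i, Up (x i) (x (i + 1)) := by
    intro i
    obtain ⟨f, hf⟩ := hform i
    rw [hx1 i]
    have : x i = tbl (bds N) f := hf
    rw [this]
    apply up_tbl
    intro l hl hfl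
    match l, hl with
    | [r, a, b], hl =>
      simp only [app3, decide_eq_true_eq]
      apply hinc
      unfold lk
      rw [tbl_getD _ _ _ hl]
      exact hfl
  have hfix := fixed_of_up hxs hup hxl
  have hF0 : (F (mk N ψ₀)).length = len N := by
    have := hxl 1
    rwa [hxs, hx0] at this
  refine ⟨len N, x, hx0, hx1, ?_, ?_⟩
  · show F^[(F (mk N ψ₀)).length] (mk N ψ₀) = x (len N)
    rw [hF0]
  · rw [hxs, hfix]

/-- A bit of the input. -/
def rb (N : ℕ) (w : List Bool) (p : ℕ) : Prop := lk N w 6 p 0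

/-- Letters of the input. -/
def rS (N : ℕ) (w : List Bool) (p : ℕ) : Prop :=
  rb N w p ∧ rb N w (p + 2) ∧ ¬ rb N w (p + 1) ∧ ¬ rb N w (p + 3)

/-- Letters of the input. -/
def rT (N : ℕ) (w : List Bool) (p : ℕ) : Prop :=
  rb N w p ∧ rb N w (p + 2) ∧ rb N w (p + 1) ∧ ¬ rb N w (p + 3)

/-- Letters of the input. -/
def rH (N : ℕ) (w : List Bool) (p : ℕ) : Prop :=
  rb N w p ∧ rb N w (p + 2) ∧ rb N w (p + 1) ∧ rb N w (p + 3)

/-- Power of two. -/
def pw2 (v : ℕ) : Prop :=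
  v ≠ 0 ∧ ∀ d < v + 1, ∀ e < v + 1, d * e = v → d = 1 ∨ ∃ f < v + 1, d = 2 * f

/-- Power of three. -/
def pw3 (v : ℕ) : Prop :=
  v ≠ 0 ∧ ∀ d < v + 1, ∀ e < v + 1, d * e = v → d = 1 ∨ ∃ f < v + 1, d = 3 * f

theorem pw2_iff (v : ℕ) : pw2 v ↔ ∃ k, v = 2 ^ k := by
  constructor
  · rintro ⟨h0, h⟩
    obtain ⟨k, m, hm, rfl⟩ := Nat.exists_eq_pow_mul_and_not_dvd h0 2 (by norm_num)
    refine ⟨k, ?_⟩
    have hk : 0 < 2 ^ k := by positivity
    have hm0 : 0 < m := by
      rcases Nat.eq_zero_or_pos m with h' | h'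
      · subst h'
        simp at h0
      · exact h'
    have h1 : m ≤ 2 ^ k * m := Nat.le_mul_of_pos_left _ hk
    have h2 : 2 ^ k ≤ 2 ^ k * m := Nat.le_mul_of_pos_right _ hm0
    rcases h m (by omega) (2 ^ k) (by omega) (Nat.mul_comm _ _) with h3 | ⟨f, _, hf⟩
    · rw [h3, mul_one]
    · exact absurd ⟨f, hf⟩ hm
  · rintro ⟨k, rfl⟩
    refine ⟨by positivity, fun d _ e _ hde => ?_⟩
    obtain ⟨j, _, hj⟩ := (Nat.dvd_prime_pow Nat.prime_two).1 ⟨e, hde.symm⟩
    cases j with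
    | zero => left; simpa using hj
    | succ j =>
      right
      refine ⟨2 ^ j, ?_, by rw [hj, pow_succ]; ring⟩
      have : 2 ^ j ≤ 2 ^ k := Nat.pow_le_pow_right (by norm_num) (by omega)
      omega

theorem pw3_iff (v : ℕ) : pw3 v ↔ ∃ k, v = 3 ^ k := by
  constructor
  · rintro ⟨h0, h⟩
    obtain ⟨k, m, hm, rfl⟩ := Nat.exists_eq_pow_mul_and_not_dvd h0 3 (by norm_num)
    refine ⟨k, ?_⟩
    have hk : 0 < 3 ^ k := by positivity
    have hm0 : 0 < m := by
      rcases Nat.eq_zero_or_pos m with h' | h'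
      · subst h'
        simp at h0
      · exact h'
    have h1 : m ≤ 3 ^ k * m := Nat.le_mul_of_pos_left _ hk
    have h2 : 3 ^ k ≤ 3 ^ k * m := Nat.le_mul_of_pos_right _ hm0
    rcases h m (by omega) (3 ^ k) (by omega) (Nat.mul_comm _ _) with h3 | ⟨f, _, hf⟩
    · rw [h3, mul_one]
    · exact absurd ⟨f, hf⟩ hm
  · rintro ⟨k, rfl⟩
    refine ⟨by positivity, fun d _ e _ hde => ?_⟩
    obtain ⟨j, _, hj⟩ := (Nat.dvd_prime_pow Nat.prime_three).1 ⟨e, hde.symm⟩
    cases j with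
    | zero => left; simpa using hj
    | succ j =>
      right
      refine ⟨3 ^ j, ?_, by rw [hj, pow_succ]; ring⟩
      have : 3 ^ j ≤ 3 ^ k := Nat.pow_le_pow_right (by norm_num) (by omega)
      omega

/-- Rule for the value of a word. -/
def ruleV (N : ℕ) (w : List Bool) (p v : ℕ) : Prop :=
  ((¬ rS N w p ∧ ¬ rT N w p ∧ ¬ rH N w p) ∧ v = 0) ∨
  (rS N w p ∧ ∃ v' < N, v = v' + 1 ∧ lk N w 2 (p + 4) v') ∨
  (rT N w p ∧ ∃ v' < N, lk N w 2 (p + 4) v' ∧ lk N w 0 v' v) ∨
  (rH N w p ∧ ∃ v' < N, lk N w 2 (p + 4) v' ∧ lk N w 1 v' v)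

/-- Rule for the letters of the canonical word, first letter. -/
def rule0 (r v : ℕ) : Prop :=
  v ≠ 0 ∧ ((r = 4 ∧ pw2 v) ∨ (r = 5 ∧ ¬ pw2 v ∧ pw3 v) ∨ (r = 3 ∧ ¬ pw2 v ∧ ¬ pw3 v))

/-- Rule for the letters of the canonical word, next letters. -/
def rule1 (N : ℕ) (w : List Bool) (r v i : ℕ) : Prop :=
  (∃ k < N, lk N w 0 k v ∧ lk N w r k i) ∨
  (¬ pw2 v ∧ ∃ k < N, lk N w 1 k v ∧ lk N w r k i) ∨
  (v ≠ 0 ∧ ¬ pw2 v ∧ ¬ pw3 v ∧ lk N w r (v - 1) i)

/-- The step. -/
def step (N : ℕ) (w : List Bool) (r a b : ℕ) : Prop :=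
  lk N w r a b ∨
  (r = 0 ∧ ((a = 0 ∧ b = 1) ∨ ∃ a' < N, ∃ b' < N, a = a' + 1 ∧ b = 2 * b' ∧ lk N w 0 a' b')) ∨
  (r = 1 ∧ ((a = 0 ∧ b = 1) ∨ ∃ a' < N, ∃ b' < N, a = a' + 1 ∧ b = 3 * b' ∧ lk N w 1 a' b')) ∨
  (r = 2 ∧ ruleV N w a b) ∨
  ((r = 3 ∨ r = 4 ∨ r = 5) ∧ ((b = 0 ∧ rule0 r a) ∨ ∃ b' < N, b = b' + 1 ∧ rule1 N w r a b'))

/-- The initial table. -/
def init (z : List Bool) (r a b : ℕ) : Prop := r = 6 ∧ b = 0 ∧ bt z a = true

section tests

variable {k : ℕ} {N r a b p v i : (ℕ → ℕ) → ℕ}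

theorem isT_lk (hN : IsE k N) (hr : IsE k r) (ha : IsE k a) (hb : IsE k b) :
    IsT k (fun w env => lk (N env) w (r env) (a env) (b env)) := by
  refine (IsT.bit (f := fun env => r env * (N env * (N env * 1)) +
    (a env * (N env * 1) + (b env * 1 + 0))) ?_).congr
    fun w env => by simp [lk, idx, bds]
  repeat' first
    | exact IsE.const _
    | assumption
    | apply IsE.add
    | apply IsE.mul

theorem isT_rb (hN : IsE k N) (hp : IsE k p) : IsT k (fun w env => rb (N env) w (p env)) :=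
  isT_lk hN (IsE.const 6) hp (IsE.const 0)

theorem isT_rS (hN : IsE k N) (hp : IsE k p) : IsT k (fun w env => rS (N env) w (p env)) :=
  (isT_rb hN hp).and ((isT_rb hN (hp.add (IsE.const 2))).and
    ((isT_rb hN (hp.add (IsE.const 1))).not.and (isT_rb hN (hp.add (IsE.const 3))).not))

theorem isT_rT (hN : IsE k N) (hp : IsE k p) : IsT k (fun w env => rT (N env) w (p env)) :=
  (isT_rb hN hp).and ((isT_rb hN (hp.add (IsE.const 2))).and
    ((isT_rb hN (hp.add (IsE.const 1))).and (isT_rb hN (hp.add (IsE.const 3))).not))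

theorem isT_rH (hN : IsE k N) (hp : IsE k p) : IsT k (fun w env => rH (N env) w (p env)) :=
  (isT_rb hN hp).and ((isT_rb hN (hp.add (IsE.const 2))).and
    ((isT_rb hN (hp.add (IsE.const 1))).and (isT_rb hN (hp.add (IsE.const 3)))))

theorem isT_pw2 (hv : IsE k v) : IsT k (fun _ env => pw2 (v env)) := by
  refine (IsT.ne hv (IsE.const 0)).and (IsT.all (hv.add (IsE.const 1)) fun k₁ h₁ d hd =>
    IsT.all ((hv.mono h₁).add (IsE.const 1)) fun k₂ h₂ e he => ?_)
  have hv := hv.mono (h₁.trans h₂)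
  have hd := hd.mono h₂
  exact (IsT.eq (hd.mul he) hv).imp ((IsT.eq hd (IsE.const 1)).or
    (IsT.ex (hv.add (IsE.const 1)) fun k₃ h₃ f hf => IsT.eq (hd.mono h₃)
      ((IsE.const 2).mul hf)))

theorem isT_pw3 (hv : IsE k v) : IsT k (fun _ env => pw3 (v env)) := by
  refine (IsT.ne hv (IsE.const 0)).and (IsT.all (hv.add (IsE.const 1)) fun k₁ h₁ d hd =>
    IsT.all ((hv.mono h₁).add (IsE.const 1)) fun k₂ h₂ e he => ?_)
  have hv := hv.mono (h₁.trans h₂)
  have hd := hd.mono h₂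
  exact (IsT.eq (hd.mul he) hv).imp ((IsT.eq hd (IsE.const 1)).or
    (IsT.ex (hv.add (IsE.const 1)) fun k₃ h₃ f hf => IsT.eq (hd.mono h₃)
      ((IsE.const 3).mul hf)))

theorem isT_ruleV (hN : IsE k N) (hp : IsE k p) (hv : IsE k v) :
    IsT k (fun w env => ruleV (N env) w (p env) (v env)) := by
  refine (((isT_rS hN hp).not.and ((isT_rT hN hp).not.and (isT_rH hN hp).not)).and
    (IsT.eq hv (IsE.const 0))).or (((isT_rS hN hp).and (IsT.ex hN fun k' h y hy => ?_)).or
    (((isT_rT hN hp).and (IsT.ex hN fun k' h y hy => ?_)).or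
    ((isT_rH hN hp).and (IsT.ex hN fun k' h y hy => ?_))))
  · exact (IsT.eq (hv.mono h) (hy.add (IsE.const 1))).and
      (isT_lk (hN.mono h) (IsE.const 2) ((hp.mono h).add (IsE.const 4)) hy)
  · exact (isT_lk (hN.mono h) (IsE.const 2) ((hp.mono h).add (IsE.const 4)) hy).and
      (isT_lk (hN.mono h) (IsE.const 0) hy (hv.mono h))
  · exact (isT_lk (hN.mono h) (IsE.const 2) ((hp.mono h).add (IsE.const 4)) hy).and
      (isT_lk (hN.mono h) (IsE.const 1) hy (hv.mono h))

theorem isT_rule0 (hr : IsE k r) (hv : IsE k v) :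
    IsT k (fun _ env => rule0 (r env) (v env)) :=
  (IsT.ne hv (IsE.const 0)).and (((IsT.eq hr (IsE.const 4)).and (isT_pw2 hv)).or
    (((IsT.eq hr (IsE.const 5)).and ((isT_pw2 hv).not.and (isT_pw3 hv))).or
      ((IsT.eq hr (IsE.const 3)).and ((isT_pw2 hv).not.and (isT_pw3 hv).not))))

theorem isT_rule1 (hN : IsE k N) (hr : IsE k r) (hv : IsE k v) (hi : IsE k i) :
    IsT k (fun w env => rule1 (N env) w (r env) (v env) (i env)) := by
  refine (IsT.ex hN fun k' h y hy => ?_).or (((isT_pw2 hv).not.and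
    (IsT.ex hN fun k' h y hy => ?_)).or ((IsT.ne hv (IsE.const 0)).and ((isT_pw2 hv).not.and
      ((isT_pw3 hv).not.and (isT_lk hN hr hv.pred hi)))))
  · exact (isT_lk (hN.mono h) (IsE.const 0) hy (hv.mono h)).and
      (isT_lk (hN.mono h) (hr.mono h) hy (hi.mono h))
  · exact (isT_lk (hN.mono h) (IsE.const 1) hy (hv.mono h)).and
      (isT_lk (hN.mono h) (hr.mono h) hy (hi.mono h))

theorem isT_step (hN : IsE k N) (hr : IsE k r) (ha : IsE k a) (hb : IsE k b) :
    IsT k (fun w env => step (N env) w (r env) (a env) (b env)) := by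
  have h01 : ∀ (c t : ℕ), IsT k (fun w env => (a env = 0 ∧ b env = 1) ∨
      ∃ a' < N env, ∃ b' < N env, a env = a' + 1 ∧ b env = c * b' ∧ lk (N env) w t a' b') := by
    intro c t
    refine ((IsT.eq ha (IsE.const 0)).and (IsT.eq hb (IsE.const 1))).or
      (IsT.ex hN fun k₁ h₁ x hx => IsT.ex (hN.mono h₁) fun k₂ h₂ y hy => ?_)
    have hx := hx.mono h₂
    exact (IsT.eq (ha.mono (h₁.trans h₂)) (hx.add (IsE.const 1))).and
      ((IsT.eq (hb.mono (h₁.trans h₂)) ((IsE.const c).mul hy)).and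
        (isT_lk (hN.mono (h₁.trans h₂)) (IsE.const t) hx hy))
  refine (isT_lk hN hr ha hb).or (((IsT.eq hr (IsE.const 0)).and (h01 2 0)).or
    (((IsT.eq hr (IsE.const 1)).and (h01 3 1)).or (((IsT.eq hr (IsE.const 2)).and
      (isT_ruleV hN ha hb)).or (((IsT.eq hr (IsE.const 3)).or ((IsT.eq hr (IsE.const 4)).or
        (IsT.eq hr (IsE.const 5)))).and (((IsT.eq hb (IsE.const 0)).and (isT_rule0 hr ha)).or
          (IsT.ex hN fun k' h y hy => ?_))))))
  exact (IsT.eq (hb.mono h) (hy.add (IsE.const 1))).and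
    (isT_rule1 (hN.mono h) (hr.mono h) (ha.mono h) hy)

theorem isT_init (hr : IsE k r) (ha : IsE k a) (hb : IsE k b) :
    IsT k (fun z env => init z (r env) (a env) (b env)) :=
  (IsT.eq hr (IsE.const 6)).and ((IsT.eq hb (IsE.const 0)).and (IsT.bit ha))

end tests

end PT21
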