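import Pool.Agent.Subspace.Param

/-!
# Vanishing sums of numbers `c * 2 ^ a * 3 ^ b` with small coefficients
-/

set_option autoImplicit false

namespace PT21

open Filter Topology

theorem sum_sub {ι M : Type} [Fintype ι] [AddCommMonoid M] (P : ι → Prop) [DecidablePred P]
    (f : ι → M) (hf : ∀ j, ¬ P j → f j = 0) : ∑ j, f j = ∑ k : {j // P j}, f k.1 := by
  rw [← Finset.sum_subtype (Finset.univ.filter P) (by simp) f]
  symm
  apply Finset.sum_subset (Finset.subset_univ _)
  intro j _ hj
  apply hf
  intro h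
  exact hj (Finset.mem_filter.2 ⟨Finset.mem_univ _, h⟩)

/-- The subspace theorem for coordinates in a finite type, the places `2` and `3`, and one
linear form which is not a coordinate. -/
theorem tool {κ : Type} [Fintype κ] [DecidableEq κ] (𝓤 : Ultrafilter ℕ) (T : ℕ → ℝ)
    (hT : Tendsto T 𝓤 atTop) (i₁ : κ) (v : κ → ℚ) (hv : v i₁ ≠ 0)
    (a₂ a₃ : κ → ℝ) (h₂ : ∀ i, 0 ≤ a₂ i) (h₃ : ∀ i, 0 ≤ a₃ i) (c : κ → ℝ)
    (x : ℕ → κ → ℤ)
    (hgen : ∀ l : κ → ℚ, l ≠ 0 → ∀ᶠ n in (𝓤 : Filter ℕ), ∑ i, l i * (x n i : ℚ) ≠ 0)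
    (hx : ∀ᶠ n in (𝓤 : Filter ℕ), ∀ i, i ≠ i₁ → |(x n i : ℝ)| ≤ Real.exp (c i * T n))
    (hx₁ : ∀ᶠ n in (𝓤 : Filter ℕ), |∑ j, (v j : ℝ) * x n j| ≤ Real.exp (c i₁ * T n))
    (hd₂ : ∀ᶠ n in (𝓤 : Filter ℕ), ∀ i, (2 : ℤ) ^ SST.kexp 2 (a₂ i) (T n) ∣ x n i)
    (hd₃ : ∀ᶠ n in (𝓤 : Filter ℕ), ∀ i, (3 : ℤ) ^ SST.kexp 3 (a₃ i) (T n) ∣ x n i) :
    ∑ i, (a₂ i + a₃ i) ≤ ∑ i, c i := by
  classical
  set d := Fintype.card κ with hd
  let e : κ ≃ Fin d := Fintype.equivFin κ
  have hd1 : 1 ≤ d := Fintype.card_pos_iff.2 ⟨i₁⟩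
  let M : Matrix κ κ ℚ := (1 : Matrix κ κ ℚ).updateRow i₁ v
  have hM : M.det = v i₁ := by
    rw [← Matrix.cramer_transpose_apply, Matrix.transpose_one, Matrix.cramer_one]
    rfl
  have key := SST.param_subspace 𝓤 T hT hd1 (V := Bool) (M.submatrix e.symm e.symm)
    (by rw [Matrix.det_submatrix_equiv_self, hM]; exact hv)
    (fun v => if v then 2 else 3) (by decide) (by
      intro v w hvw
      cases v <;> cases w
      · exact absurd rfl hvw
      · show Nat.Coprime 3 2
        norm_num
      · show Nat.Coprime 2 3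
        norm_num
      · exact absurd rfl hvw)
    (fun v i => if v then a₂ (e.symm i) else a₃ (e.symm i))
    (by
      intro v i
      cases v
      · exact h₃ _
      · exact h₂ _)
    (fun i => c (e.symm i)) (fun n i => x n (e.symm i))
    (by
      intro l hl
      have h1 := hgen (fun j => l (e j)) (by
        intro h
        apply hl
        funext i
        have := congrFun h (e.symm i)
        simpa using this)
      filter_upwards [h1] with n hn
      rw [← e.symm.sum_comp] at hn
      simpa using hn)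
    (by
      filter_upwards [hx, hx₁] with n h1 h2 i
      have hs : (∑ j, ((M.submatrix e.symm e.symm) i j : ℝ) * (x n (e.symm j) : ℝ)) =
          ∑ j, ((M (e.symm i) j : ℚ) : ℝ) * (x n j : ℝ) := by
        rw [← e.symm.sum_comp]
        rfl
      rw [hs]
      by_cases hi : e.symm i = i₁
      · rw [hi]
        have : ∀ j, M i₁ j = v j := fun j => by simp [M]
        simp only [this]
        exact h2
      · have : ∀ j, M (e.symm i) j = (1 : Matrix κ κ ℚ) (e.symm i) j := fun j => by
          simp [M, Matrix.updateRow_ne hi]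
        simp only [this, Matrix.one_apply]
        have h3 := h1 _ hi
        have h4 : ∑ j, ((if e.symm i = j then (1 : ℚ) else 0 : ℚ) : ℝ) * (x n j : ℝ) =
            x n (e.symm i) := by
          rw [Finset.sum_eq_single (e.symm i)]
          · simp
          · intro j _ hj
            simp [Ne.symm hj]
          · intro h
            exact absurd (Finset.mem_univ _) h
        rw [h4]
        exact h3)
    (by
      filter_upwards [hd₂, hd₃] with n h1 h2 v i
      cases v
      · simpa using h2 (e.symm i)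
      · simpa using h1 (e.symm i))
  have e1 : ∑ v : Bool, ∑ i : Fin d, (if v then a₂ (e.symm i) else a₃ (e.symm i)) =
      ∑ i, (a₂ i + a₃ i) := by
    rw [Fintype.sum_bool, Finset.sum_add_distrib]
    simp only [if_true, Bool.false_eq_true, if_false]
    rw [e.symm.sum_comp (fun i => a₂ i), e.symm.sum_comp (fun i => a₃ i)]
  rw [e1, e.symm.sum_comp (fun i => c i)] at key
  exact key

/-- Data of a sequence of numbers `c * 2 ^ a * 3 ^ b`, with the limits of the exponents. -/
structure Dat (ι : Type) (𝓤 : Ultrafilter ℕ) where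
  /-- scale -/
  T : ℕ → ℝ
  hT : Tendsto T 𝓤 atTop
  /-- coefficients -/
  c : ℕ → ι → ℤ
  hc : ∀ n j, c n j ≠ 0
  /-- exponents of two -/
  a : ℕ → ι → ℕ
  /-- exponents of three -/
  b : ℕ → ι → ℕ
  /-- limits -/
  A : ι → ℝ
  B : ι → ℝ
  hA : ∀ j, Tendsto (fun n => (a n j : ℝ) * Real.log 2 / T n) 𝓤 (𝓝 (A j))
  hB : ∀ j, Tendsto (fun n => (b n j : ℝ) * Real.log 3 / T n) 𝓤 (𝓝 (B j))
  hC : ∀ j, Tendsto (fun n => Real.log |(c n j : ℝ)| / T n) 𝓤 (𝓝 0)

namespace Dat

variable {ι : Type} {𝓤 : Ultrafilter ℕ} (D : Dat ι 𝓤)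

/-- The numbers. -/
def x (n : ℕ) (j : ι) : ℤ := D.c n j * 2 ^ D.a n j * 3 ^ D.b n j

theorem x_ne (n : ℕ) (j : ι) : D.x n j ≠ 0 := by
  have := D.hc n j
  unfold x
  positivity

theorem T_pos : ∀ᶠ n in (𝓤 : Filter ℕ), 0 < D.T n := D.hT.eventually_gt_atTop 0

theorem log_x (n : ℕ) (j : ι) : Real.log |(D.x n j : ℝ)| =
    Real.log |(D.c n j : ℝ)| + D.a n j * Real.log 2 + D.b n j * Real.log 3 := by
  have h1 : (|(D.c n j : ℝ)|) ≠ 0 := abs_ne_zero.2 (by exact_mod_cast D.hc n j)
  unfold x
  push_cast
  rw [abs_mul, abs_mul, abs_pow, abs_pow, Real.log_mul (by positivity) (by positivity),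
    Real.log_mul h1 (by positivity), Real.log_pow, Real.log_pow]
  norm_num

theorem A_nonneg (j : ι) : 0 ≤ D.A j := by
  refine ge_of_tendsto (D.hA j) ?_
  filter_upwards [D.T_pos] with n hn
  have : 0 < Real.log 2 := Real.log_pos (by norm_num)
  positivity

theorem B_nonneg (j : ι) : 0 ≤ D.B j := by
  refine ge_of_tendsto (D.hB j) ?_
  filter_upwards [D.T_pos] with n hn
  have : 0 < Real.log 3 := Real.log_pos (by norm_num)
  positivity

theorem size [Finite ι] {ε : ℝ} (hε : 0 < ε) : ∀ᶠ n in (𝓤 : Filter ℕ), ∀ j,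
    |(D.x n j : ℝ)| ≤ Real.exp ((D.A j + D.B j + ε) * D.T n) := by
  rw [eventually_all]
  intro j
  have h := ((D.hC j).add (D.hA j)).add (D.hB j)
  rw [zero_add] at h
  filter_upwards [h.eventually_le_const (show D.A j + D.B j < D.A j + D.B j + ε by linarith),
    D.T_pos] with n hn hT
  have hx : 0 < |(D.x n j : ℝ)| := abs_pos.2 (by exact_mod_cast D.x_ne n j)
  rw [← Real.log_le_iff_le_exp hx, D.log_x]
  rw [← add_div, ← add_div, div_le_iff₀ hT] at hn
  exact hn

theorem kexp_le {p : ℕ} (hp : 2 ≤ p) {u T : ℝ} {k : ℕ} (h : u * T ≤ k * Real.log p) :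
    SST.kexp p u T ≤ k := by
  unfold SST.kexp
  apply Nat.floor_le_of_le
  have : 0 < Real.log p := Real.log_pos (by exact_mod_cast hp)
  rw [div_le_iff₀ this]
  exact h

theorem div2 [Finite ι] {ε : ℝ} (hε : 0 < ε) : ∀ᶠ n in (𝓤 : Filter ℕ), ∀ j, ∀ u : ℝ,
    u ≤ max (D.A j - ε) 0 → (2 : ℤ) ^ SST.kexp 2 u (D.T n) ∣ D.x n j := by
  rw [eventually_all]
  intro j
  filter_upwards [(D.hA j).eventually_const_le (show D.A j - ε < D.A j by linarith),
    D.T_pos] with n hn hT u hu
  have hk : SST.kexp 2 u (D.T n) ≤ D.a n j := by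
    apply kexp_le (by norm_num)
    rw [le_div_iff₀ hT] at hn
    have h0 : 0 ≤ (D.a n j : ℝ) * Real.log 2 := by
      have : 0 < Real.log 2 := Real.log_pos (by norm_num)
      positivity
    push_cast
    refine (mul_le_mul_of_nonneg_right hu hT.le).trans ?_
    rcases le_total (D.A j - ε) 0 with h | h
    · rw [max_eq_right h]
      linarith
    · rw [max_eq_left h]
      exact hn
  unfold x
  exact Dvd.dvd.mul_right (Dvd.dvd.mul_left (pow_dvd_pow 2 hk) _) _

theorem div3 [Finite ι] {ε : ℝ} (hε : 0 < ε) : ∀ᶠ n in (𝓤 : Filter ℕ), ∀ j, ∀ u : ℝ,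
    u ≤ max (D.B j - ε) 0 → (3 : ℤ) ^ SST.kexp 3 u (D.T n) ∣ D.x n j := by
  rw [eventually_all]
  intro j
  filter_upwards [(D.hB j).eventually_const_le (show D.B j - ε < D.B j by linarith),
    D.T_pos] with n hn hT u hu
  have hk : SST.kexp 3 u (D.T n) ≤ D.b n j := by
    apply kexp_le (by norm_num)
    rw [le_div_iff₀ hT] at hn
    have h0 : 0 ≤ (D.b n j : ℝ) * Real.log 3 := by
      have : 0 < Real.log 3 := Real.log_pos (by norm_num)
      positivity
    push_cast
    refine (mul_le_mul_of_nonneg_right hu hT.le).trans ?_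
    rcases le_total (D.B j - ε) 0 with h | h
    · rw [max_eq_right h]
      linarith
    · rw [max_eq_left h]
      exact hn
  unfold x
  exact Dvd.dvd.mul_left (pow_dvd_pow 3 hk) _

/-- Linear relations that hold eventually. -/
def Rel [Fintype ι] (l : ι → ℚ) : Prop := ∀ᶠ n in (𝓤 : Filter ℕ), ∑ j, l j * (D.x n j : ℚ) = 0

theorem Rel.add [Fintype ι] {l l' : ι → ℚ} (h : D.Rel l) (h' : D.Rel l') : D.Rel (l + l') := by
  unfold Rel at *
  filter_upwards [h, h'] with n h1 h2
  simp only [Pi.add_apply, add_mul, Finset.sum_add_distrib, h1, h2, add_zero]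

theorem Rel.smul [Fintype ι] {l : ι → ℚ} (q : ℚ) (h : D.Rel l) : D.Rel (q • l) := by
  unfold Rel at *
  filter_upwards [h] with n h1
  simp only [Pi.smul_apply, smul_eq_mul, mul_assoc, ← Finset.mul_sum, h1, mul_zero]

/-- A relation of minimal support. -/
structure Circuit [Fintype ι] (l : ι → ℚ) : Prop where
  rel : D.Rel l
  min : ∀ l' : ι → ℚ, D.Rel l' → (∀ j, l j = 0 → l' j = 0) → (∃ j, l j ≠ 0 ∧ l' j = 0) → l' = 0

theorem le_of_forall_eps {x y K : ℝ} (h : ∀ ε : ℝ, 0 < ε → x ≤ y + K * ε) : x ≤ y := by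
  by_contra hcon
  push Not at hcon
  have hK : 0 < |K| + 1 := by positivity
  have h1 := h ((x - y) / (2 * (|K| + 1))) (by
    apply div_pos (by linarith) (by positivity))
  have h2 : K * ((x - y) / (2 * (|K| + 1))) ≤ (|K| + 1) * ((x - y) / (2 * (|K| + 1))) := by
    apply mul_le_mul_of_nonneg_right _ (div_nonneg (by linarith) (by positivity))
    have := le_abs_self K
    linarith
  have h3 : (|K| + 1) * ((x - y) / (2 * (|K| + 1))) = (x - y) / 2 := by
    field_simp
  linarith

theorem circuit_sum [Fintype ι] [DecidableEq ι] {l : ι → ℚ} (h : D.Circuit l) {i₁ j₀ : ι}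
    (h1 : l i₁ ≠ 0) (h0 : l j₀ ≠ 0) (hne : i₁ ≠ j₀) :
    D.A i₁ + D.B i₁ ≤ D.A j₀ + D.B j₀ := by
  classical
  let κ := {j : ι // l j ≠ 0 ∧ j ≠ j₀}
  let k₁ : κ := ⟨i₁, h1, hne⟩
  apply le_of_forall_eps (K := 3 * Fintype.card κ)
  intro ε hε
  have hsumrel : ∀ n, ∑ j, l j * (D.x n j : ℚ) = 0 →
      ∑ k : κ, (-(l k.1) / l j₀) * (D.x n k.1 : ℚ) = D.x n j₀ := by
    intro n hn
    have e1 : ∑ j, l j * (D.x n j : ℚ) = l j₀ * D.x n j₀ + ∑ k : κ, l k.1 * (D.x n k.1 : ℚ) := by
      have e2 := sum_sub (fun j => l j ≠ 0 ∧ j ≠ j₀)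
        (fun j => if j = j₀ then 0 else l j * (D.x n j : ℚ)) (by
          intro j hj
          by_cases h3 : j = j₀
          · simp [h3]
          · have : l j = 0 := by
              by_contra hc
              exact hj ⟨hc, h3⟩
            simp [this])
      have e3 : ∑ k : κ, l k.1 * (D.x n k.1 : ℚ) =
          ∑ k : κ, (if k.1 = j₀ then 0 else l k.1 * (D.x n k.1 : ℚ)) := by
        apply Finset.sum_congr rfl
        intro k _
        rw [if_neg k.2.2]
      rw [e3, ← e2, ← Finset.add_sum_erase _ _ (Finset.mem_univ j₀)]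
      congr 1
      rw [← Finset.add_sum_erase Finset.univ (fun j => if j = j₀ then 0 else l j * (D.x n j : ℚ))
        (Finset.mem_univ j₀), if_pos rfl, zero_add]
      apply Finset.sum_congr rfl
      intro j hj
      rw [if_neg (Finset.ne_of_mem_erase hj)]
    rw [e1] at hn
    have e3 : ∑ k : κ, (-(l k.1) / l j₀) * (D.x n k.1 : ℚ) =
        (-(∑ k : κ, l k.1 * (D.x n k.1 : ℚ))) / l j₀ := by
      rw [← Finset.sum_neg_distrib, Finset.sum_div]
      apply Finset.sum_congr rfl
      intro k _
      ring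
    rw [e3]
    field_simp
    linarith
  have key := tool 𝓤 D.T D.hT k₁ (fun k => -(l k.1) / l j₀)
    (by
      apply div_ne_zero (neg_ne_zero.2 h1) h0)
    (fun k => max (D.A k.1 - ε) 0) (fun k => max (D.B k.1 - ε) 0)
    (fun _ => le_max_right _ _) (fun _ => le_max_right _ _)
    (fun k => if k = k₁ then D.A j₀ + D.B j₀ + ε else D.A k.1 + D.B k.1 + ε)
    (fun n k => D.x n k.1)
    (by
      intro μ hμ
      let l' : ι → ℚ := fun j => if hj : l j ≠ 0 ∧ j ≠ j₀ then μ ⟨j, hj⟩ else 0
      have hl' : ¬ D.Rel l' := by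
        intro hr
        have := h.min l' hr (by
          intro j hj
          simp [l', hj]) ⟨j₀, h0, by simp [l']⟩
        apply hμ
        funext k
        have h2 := congrFun this k.1
        simpa [l', k.2] using h2
      unfold Rel at hl'
      rw [← Ultrafilter.eventually_not] at hl'
      filter_upwards [hl'] with n hn
      have e2 : ∑ j, l' j * (D.x n j : ℚ) = ∑ k : κ, μ k * (D.x n k.1 : ℚ) := by
        have e3 : ∑ k : κ, μ k * (D.x n k.1 : ℚ) = ∑ k : κ, l' k.1 * (D.x n k.1 : ℚ) := by
          apply Finset.sum_congr rfl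
          intro k _
          simp [l', k.2]
        rw [e3]
        exact sum_sub (fun j => l j ≠ 0 ∧ j ≠ j₀) (fun j => l' j * (D.x n j : ℚ)) (by
          intro j hj
          simp [l', hj])
      rw [e2] at hn
      exact hn)
    (by
      filter_upwards [D.size hε] with n hn k hk
      rw [if_neg hk]
      exact hn k.1)
    (by
      filter_upwards [D.size hε, h.rel] with n hn hr
      rw [if_pos rfl]
      have := hsumrel n hr
      have e : ∑ j : κ, (((-(l j.1) / l j₀ : ℚ) : ℝ)) * (D.x n j.1 : ℝ) = (D.x n j₀ : ℝ) := by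
        exact_mod_cast congrArg (fun q : ℚ => (q : ℝ)) this
      rw [e]
      exact hn j₀)
    (by
      filter_upwards [D.div2 hε] with n hn k
      exact hn k.1 _ le_rfl)
    (by
      filter_upwards [D.div3 hε] with n hn k
      exact hn k.1 _ le_rfl)
  have e1 : ∑ k : κ, (D.A k.1 + D.B k.1 - 2 * ε) ≤
      ∑ k : κ, (max (D.A k.1 - ε) 0 + max (D.B k.1 - ε) 0) := by
    apply Finset.sum_le_sum
    intro k _
    have h2 := le_max_left (D.A k.1 - ε) 0
    have h3 := le_max_left (D.B k.1 - ε) 0
    linarith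
  have e2 : ∑ k : κ, (if k = k₁ then D.A j₀ + D.B j₀ + ε else D.A k.1 + D.B k.1 + ε) =
      ∑ k : κ, (D.A k.1 + D.B k.1 + ε) + (D.A j₀ + D.B j₀ - (D.A i₁ + D.B i₁)) := by
    have : ∀ k : κ, (if k = k₁ then D.A j₀ + D.B j₀ + ε else D.A k.1 + D.B k.1 + ε) =
        (D.A k.1 + D.B k.1 + ε) +
          (if k = k₁ then (D.A j₀ + D.B j₀ - (D.A i₁ + D.B i₁)) else 0) := by
      intro k
      by_cases hk : k = k₁
      · have : k.1 = i₁ := by rw [hk]
        rw [if_pos hk, if_pos hk, this]
        ring
      · simp [hk]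
    rw [Finset.sum_congr rfl fun k _ => this k, Finset.sum_add_distrib,
      Finset.sum_ite_eq' Finset.univ k₁]
    simp
  have e3 : ∑ k : κ, (D.A k.1 + D.B k.1 - 2 * ε) =
      ∑ k : κ, (D.A k.1 + D.B k.1) - Fintype.card κ * (2 * ε) := by
    rw [Finset.sum_sub_distrib]
    simp
  have e4 : ∑ k : κ, (D.A k.1 + D.B k.1 + ε) =
      ∑ k : κ, (D.A k.1 + D.B k.1) + Fintype.card κ * ε := by
    rw [Finset.sum_add_distrib]
    simp
  rw [e2, e4] at key
  rw [e3] at e1
  linarith

theorem circuit_A [Fintype ι] [DecidableEq ι] {l : ι → ℤ} (h : D.Circuit fun j => (l j : ℚ))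
    {ξ : ℝ} (hξ : ∀ j, l j ≠ 0 → D.A j + D.B j = ξ) {α : ℝ} {j₁ : ι} (hj₁ : l j₁ ≠ 0)
    (hα₁ : D.A j₁ = α) (hα : ∀ j, l j ≠ 0 → α ≤ D.A j) : ∀ j, l j ≠ 0 → D.A j = α := by
  classical
  by_contra hcon
  push Not at hcon
  obtain ⟨j₂, hj₂, hα₂⟩ := hcon
  -- the second smallest value
  obtain ⟨α', hα', hmin⟩ : ∃ α', α < α' ∧ ∀ j, l j ≠ 0 → D.A j ≠ α → α' ≤ D.A j := by
    obtain ⟨j₃, hj₃, h3⟩ := Finset.exists_min_image
      (Finset.univ.filter fun j => l j ≠ 0 ∧ D.A j ≠ α) D.A
      ⟨j₂, Finset.mem_filter.2 ⟨Finset.mem_univ _, hj₂, hα₂⟩⟩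
    rw [Finset.mem_filter] at hj₃
    refine ⟨D.A j₃, lt_of_le_of_ne (hα j₃ hj₃.2.1) (Ne.symm hj₃.2.2), fun j hj hjα => ?_⟩
    exact h3 j (Finset.mem_filter.2 ⟨Finset.mem_univ _, hj, hjα⟩)
  let κ := {j : ι // l j ≠ 0 ∧ D.A j = α}
  let k₁ : κ := ⟨j₁, hj₁, hα₁⟩
  have hα0 : 0 ≤ α := hα₁ ▸ D.A_nonneg j₁
  -- the extra number
  let y : ℕ → ℤ := fun n => ∑ k : κ, l k.1 * D.x n k.1
  have hy : ∀ᶠ n in (𝓤 : Filter ℕ), y n = -∑ k : {j : ι // ¬ (l j ≠ 0 ∧ D.A j = α)},
      l k.1 * D.x n k.1 := by
    filter_upwards [h.rel] with n hn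
    have e1 : ∑ j, l j * D.x n j = 0 := by exact_mod_cast hn
    have e2 := Fintype.sum_subtype_add_sum_subtype (fun j => l j ≠ 0 ∧ D.A j = α)
      (fun j => l j * D.x n j)
    rw [e1] at e2
    show ∑ k : κ, l k.1 * D.x n k.1 = _
    linarith
  have hle : α' ≤ α := by
    apply le_of_forall_eps (K := 5 * Fintype.card κ)
    intro ε hε
    set m : ℕ := Fintype.card κ with hm
    have key := tool 𝓤 D.T D.hT k₁ (Pi.single k₁ 1) (by simp)
      (fun k => if k = k₁ then max (α' - ε) 0 else max (α - ε) 0)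
      (fun _ => max (ξ - α - ε) 0)
      (fun k => by
        beta_reduce
        split_ifs
        · exact le_max_right _ _
        · exact le_max_right _ _) (fun _ => le_max_right _ _)
      (fun _ => ξ + 2 * ε)
      (fun n k => if k = k₁ then y n else D.x n k.1)
      (by
        intro μ hμ
        let l' : ι → ℚ := fun j => if hj : l j ≠ 0 ∧ D.A j = α then
          (if (⟨j, hj⟩ : κ) = k₁ then 0 else μ ⟨j, hj⟩) + μ k₁ * l j else 0
        have hl' : ¬ D.Rel l' := by
          intro hr
          have := h.min l' hr (by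
            intro j hj
            have : ¬ (l j ≠ 0 ∧ D.A j = α) := by
              intro hc
              apply hc.1
              exact_mod_cast hj
            simp only [l', dif_neg this]) ⟨j₂, by exact_mod_cast hj₂, by
              have : ¬ (l j₂ ≠ 0 ∧ D.A j₂ = α) := fun hc => hα₂ hc.2
              simp only [l', dif_neg this]⟩
          apply hμ
          have h1 : μ k₁ = 0 := by
            have h2 := congrFun this j₁
            have h3 : l j₁ ≠ 0 ∧ D.A j₁ = α := ⟨hj₁, hα₁⟩
            simp only [l', dif_pos h3, Pi.zero_apply] at h2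
            rw [if_pos rfl, zero_add] at h2
            rcases mul_eq_zero.1 h2 with h4 | h4
            · exact h4
            · exact absurd (by exact_mod_cast h4) hj₁
          funext k
          by_cases hk : k = k₁
          · rw [hk, h1]
            rfl
          · have h2 := congrFun this k.1
            simp only [l', dif_pos k.2, Pi.zero_apply] at h2
            rw [if_neg hk, h1, zero_mul, add_zero] at h2
            exact h2
        unfold Rel at hl'
        rw [← Ultrafilter.eventually_not] at hl'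
        filter_upwards [hl'] with n hn
        have e2 : ∑ j, l' j * (D.x n j : ℚ) =
            ∑ k : κ, μ k * ((if k = k₁ then y n else D.x n k.1 : ℤ) : ℚ) := by
          rw [sum_sub (fun j => l j ≠ 0 ∧ D.A j = α) (fun j => l' j * (D.x n j : ℚ)) (by
            intro j hj
            simp only [l', dif_neg hj, zero_mul])]
          have e3 : ∀ k : κ, l' k.1 * (D.x n k.1 : ℚ) =
              (if k = k₁ then 0 else μ k * (D.x n k.1 : ℚ)) + μ k₁ * (l k.1 * D.x n k.1) := by
            intro k
            simp only [l', dif_pos k.2]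
            split_ifs <;> ring
          have e4 : ∀ k : κ, μ k * ((if k = k₁ then y n else D.x n k.1 : ℤ) : ℚ) =
              (if k = k₁ then 0 else μ k * (D.x n k.1 : ℚ)) +
                (if k = k₁ then μ k₁ * (y n : ℚ) else 0) := by
            intro k
            by_cases hk : k = k₁
            · simp [hk]
            · simp [hk]
          rw [Finset.sum_congr rfl fun k _ => e3 k, Finset.sum_congr rfl fun k _ => e4 k,
            Finset.sum_add_distrib, Finset.sum_add_distrib, ← Finset.mul_sum,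
            Finset.sum_ite_eq' Finset.univ k₁, if_pos (Finset.mem_univ _)]
          congr 2
          simp only [y]
          push_cast
          rfl
        rw [e2] at hn
        exact hn)
      (by
        filter_upwards [D.size (ε := 2 * ε) (by linarith), D.T_pos] with n hn hT k hk
        rw [if_neg hk]
        rw [← hξ k.1 k.2.1]
        exact hn k.1)
      (by
        have hlim : Tendsto (fun n => ε * D.T n) 𝓤 atTop := D.hT.const_mul_atTop hε
        filter_upwards [D.size (ε := ε) hε, D.T_pos,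
          hlim.eventually_ge_atTop (Real.log (∑ k : κ, |(l k.1 : ℝ)| + 1))] with n hn hT hL
        have e1 : ∑ j : κ, ((Pi.single k₁ (1 : ℚ) : κ → ℚ) j : ℝ) *
            ((if j = k₁ then y n else D.x n j.1 : ℤ) : ℝ) = y n := by
          rw [Finset.sum_eq_single k₁]
          · simp
          · intro j _ hj
            simp [Pi.single_eq_of_ne hj]
          · intro hc
            exact absurd (Finset.mem_univ _) hc
        rw [e1]
        have hS : 0 < ∑ k : κ, |(l k.1 : ℝ)| + 1 := by positivity
        have e2 : |(y n : ℝ)| ≤ (∑ k : κ, |(l k.1 : ℝ)|) * Real.exp ((ξ + ε) * D.T n) := by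
          simp only [y]
          push_cast
          refine (Finset.abs_sum_le_sum_abs _ _).trans ?_
          rw [Finset.sum_mul]
          apply Finset.sum_le_sum
          intro k _
          rw [abs_mul]
          apply mul_le_mul_of_nonneg_left _ (abs_nonneg _)
          rw [← hξ k.1 k.2.1]
          exact hn k.1
        refine e2.trans ?_
        have e3 : Real.exp ((ξ + 2 * ε) * D.T n) =
            Real.exp (ε * D.T n) * Real.exp ((ξ + ε) * D.T n) := by
          rw [← Real.exp_add]
          congr 1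
          ring
        rw [e3]
        apply mul_le_mul_of_nonneg_right _ (Real.exp_pos _).le
        have e4 : ∑ k : κ, |(l k.1 : ℝ)| + 1 ≤ Real.exp (ε * D.T n) := by
          rw [← Real.log_le_iff_le_exp hS]
          exact hL
        linarith)
      (by
        filter_upwards [D.div2 hε, hy] with n hn hyn k
        by_cases hk : k = k₁
        · simp only [if_pos hk]
          rw [hyn]
          apply (dvd_neg).2
          apply Finset.dvd_sum
          intro k' _
          by_cases hl0 : l k'.1 = 0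
          · rw [hl0, zero_mul]
            exact dvd_zero _
          · apply Dvd.dvd.mul_left
            apply hn k'.1
            have h5 : α' ≤ D.A k'.1 := hmin _ hl0 (fun hc => k'.2 ⟨hl0, hc⟩)
            exact max_le_max (by linarith) le_rfl
        · simp only [if_neg hk]
          apply hn k.1
          rw [k.2.2])
      (by
        filter_upwards [D.div3 hε] with n hn k
        have h6 : ∀ k : κ, (3 : ℤ) ^ SST.kexp 3 (max (ξ - α - ε) 0) (D.T n) ∣ D.x n k.1 := by
          intro k
          apply hn k.1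
          have := hξ k.1 k.2.1
          rw [k.2.2] at this
          exact max_le_max (by linarith) le_rfl
        by_cases hk : k = k₁
        · simp only [if_pos hk]
          apply Finset.dvd_sum
          intro k' _
          exact (h6 k').mul_left _
        · simp only [if_neg hk]
          exact h6 k)
    have e1 : ∑ k : κ, (ξ - 2 * ε + (if k = k₁ then α' - α else 0)) ≤
        ∑ k : κ, ((if k = k₁ then max (α' - ε) 0 else max (α - ε) 0) + max (ξ - α - ε) 0) := by
      apply Finset.sum_le_sum
      intro k _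
      have h7 := le_max_left (ξ - α - ε) 0
      split_ifs with hk
      · have := le_max_left (α' - ε) 0
        linarith
      · have := le_max_left (α - ε) 0
        linarith
    rw [Finset.sum_add_distrib, Finset.sum_ite_eq' Finset.univ k₁, if_pos (Finset.mem_univ _),
      Finset.sum_const, Finset.card_univ, nsmul_eq_mul] at e1
    have e2 : ∑ _k : κ, (ξ + 2 * ε) = m * (ξ + 2 * ε) := by
      rw [Finset.sum_const, Finset.card_univ, nsmul_eq_mul]
    rw [e2] at key
    have e3 := e1.trans key
    have hm0 : (0 : ℝ) ≤ m := Nat.cast_nonneg _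
    nlinarith
  linarith

theorem circuit_all [Fintype ι] [DecidableEq ι] {l : ι → ℚ} (h : D.Circuit l) {j k : ι}
    (hj : l j ≠ 0) (hk : l k ≠ 0) : D.A j = D.A k ∧ D.B j = D.B k := by
  classical
  have hsum : ∀ j k, l j ≠ 0 → l k ≠ 0 → D.A j + D.B j = D.A k + D.B k := by
    intro j k hj hk
    by_cases hjk : j = k
    · rw [hjk]
    · exact le_antisymm (D.circuit_sum h hj hk hjk) (D.circuit_sum h hk hj (Ne.symm hjk))
  -- integral coefficients
  obtain ⟨q, hq, L, hL⟩ : ∃ q : ℚ, q ≠ 0 ∧ ∃ L : ι → ℤ, ∀ j, (L j : ℚ) = q * l j := by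
    refine ⟨∏ j, ((l j).den : ℚ), ?_, fun j => (l j).num * ∏ i ∈ Finset.univ.erase j, (l i).den,
      fun j => ?_⟩
    · apply Finset.prod_ne_zero_iff.2
      intro j _
      exact_mod_cast (l j).den_nz
    · rw [← Finset.mul_prod_erase _ _ (Finset.mem_univ j)]
      push_cast
      have h1 : ((l j).den : ℚ) ≠ 0 := by exact_mod_cast (l j).den_nz
      have h2 : ((l j).num : ℚ) = (l j).den * l j := by
        rw [mul_comm]
        exact (Rat.mul_den_eq_num _).symm
      rw [h2]
      ring
  have hL0 : ∀ j, L j ≠ 0 ↔ l j ≠ 0 := by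
    intro j
    rw [not_iff_not]
    constructor
    · intro h0
      have := hL j
      rw [h0, Int.cast_zero] at this
      exact (mul_eq_zero.1 this.symm).resolve_left hq
    · intro h0
      have := hL j
      rw [h0, mul_zero] at this
      exact_mod_cast this
  have hc : D.Circuit fun j => (L j : ℚ) := by
    have e : (fun j => (L j : ℚ)) = q • l := by
      funext j
      rw [hL j]
      rfl
    rw [e]
    refine ⟨h.rel.smul D q, fun l' hr h1 h2 => h.min l' hr (fun j hj => h1 j ?_) ?_⟩
    · show q * l j = 0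
      rw [hj, mul_zero]
    · obtain ⟨j, hj, hj'⟩ := h2
      exact ⟨j, fun h0 => hj (by show q * l j = 0; rw [h0, mul_zero]), hj'⟩
  obtain ⟨j₁, hj₁, hmin⟩ := Finset.exists_min_image (Finset.univ.filter fun j => L j ≠ 0) D.A
    ⟨j, Finset.mem_filter.2 ⟨Finset.mem_univ _, (hL0 j).2 hj⟩⟩
  rw [Finset.mem_filter] at hj₁
  have hA := D.circuit_A hc (ξ := D.A j + D.B j) (fun i hi => hsum i j ((hL0 i).1 hi) hj)
    hj₁.2 rfl (fun i hi => hmin i (Finset.mem_filter.2 ⟨Finset.mem_univ _, hi⟩))
  have h1 := hA j ((hL0 j).2 hj)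
  have h2 := hA k ((hL0 k).2 hk)
  have h3 := hsum j k hj hk
  constructor
  · rw [h1, h2]
  · linarith

theorem exists_circuit [Fintype ι] [DecidableEq ι] {l : ι → ℚ} (h : D.Rel l) (h0 : l ≠ 0) :
    ∃ l', D.Circuit l' ∧ l' ≠ 0 ∧ ∀ j, l j = 0 → l' j = 0 := by
  classical
  suffices H : ∀ (N : ℕ) (l : ι → ℚ), (Finset.univ.filter fun j => l j ≠ 0).card ≤ N →
      D.Rel l → l ≠ 0 → ∃ l', D.Circuit l' ∧ l' ≠ 0 ∧ ∀ j, l j = 0 → l' j = 0 from
    H _ l le_rfl h h0
  intro N
  induction N with
  | zero =>
    intro l hN _ h0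
    exfalso
    apply h0
    funext j
    by_contra hj
    have : 0 < (Finset.univ.filter fun j => l j ≠ 0).card :=
      Finset.card_pos.2 ⟨j, Finset.mem_filter.2 ⟨Finset.mem_univ _, hj⟩⟩
    omega
  | succ N ih =>
    intro l hN h h0
    by_cases hc : D.Circuit l
    · exact ⟨l, hc, h0, fun _ hj => hj⟩
    · have : ∃ l', D.Rel l' ∧ (∀ j, l j = 0 → l' j = 0) ∧ (∃ j, l j ≠ 0 ∧ l' j = 0) ∧
          l' ≠ 0 := by
        by_contra hcon
        push Not at hcon
        exact hc ⟨h, fun l' h1 h2 h3 => hcon l' h1 h2 h3⟩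
      obtain ⟨l', h1, h2, ⟨j, hj, hj'⟩, h3⟩ := this
      obtain ⟨l'', g1, g2, g3⟩ := ih l' (by
        have hlt : (Finset.univ.filter fun j => l' j ≠ 0).card <
            (Finset.univ.filter fun j => l j ≠ 0).card := by
          apply Finset.card_lt_card
          rw [Finset.ssubset_iff_of_subset]
          · exact ⟨j, Finset.mem_filter.2 ⟨Finset.mem_univ _, hj⟩, by
              rw [Finset.mem_filter]
              exact fun hc => hc.2 hj'⟩
          · intro i hi
            rw [Finset.mem_filter] at hi ⊢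
            exact ⟨hi.1, fun hc => hi.2 (h2 i hc)⟩
        omega) h1 h3
      exact ⟨l'', g1, g2, fun i hi => g3 i (h2 i hi)⟩

theorem rel_class [Fintype ι] [DecidableEq ι] (P : ι → Prop) [DecidablePred P]
    (hP : ∀ j k, D.A j = D.A k → D.B j = D.B k → (P j ↔ P k)) (l : ι → ℚ) (h : D.Rel l) :
    D.Rel fun j => if P j then l j else 0 := by
  classical
  suffices H : ∀ (N : ℕ) (l : ι → ℚ), (Finset.univ.filter fun j => l j ≠ 0).card ≤ N →
      D.Rel l → D.Rel fun j => if P j then l j else 0 from H _ l le_rfl h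
  have hzero : D.Rel (fun _ => 0) := by
    unfold Rel
    exact Eventually.of_forall fun n => by simp
  intro N
  induction N with
  | zero =>
    intro l hN _
    have h0 : ∀ j, l j = 0 := by
      intro j
      by_contra hj
      have : 0 < (Finset.univ.filter fun j => l j ≠ 0).card :=
        Finset.card_pos.2 ⟨j, Finset.mem_filter.2 ⟨Finset.mem_univ _, hj⟩⟩
      omega
    have : (fun j => if P j then l j else 0) = fun _ => (0 : ℚ) := by
      funext j
      simp [h0 j]
    rw [this]
    exact hzero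
  | succ N ih =>
    intro l hN h
    by_cases hl0 : l = 0
    · have : (fun j => if P j then l j else 0) = fun _ => (0 : ℚ) := by
        funext j
        simp [hl0]
      rw [this]
      exact hzero
    · obtain ⟨l', hc, h0', hsub⟩ := D.exists_circuit h hl0
      obtain ⟨j, hj⟩ : ∃ j, l' j ≠ 0 := by
        by_contra hcon
        push Not at hcon
        exact h0' (funext hcon)
      have hlj : l j ≠ 0 := fun hc => hj (hsub j hc)
      set μ : ℚ := -(l j / l' j) with hμ
      have h1 : D.Rel (l + μ • l') := h.add D (hc.rel.smul D μ)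
      have h2 := ih (l + μ • l') (by
        have hlt : (Finset.univ.filter fun i => (l + μ • l') i ≠ 0).card <
            (Finset.univ.filter fun i => l i ≠ 0).card := by
          apply Finset.card_lt_card
          rw [Finset.ssubset_iff_of_subset]
          · refine ⟨j, Finset.mem_filter.2 ⟨Finset.mem_univ _, hlj⟩, ?_⟩
            rw [Finset.mem_filter]
            rintro ⟨-, hc⟩
            apply hc
            simp only [Pi.add_apply, Pi.smul_apply, smul_eq_mul, hμ]
            field_simp
            ring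
          · intro i hi
            rw [Finset.mem_filter] at hi ⊢
            refine ⟨hi.1, fun hc => hi.2 ?_⟩
            simp [hc, hsub i hc]
        omega) h1
      have h3 : D.Rel fun i => if P i then l' i else 0 := by
        by_cases hPj : P j
        · have : (fun i => if P i then l' i else 0) = l' := by
            funext i
            by_cases hi : l' i = 0
            · simp [hi]
            · have := D.circuit_all hc hi hj
              rw [if_pos ((hP i j this.1 this.2).2 hPj)]
          rw [this]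
          exact hc.rel
        · have : (fun i => if P i then l' i else 0) = fun _ => (0 : ℚ) := by
            funext i
            by_cases hi : l' i = 0
            · simp [hi]
            · have := D.circuit_all hc hi hj
              rw [if_neg (fun hPi => hPj ((hP i j this.1 this.2).1 hPi))]
          rw [this]
          exact hzero
      have h4 := h2.add D (h3.smul D (-μ))
      have : (fun i => if P i then l i else 0) =
          (fun i => if P i then (l + μ • l') i else 0) + (-μ) • fun i => if P i then l' i else 0 := by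
        funext i
        simp only [Pi.add_apply, Pi.smul_apply, smul_eq_mul]
        split_ifs
        · ring
        · ring
      rw [this]
      exact h4

end Dat

end PT21
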