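import Pool.Agent.PT21.SU

/-!
# Vanishing sums of numbers `c * 2 ^ a * 3 ^ b` with small coefficients: the theorem
-/

set_option autoImplicit false

namespace PT21

open Filter Topology

theorem exists_lim (𝓤 : Ultrafilter ℕ) (f : ℕ → ℝ) (h : ∀ n, 0 ≤ f n ∧ f n ≤ 1) :
    ∃ A, Tendsto f 𝓤 (𝓝 A) := by
  obtain ⟨A, -, hA⟩ := (isCompact_Icc (a := (0 : ℝ)) (b := 1)).ultrafilter_le_nhds (𝓤.map f) (by
    rw [le_principal_iff, Ultrafilter.mem_coe, Ultrafilter.mem_map]
    exact Filter.univ_mem' h)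
  exact ⟨A, hA⟩

theorem exists_eventually {ι : Type} [Finite ι] (𝓤 : Ultrafilter ℕ) (p : ℕ → ι → Prop)
    (h : ∀ᶠ n in (𝓤 : Filter ℕ), ∃ j, p n j) : ∃ j, ∀ᶠ n in (𝓤 : Filter ℕ), p n j := by
  by_contra hcon
  push Not at hcon
  have : ∀ j, ∀ᶠ n in (𝓤 : Filter ℕ), ¬ p n j := hcon
  rw [← eventually_all] at this
  obtain ⟨n, ⟨j, hj⟩, hn⟩ := (h.and this).exists
  exact hn j hj

theorem su (ι : Type) [Fintype ι] [DecidableEq ι] : ∃ C : ℕ, ∀ (M : ℕ) (c : ι → ℤ) (a b : ι → ℕ),
    2 ≤ M → (∀ j, c j ≠ 0) → (∀ j, |c j| ≤ M) → ∑ j, c j * 2 ^ a j * 3 ^ b j = 0 →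
    (∀ s : Finset ι, s.Nonempty → s ≠ Finset.univ → ∑ j ∈ s, c j * 2 ^ a j * 3 ^ b j ≠ 0) →
    ∀ j k, 2 ^ a j ≤ M ^ C * 2 ^ a k ∧ 3 ^ b j ≤ M ^ C * 3 ^ b k := by
  classical
  by_contra hcon
  push Not at hcon
  choose M c a b hM hc hcM hsum hnd j k hjk using hcon
  have hne : (Finset.univ : Finset ι).Nonempty := ⟨j 0, Finset.mem_univ _⟩
  set 𝓤 : Ultrafilter ℕ := hyperfilter ℕ with h𝓤
  have hle : (𝓤 : Filter ℕ) ≤ atTop := Nat.hyperfilter_le_atTop
  have hl2 : 0 < Real.log 2 := Real.log_pos (by norm_num)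
  have hl3 : 0 < Real.log 3 := Real.log_pos (by norm_num)
  -- normalisation
  choose ia _ hia using fun n => Finset.exists_min_image Finset.univ (a n) hne
  choose ib _ hib using fun n => Finset.exists_min_image Finset.univ (b n) hne
  let a' : ℕ → ι → ℕ := fun n i => a n i - a n (ia n)
  let b' : ℕ → ι → ℕ := fun n i => b n i - b n (ib n)
  have ha' : ∀ n i, a n i = a n (ia n) + a' n i := fun n i => by
    have := hia n i (Finset.mem_univ _)
    simp only [a']
    omega
  have hb' : ∀ n i, b n i = b n (ib n) + b' n i := fun n i => by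
    have := hib n i (Finset.mem_univ _)
    simp only [b']
    omega
  have hfac : ∀ n (s : Finset ι), ∑ i ∈ s, c n i * 2 ^ a n i * 3 ^ b n i =
      2 ^ a n (ia n) * 3 ^ b n (ib n) * ∑ i ∈ s, c n i * 2 ^ a' n i * 3 ^ b' n i := by
    intro n s
    rw [Finset.mul_sum]
    apply Finset.sum_congr rfl
    intro i _
    have e1 : (2 : ℤ) ^ a n i = 2 ^ a n (ia n) * 2 ^ a' n i := by rw [← pow_add, ← ha']
    have e2 : (3 : ℤ) ^ b n i = 3 ^ b n (ib n) * 3 ^ b' n i := by rw [← pow_add, ← hb']
    rw [e1, e2]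
    ring
  -- the scale
  let T : ℕ → ℝ := fun n => Finset.univ.sup' hne fun i => max ((a' n i : ℝ) * Real.log 2)
    ((b' n i : ℝ) * Real.log 3)
  have hTa : ∀ n i, (a' n i : ℝ) * Real.log 2 ≤ T n := fun n i =>
    (le_max_left _ _).trans (Finset.le_sup' (fun i => max ((a' n i : ℝ) * Real.log 2)
      ((b' n i : ℝ) * Real.log 3)) (Finset.mem_univ i))
  have hTb : ∀ n i, (b' n i : ℝ) * Real.log 3 ≤ T n := fun n i =>
    (le_max_right _ _).trans (Finset.le_sup' (fun i => max ((a' n i : ℝ) * Real.log 2)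
      ((b' n i : ℝ) * Real.log 3)) (Finset.mem_univ i))
  have hTe : ∀ n, ∃ i, (a' n i : ℝ) * Real.log 2 = T n ∨ (b' n i : ℝ) * Real.log 3 = T n := by
    intro n
    obtain ⟨i, -, hi⟩ := Finset.exists_mem_eq_sup' hne fun i => max ((a' n i : ℝ) * Real.log 2)
      ((b' n i : ℝ) * Real.log 3)
    refine ⟨i, ?_⟩
    rcases max_choice ((a' n i : ℝ) * Real.log 2) ((b' n i : ℝ) * Real.log 3) with h | h
    · left
      rw [← h]
      exact hi.symm
    · right
      rw [← h]
      exact hi.symm
  have hTM : ∀ n, n * Real.log (M n) ≤ T n := by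
    intro n
    have hMp : (0 : ℝ) < M n := by
      have := hM n
      exact_mod_cast (by omega : 0 < M n)
    by_cases h2 : 2 ^ a n (j n) ≤ M n ^ n * 2 ^ a n (k n)
    · have h3 := hjk n h2
      have h4 : Real.log ((M n : ℝ) ^ n * 3 ^ b n (k n)) ≤ Real.log (3 ^ b n (j n)) := by
        apply Real.log_le_log (by positivity)
        exact_mod_cast h3.le
      rw [Real.log_mul (by positivity) (by positivity), Real.log_pow, Real.log_pow,
        Real.log_pow] at h4
      refine le_trans ?_ (hTb n (j n))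
      have h5 := hib n (k n) (Finset.mem_univ _)
      have h6 : (b n (j n) : ℝ) = b n (ib n) + b' n (j n) := by exact_mod_cast hb' n (j n)
      have h7 : (b n (ib n) : ℝ) ≤ b n (k n) := by exact_mod_cast h5
      rw [h6] at h4
      nlinarith
    · push Not at h2
      have h4 : Real.log ((M n : ℝ) ^ n * 2 ^ a n (k n)) ≤ Real.log (2 ^ a n (j n)) := by
        apply Real.log_le_log (by positivity)
        exact_mod_cast h2.le
      rw [Real.log_mul (by positivity) (by positivity), Real.log_pow, Real.log_pow,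
        Real.log_pow] at h4
      refine le_trans ?_ (hTa n (j n))
      have h5 := hia n (k n) (Finset.mem_univ _)
      have h6 : (a n (j n) : ℝ) = a n (ia n) + a' n (j n) := by exact_mod_cast ha' n (j n)
      have h7 : (a n (ia n) : ℝ) ≤ a n (k n) := by exact_mod_cast h5
      rw [h6] at h4
      nlinarith
  have hlogM : ∀ n, Real.log 2 ≤ Real.log (M n) := fun n =>
    Real.log_le_log (by norm_num) (by exact_mod_cast hM n)
  have hT0 : ∀ n, 0 ≤ T n := fun n => le_trans (by positivity) (hTa n (j n))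
  have hT : Tendsto T 𝓤 atTop := by
    apply Tendsto.mono_left _ hle
    apply tendsto_atTop_mono (f := fun n : ℕ => (n : ℝ) * Real.log 2)
    · intro n
      exact (mul_le_mul_of_nonneg_left (hlogM n) (Nat.cast_nonneg _)).trans (hTM n)
    · exact tendsto_natCast_atTop_atTop.atTop_mul_const hl2
  have hTpos : ∀ᶠ n in (𝓤 : Filter ℕ), 0 < T n := hT.eventually_gt_atTop 0
  choose A hA using fun i => exists_lim 𝓤 (fun n => (a' n i : ℝ) * Real.log 2 / T n) (fun n =>
    ⟨div_nonneg (by positivity) (hT0 n), div_le_one_of_le₀ (hTa n i) (hT0 n)⟩)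
  choose B hB using fun i => exists_lim 𝓤 (fun n => (b' n i : ℝ) * Real.log 3 / T n) (fun n =>
    ⟨div_nonneg (by positivity) (hT0 n), div_le_one_of_le₀ (hTb n i) (hT0 n)⟩)
  have hC : ∀ i, Tendsto (fun n => Real.log |(c n i : ℝ)| / T n) 𝓤 (𝓝 0) := by
    intro i
    have h1 : Tendsto (fun n : ℕ => 1 / (n : ℝ)) 𝓤 (𝓝 0) :=
      (tendsto_one_div_atTop_nhds_zero_nat (𝕜 := ℝ)).mono_left hle
    have hge : ∀ᶠ n in (𝓤 : Filter ℕ), 1 ≤ n := hle (eventually_ge_atTop 1)
    refine squeeze_zero' ?_ ?_ h1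
    · filter_upwards with n
      apply div_nonneg _ (hT0 n)
      apply Real.log_nonneg
      have : 1 ≤ |c n i| := Int.one_le_abs (hc n i)
      exact_mod_cast this
    · filter_upwards [hTpos, hge] with n hn hn1
      have hn0 : (0 : ℝ) < n := by exact_mod_cast hn1
      rw [div_le_div_iff₀ hn hn0, one_mul]
      have h2 : Real.log |(c n i : ℝ)| ≤ Real.log (M n) := by
        apply Real.log_le_log
        · apply abs_pos.2
          exact_mod_cast hc n i
        · exact_mod_cast hcM n i
      calc Real.log |(c n i : ℝ)| * n ≤ Real.log (M n) * n :=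
            mul_le_mul_of_nonneg_right h2 hn0.le
        _ ≤ T n := by
          rw [mul_comm]
          exact hTM n
  let D : Dat ι 𝓤 := ⟨T, hT, c, hc, a', b', A, B, hA, hB, hC⟩
  -- all limits are equal
  have hrel : D.Rel fun _ => 1 := by
    unfold Dat.Rel
    filter_upwards with n
    have h1 := hfac n Finset.univ
    rw [hsum n] at h1
    have h2 : ∑ i, c n i * 2 ^ a' n i * 3 ^ b' n i = 0 := by
      rcases mul_eq_zero.1 h1.symm with h | h
      · exfalso
        have : (0 : ℤ) < 2 ^ a n (ia n) * 3 ^ b n (ib n) := by positivity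
        omega
      · exact h
    have h3 : ∑ i, D.x n i = 0 := h2
    simp only [one_mul]
    exact_mod_cast h3
  have hall : ∀ i, A i = A (j 0) ∧ B i = B (j 0) := by
    have h1 := D.rel_class (fun i => A i = A (j 0) ∧ B i = B (j 0)) (by
      intro i i' h2 h3
      have h2' : A i = A i' := h2
      have h3' : B i = B i' := h3
      rw [h2', h3']) _ hrel
    obtain ⟨n, hn⟩ := Eventually.exists h1
    set s : Finset ι := Finset.univ.filter fun i => A i = A (j 0) ∧ B i = B (j 0) with hs
    by_contra hcon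
    have hs1 : s ≠ Finset.univ := by
      intro h
      apply hcon
      intro i
      have : i ∈ s := h ▸ Finset.mem_univ i
      exact (Finset.mem_filter.1 this).2
    have hs2 := hnd n s ⟨j 0, Finset.mem_filter.2 ⟨Finset.mem_univ _, rfl, rfl⟩⟩ hs1
    apply hs2
    rw [hfac]
    have h4 : ∑ i ∈ s, D.x n i = 0 := by
      rw [hs, Finset.sum_filter]
      have : ∀ i, (if A i = A (j 0) ∧ B i = B (j 0) then (1 : ℚ) else 0) * (D.x n i : ℚ) =
          ((if A i = A (j 0) ∧ B i = B (j 0) then D.x n i else 0 : ℤ) : ℚ) := by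
        intro i
        split_ifs <;> simp
      rw [Finset.sum_congr rfl fun i _ => this i] at hn
      exact_mod_cast hn
    have h5 : ∑ i ∈ s, c n i * 2 ^ a' n i * 3 ^ b' n i = 0 := h4
    rw [h5, mul_zero]
  have hA0 : ∀ i, A i = 0 := by
    obtain ⟨i, hi⟩ := exists_eventually 𝓤 (fun n i => a' n i = 0)
      (Eventually.of_forall fun n => ⟨ia n, by simp [a']⟩)
    have h1 : A i = 0 := by
      apply tendsto_nhds_unique (hA i)
      apply tendsto_const_nhds.congr'
      filter_upwards [hi] with n hn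
      rw [hn]
      simp
    intro i'
    rw [(hall i').1, ← (hall i).1, h1]
  have hB0 : ∀ i, B i = 0 := by
    obtain ⟨i, hi⟩ := exists_eventually 𝓤 (fun n i => b' n i = 0)
      (Eventually.of_forall fun n => ⟨ib n, by simp [b']⟩)
    have h1 : B i = 0 := by
      apply tendsto_nhds_unique (hB i)
      apply tendsto_const_nhds.congr'
      filter_upwards [hi] with n hn
      rw [hn]
      simp
    intro i'
    rw [(hall i').2, ← (hall i).2, h1]
  obtain ⟨i, hi⟩ := exists_eventually 𝓤 (fun n i => (a' n i : ℝ) * Real.log 2 = T n ∨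
    (b' n i : ℝ) * Real.log 3 = T n) (Eventually.of_forall hTe)
  rw [Ultrafilter.eventually_or] at hi
  rcases hi with hi | hi
  · have h1 : A i = 1 := by
      apply tendsto_nhds_unique (hA i)
      apply tendsto_const_nhds.congr'
      filter_upwards [hi, hTpos] with n hn hT
      rw [hn, div_self hT.ne']
    rw [hA0] at h1
    norm_num at h1
  · have h1 : B i = 1 := by
      apply tendsto_nhds_unique (hB i)
      apply tendsto_const_nhds.congr'
      filter_upwards [hi, hTpos] with n hn hT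
      rw [hn, div_self hT.ne']
    rw [hB0] at h1
    norm_num at h1

/-- The same constant for all subsets of a finite type. -/
theorem su_sub (ι : Type) [Fintype ι] [DecidableEq ι] : ∃ C : ℕ, ∀ (s : Finset ι)
    (M : ℕ) (c : ι → ℤ) (a b : ι → ℕ),
    2 ≤ M → (∀ j ∈ s, c j ≠ 0) → (∀ j ∈ s, |c j| ≤ M) → ∑ j ∈ s, c j * 2 ^ a j * 3 ^ b j = 0 →
    (∀ t ⊆ s, t.Nonempty → t ≠ s → ∑ j ∈ t, c j * 2 ^ a j * 3 ^ b j ≠ 0) →
    ∀ j ∈ s, ∀ k ∈ s, 2 ^ a j ≤ M ^ C * 2 ^ a k ∧ 3 ^ b j ≤ M ^ C * 3 ^ b k := by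
  classical
  choose C hC using fun s : Finset ι => su ↥s
  refine ⟨Finset.univ.sup C, fun s M c a b hM hc hcM hsum hnd j hj k hk => ?_⟩
  have h := hC s M (fun i => c i.1) (fun i => a i.1) (fun i => b i.1) hM (fun i => hc _ i.2)
    (fun i => hcM _ i.2) (by
      rw [← hsum]
      exact Finset.sum_coe_sort s (fun j => c j * 2 ^ a j * 3 ^ b j)) (by
      intro t ht1 ht2
      have h1 := hnd (t.map (Function.Embedding.subtype _)) (by
        intro i hi
        rw [Finset.mem_map] at hi
        obtain ⟨i', -, rfl⟩ := hi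
        exact i'.2) (ht1.map) (by
        intro he
        apply ht2
        rw [Finset.eq_univ_iff_forall]
        intro i
        have : i.1 ∈ t.map (Function.Embedding.subtype _) := by
          rw [he]
          exact i.2
        rw [Finset.mem_map] at this
        obtain ⟨i', hi', e⟩ := this
        have : i' = i := Subtype.ext e
        exact this ▸ hi')
      rw [Finset.sum_map] at h1
      exact h1) ⟨j, hj⟩ ⟨k, hk⟩
  have hle : C s ≤ Finset.univ.sup C := Finset.le_sup (Finset.mem_univ s)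
  have hpow : M ^ C s ≤ M ^ Finset.univ.sup C := Nat.pow_le_pow_right (by omega) hle
  exact ⟨h.1.trans (Nat.mul_le_mul_right _ hpow), h.2.trans (Nat.mul_le_mul_right _ hpow)⟩

/-- A vanishing sum splits into vanishing sums with terms of almost the same size. -/
theorem su_dec (ι : Type) [Fintype ι] [DecidableEq ι] : ∃ C : ℕ, ∀ (M : ℕ) (c : ι → ℤ)
    (a b : ι → ℕ), 2 ≤ M → (∀ j, |c j| ≤ M) → ∑ j, c j * 2 ^ a j * 3 ^ b j = 0 →
    ∃ f : ι → ι, (∀ k, ∑ j with f j = k, c j * 2 ^ a j * 3 ^ b j = 0) ∧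
      ∀ j j', c j ≠ 0 → c j' ≠ 0 → f j = f j' →
        2 ^ a j ≤ M ^ C * 2 ^ a j' ∧ 3 ^ b j ≤ M ^ C * 3 ^ b j' := by
  classical
  obtain ⟨C, hC⟩ := su_sub ι
  refine ⟨C, fun M c a b hM hcM hsum => ?_⟩
  have H : ∀ (N : ℕ) (s : Finset ι), s.card ≤ N → (∀ j ∈ s, c j ≠ 0) →
      ∑ j ∈ s, c j * 2 ^ a j * 3 ^ b j = 0 →
      ∃ f : ι → ι, (∀ j ∈ s, f j ∈ s) ∧
        (∀ k, ∑ j ∈ s with f j = k, c j * 2 ^ a j * 3 ^ b j = 0) ∧
        ∀ j ∈ s, ∀ j' ∈ s, f j = f j' →
          2 ^ a j ≤ M ^ C * 2 ^ a j' ∧ 3 ^ b j ≤ M ^ C * 3 ^ b j' := by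
    intro N
    induction N with
    | zero =>
      intro s hs _ _
      have : s = ∅ := Finset.card_eq_zero.1 (by omega)
      subst this
      exact ⟨id, by simp, by simp, by simp⟩
    | succ N ih =>
      intro s hs hc0 hs0
      by_cases hnd : ∀ t ⊆ s, t.Nonempty → t ≠ s → ∑ j ∈ t, c j * 2 ^ a j * 3 ^ b j ≠ 0
      · rcases s.eq_empty_or_nonempty with rfl | ⟨i, hi⟩
        · exact ⟨id, by simp, by simp, by simp⟩
        · have h := hC s M c a b hM hc0 (fun j _ => hcM j) hs0 hnd
          refine ⟨fun _ => i, fun _ _ => hi, fun k => ?_, fun j hj j' hj' _ => h j hj j' hj'⟩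
          by_cases hk : i = k
          · subst hk
            simpa using hs0
          · simp [hk]
      · push Not at hnd
        obtain ⟨t, hts, htn, hne, ht0⟩ := hnd
        have hcard1 : t.card < s.card := Finset.card_lt_card (hts.ssubset_of_ne hne)
        have hcard2 : (s \ t).card < s.card := by
          rw [Finset.card_sdiff_of_subset hts]
          have := htn.card_pos
          omega
        have hu0 : ∑ j ∈ s \ t, c j * 2 ^ a j * 3 ^ b j = 0 := by
          have := Finset.sum_sdiff hts (f := fun j => c j * 2 ^ a j * 3 ^ b j)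
          rw [hs0, ht0, add_zero] at this
          exact this
        obtain ⟨f, f1, f2, f3⟩ := ih t (by omega) (fun j hj => hc0 j (hts hj)) ht0
        obtain ⟨g, g1, g2, g3⟩ := ih (s \ t) (by omega)
          (fun j hj => hc0 j (Finset.mem_sdiff.1 hj).1) hu0
        refine ⟨fun j => if j ∈ t then f j else g j, ?_, ?_, ?_⟩
        · intro j hj
          by_cases hjt : j ∈ t
          · simp only [if_pos hjt]
            exact hts (f1 j hjt)
          · simp only [if_neg hjt]
            exact (Finset.mem_sdiff.1 (g1 j (Finset.mem_sdiff.2 ⟨hj, hjt⟩))).1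
        · intro k
          have e1 : s.filter (fun j => (if j ∈ t then f j else g j) = k) =
              t.filter (fun j => f j = k) ∪ (s \ t).filter (fun j => g j = k) := by
            ext j
            simp only [Finset.mem_filter, Finset.mem_union, Finset.mem_sdiff]
            by_cases hjt : j ∈ t
            · simp [hjt, hts hjt]
            · simp [hjt]
          rw [e1, Finset.sum_union, f2, g2, add_zero]
          rw [Finset.disjoint_left]
          intro j hj hj'
          exact (Finset.mem_sdiff.1 (Finset.mem_filter.1 hj').1).2 (Finset.mem_filter.1 hj).1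
        · intro j hj j' hj' he
          by_cases hjt : j ∈ t
          · by_cases hjt' : j' ∈ t
            · simp only [if_pos hjt, if_pos hjt'] at he
              exact f3 j hjt j' hjt' he
            · simp only [if_pos hjt, if_neg hjt'] at he
              exact absurd (f1 j hjt) (he ▸ (Finset.mem_sdiff.1
                (g1 j' (Finset.mem_sdiff.2 ⟨hj', hjt'⟩))).2)
          · by_cases hjt' : j' ∈ t
            · simp only [if_neg hjt, if_pos hjt'] at he
              exact absurd (f1 j' hjt') (he ▸ (Finset.mem_sdiff.1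
                (g1 j (Finset.mem_sdiff.2 ⟨hj, hjt⟩))).2)
            · simp only [if_neg hjt, if_neg hjt'] at he
              exact g3 j (Finset.mem_sdiff.2 ⟨hj, hjt⟩) j' (Finset.mem_sdiff.2 ⟨hj', hjt'⟩) he
  have hnz : ∑ j with c j ≠ 0, c j * 2 ^ a j * 3 ^ b j = 0 := by
    refine Eq.trans ?_ hsum
    apply Finset.sum_subset (Finset.subset_univ _)
    intro j _ hj
    have : c j = 0 := by
      by_contra h
      exact hj (Finset.mem_filter.2 ⟨Finset.mem_univ _, h⟩)
    simp [this]
  obtain ⟨f, -, f2, f3⟩ := H _ (Finset.univ.filter fun j => c j ≠ 0) le_rfl (fun j hj =>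
    (Finset.mem_filter.1 hj).2) hnz
  refine ⟨f, fun k => ?_, fun j j' hj hj' he => f3 j (by simp [hj]) j' (by simp [hj']) he⟩
  rw [← f2 k, Finset.filter_filter]
  symm
  apply Finset.sum_subset
  · intro j hj
    rw [Finset.mem_filter] at hj ⊢
    exact ⟨hj.1, hj.2.2⟩
  · intro j hj hj'
    have : c j = 0 := by
      by_contra h
      rw [Finset.mem_filter] at hj
      exact hj' (Finset.mem_filter.2 ⟨Finset.mem_univ _, h, hj.2⟩)
    simp [this]

end PT21
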