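import Pool.Agent.PT21.Decide

/-!
# The induction step
-/

set_option autoImplicit false

namespace PT21

open Pool.Agent.PTL

section expsum

/-- Sum of terms with signs. -/
theorem sgn_sum {J : Type} (s : Finset J) (sg : J → Bool) (x : J → ℕ) :
    (∑ j ∈ s with sg j = true, x j = ∑ j ∈ s with sg j = false, x j) ↔
      ∑ j ∈ s, (if sg j = true then (x j : ℤ) else -(x j : ℤ)) = 0 := by
  have h : ∑ j ∈ s, (if sg j = true then (x j : ℤ) else -(x j : ℤ)) =
      (∑ j ∈ s with sg j = true, x j : ℕ) - (∑ j ∈ s with sg j = false, x j : ℕ) := by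
    rw [Nat.cast_sum, Nat.cast_sum, Finset.sum_filter, Finset.sum_filter,
      ← Finset.sum_sub_distrib]
    refine Finset.sum_congr rfl fun j _ => ?_
    cases sg j <;> simp
  rw [h]
  omega

/-- Test for exponential sums. -/
def psi {V J : Type} [Fintype J] [DecidableEq J]
    (ΦA ΦB : J → J → ℕ → List Bool → (V → ℕ) → ℕ → Prop) (sg : J → Bool)
    (N : ℕ) (w : List Bool) (p : V → ℕ) (c : J → ℕ) : Prop :=
  ∃ f g₁ g₂ : J → J, ∃ a : J → ℕ, (∀ j, a j < N) ∧ ∃ b : J → ℕ, (∀ j, b j < N) ∧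
    ∃ A : J → ℕ, (∀ j, A j < N) ∧ ∃ B : J → ℕ, (∀ j, B j < N) ∧
      (∀ j, c j = 0 ∨ (lk N w 0 (a j) (A j) ∧ lk N w 1 (b j) (B j) ∧
        ΦA (g₁ (f j)) j N w p (a j) ∧ ΦB (g₂ (f j)) j N w p (b j))) ∧
      ∀ k, ∑ j ∈ Finset.univ.filter (fun j => f j = k) with sg j = true, c j * A j * B j =
        ∑ j ∈ Finset.univ.filter (fun j => f j = k) with sg j = false, c j * A j * B j

theorem isT_psi {V J : Type} [Fintype J] [DecidableEq J]
    {ΦA ΦB : J → J → ℕ → List Bool → (V → ℕ) → ℕ → Prop} {sg : J → Bool}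
    (hA : ∀ (i j : J) (k : ℕ) (N m : (ℕ → ℕ) → ℕ) (p : V → (ℕ → ℕ) → ℕ), IsE k N → IsE k m →
        (∀ i, IsE k (p i)) → IsT k (fun w env => ΦA i j (N env) w (fun i => p i env) (m env)))
    (hB : ∀ (i j : J) (k : ℕ) (N m : (ℕ → ℕ) → ℕ) (p : V → (ℕ → ℕ) → ℕ), IsE k N → IsE k m →
        (∀ i, IsE k (p i)) → IsT k (fun w env => ΦB i j (N env) w (fun i => p i env) (m env)))
    {k : ℕ} {N : (ℕ → ℕ) → ℕ} {p : V → (ℕ → ℕ) → ℕ} {c : J → (ℕ → ℕ) → ℕ} (hN : IsE k N)
    (hp : ∀ i, IsE k (p i)) (hc : ∀ j, IsE k (c j)) :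
    IsT k (fun w env => psi ΦA ΦB sg (N env) w (fun i => p i env) (fun j => c j env)) := by
  unfold psi
  refine IsT.exists fun f => IsT.exists fun g₁ => IsT.exists fun g₂ =>
    isT_exFam hN fun k₁ h₁ a ha => isT_exFam (hN.mono h₁) fun k₂ h₂ b hb =>
    isT_exFam (hN.mono (h₁.trans h₂)) fun k₃ h₃ A hA' =>
    isT_exFam (hN.mono (h₁.trans (h₂.trans h₃))) fun k₄ h₄ B hB' => ?_
  have hk : k ≤ k₄ := h₁.trans (h₂.trans (h₃.trans h₄))
  replace hN := hN.mono hk
  have hp := fun i => (hp i).mono hk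
  have hc := fun j => (hc j).mono hk
  have ha := fun j => (ha j).mono (h₂.trans (h₃.trans h₄))
  have hb := fun j => (hb j).mono (h₃.trans h₄)
  have hA' := fun j => (hA' j).mono h₄
  refine (isT_all fun j => (IsT.eq (hc j) (IsE.const 0)).or
    ((isT_lk hN (IsE.const 0) (ha j) (hA' j)).and ((isT_lk hN (IsE.const 1) (hb j) (hB' j)).and
      ((hA _ _ _ _ _ _ hN (ha j) hp).and (hB _ _ _ _ _ _ hN (hb j) hp))))).and
    (isT_all fun k => IsT.eq (isE_sum _ _ fun j => ((hc j).mul (hA' j)).mul (hB' j))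
      (isE_sum _ _ fun j => ((hc j).mul (hA' j)).mul (hB' j)))

theorem exp_sum {ℓ : ℕ} (hD : Dec ℓ) (V J : Type) [Fintype V] [DecidableEq V] [Fintype J]
    [DecidableEq J] (α β : J → Tm V) (hα : ∀ j, Lv ℓ (α j)) (hβ : ∀ j, Lv ℓ (β j))
    (sg : J → Bool) (D : ℕ) :
    ∃ (K₀ : ℕ) (Ψ : ℕ → List Bool → (V → ℕ) → (J → ℕ) → Prop),
      (∀ (k : ℕ) (N : (ℕ → ℕ) → ℕ) (p : V → (ℕ → ℕ) → ℕ) (c : J → (ℕ → ℕ) → ℕ), IsE k N →
        (∀ i, IsE k (p i)) → (∀ j, IsE k (c j)) →
        IsT k (fun w env => Ψ (N env) w (fun i => p i env) (fun j => c j env))) ∧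
      ∀ K ≥ K₀, ∀ (z w : List Bool), Good ((z.length + 3) ^ K) w z → ∀ (p : V → ℕ) (c : J → ℕ),
        (∀ i, p i ≤ z.length + 1 ∧ Can (W z (p i))) →
        (∀ j, c j ≤ ((K + 1) * (z.length + 3)) ^ D) →
        (Ψ ((z.length + 3) ^ K) w p c ↔
          ∑ j with sg j = true, c j * 2 ^ (α j).val (fun i => wval (W z (p i))) *
            3 ^ (β j).val (fun i => wval (W z (p i))) =
          ∑ j with sg j = false, c j * 2 ^ (α j).val (fun i => wval (W z (p i))) *
            3 ^ (β j).val (fun i => wval (W z (p i)))) := by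
  classical
  choose KA ΦA hA1 hA2 using fun i j => hD V (α i) (α j) (hα i) (hα j)
  choose KB ΦB hB1 hB2 using fun i j => hD V (β i) (β j) (hβ i) (hβ j)
  obtain ⟨C, hC⟩ := su_dec J
  obtain ⟨K₁, hK₁⟩ := big_K ((D + 1) * C)
  refine ⟨K₁ + (Finset.univ.sup fun i => Finset.univ.sup fun j => KA i j) +
    (Finset.univ.sup fun i => Finset.univ.sup fun j => KB i j), psi ΦA ΦB sg, ?_, ?_⟩
  · intro k N p c hN hp hc
    exact isT_psi hA1 hB1 hN hp hc
  intro K hK z w hg p c hp hc
  have hKA : ∀ i j, KA i j ≤ K := by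
    intro i j
    have h1 : KA i j ≤ Finset.univ.sup fun j => KA i j :=
      Finset.le_sup (f := fun j => KA i j) (Finset.mem_univ j)
    have h2 : (Finset.univ.sup fun j => KA i j) ≤
        Finset.univ.sup fun i => Finset.univ.sup fun j => KA i j :=
      Finset.le_sup (f := fun i => Finset.univ.sup fun j => KA i j) (Finset.mem_univ i)
    omega
  have hKB : ∀ i j, KB i j ≤ K := by
    intro i j
    have h1 : KB i j ≤ Finset.univ.sup fun j => KB i j :=
      Finset.le_sup (f := fun j => KB i j) (Finset.mem_univ j)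
    have h2 : (Finset.univ.sup fun j => KB i j) ≤
        Finset.univ.sup fun i => Finset.univ.sup fun j => KB i j :=
      Finset.le_sup (f := fun i => Finset.univ.sup fun j => KB i j) (Finset.mem_univ i)
    omega
  have hK1 : K₁ ≤ K := by omega
  have hN := hg.hN
  set n := z.length with hn
  set N := (n + 3) ^ K with hNdef
  set ρ : V → ℕ := fun i => wval (W z (p i)) with hρ
  set x : J → ℕ := fun j => (α j).val ρ with hx
  set y : J → ℕ := fun j => (β j).val ρ with hy
  have hA2' : ∀ i j m, 2 ^ m < N → (ΦA i j N w p m ↔ x i + m = x j) := fun i j m hm =>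
    hA2 i j K (hKA i j) z w hg p m hp hm
  have hB2' : ∀ i j m, 2 ^ m < N → (ΦB i j N w p m ↔ y i + m = y j) := fun i j m hm =>
    hB2 i j K (hKB i j) z w hg p m hp hm
  -- the common identity
  have key : ∀ (f g₁ g₂ : J → J) (a b : J → ℕ), (∀ j, c j = 0 ∨ (x (g₁ (f j)) + a j = x j ∧
      y (g₂ (f j)) + b j = y j)) → ∀ k,
      ∑ j ∈ Finset.univ.filter (fun j => f j = k), (if sg j = true then
        ((c j * 2 ^ x j * 3 ^ y j : ℕ) : ℤ) else -((c j * 2 ^ x j * 3 ^ y j : ℕ) : ℤ)) =
      2 ^ x (g₁ k) * 3 ^ y (g₂ k) * ∑ j ∈ Finset.univ.filter (fun j => f j = k),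
        (if sg j = true then ((c j * 2 ^ a j * 3 ^ b j : ℕ) : ℤ) else
          -((c j * 2 ^ a j * 3 ^ b j : ℕ) : ℤ)) := by
    intro f g₁ g₂ a b h k
    rw [Finset.mul_sum]
    refine Finset.sum_congr rfl fun j hj => ?_
    rw [Finset.mem_filter] at hj
    have hjk := hj.2
    subst hjk
    rcases h j with h0 | ⟨h1, h2⟩
    · rw [h0]
      simp
    · rw [← h1, ← h2]
      split_ifs
      · push_cast
        ring
      · push_cast
        ring
  have hfib : ∀ (f : J → J) (g : J → ℤ), ∑ j, g j =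
      ∑ k, ∑ j ∈ Finset.univ.filter (fun j => f j = k), g j := fun f g =>
    (Finset.sum_fiberwise Finset.univ f g).symm
  show psi ΦA ΦB sg N w p c ↔ ∑ j with sg j = true, c j * 2 ^ x j * 3 ^ y j =
    ∑ j with sg j = false, c j * 2 ^ x j * 3 ^ y j
  rw [sgn_sum]
  constructor
  · rintro ⟨f, g₁, g₂, a, ha, b, hb, A, hA, B, hB, h1, h2⟩
    have h1' : ∀ j, c j = 0 ∨ (A j = 2 ^ a j ∧ B j = 3 ^ b j ∧ x (g₁ (f j)) + a j = x j ∧
        y (g₂ (f j)) + b j = y j) := by
      intro j
      rcases h1 j with h | ⟨h3, h4, h5, h6⟩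
      · exact Or.inl h
      · right
        have h3' := (hg.h0 _ (ha j) _ (hA j)).1 h3
        have h4' := (hg.h1 _ (hb j) _ (hB j)).1 h4
        have h7 : 2 ^ a j < N := h3' ▸ hA j
        have h8 : 2 ^ b j < N := by
          have h9 : 3 ^ b j < N := h4' ▸ hB j
          have h10 : 2 ^ b j ≤ 3 ^ b j := Nat.pow_le_pow_left (by norm_num) _
          omega
        exact ⟨h3', h4', (hA2' _ _ _ h7).1 h5, (hB2' _ _ _ h8).1 h6⟩
    rw [hfib f]
    refine Finset.sum_eq_zero fun k _ => ?_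
    rw [key f g₁ g₂ a b (fun j => (h1' j).imp id fun h => h.2.2) k]
    have h3 := (sgn_sum _ sg _).1 (h2 k)
    have h4 : ∑ j ∈ Finset.univ.filter (fun j => f j = k), (if sg j = true then
        ((c j * 2 ^ a j * 3 ^ b j : ℕ) : ℤ) else -((c j * 2 ^ a j * 3 ^ b j : ℕ) : ℤ)) = 0 := by
      rw [← h3]
      refine Finset.sum_congr rfl fun j _ => ?_
      rcases h1' j with h0 | ⟨h5, h6, -, -⟩
      · rw [h0]
        simp
      · rw [h5, h6]
    rw [h4, mul_zero]
  · intro hsum
    set M := ((K + 1) * (n + 3)) ^ (D + 1) with hM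
    have hx3 : 2 ≤ (K + 1) * (n + 3) := by nlinarith
    have hM2 : 2 ≤ M := by
      calc 2 ≤ (K + 1) * (n + 3) := hx3
        _ = ((K + 1) * (n + 3)) ^ 1 := (pow_one _).symm
        _ ≤ M := Nat.pow_le_pow_right (by omega) (by omega)
    have hMC : M ^ C < N := by
      rw [hM, ← pow_mul]
      exact hK₁ K hK1 (n + 3) (by omega)
    have hcM : ∀ j, c j ≤ M := fun j => (hc j).trans
      (Nat.pow_le_pow_right (by omega) (by omega))
    obtain ⟨f, f1, f2⟩ := hC M (fun j => if sg j = true then (c j : ℤ) else -(c j : ℤ)) x y hM2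
      (by
        intro j
        have := hcM j
        split_ifs
        · rw [abs_le]
          constructor <;> omega
        · rw [abs_le]
          constructor <;> omega) (by
        rw [← hsum]
        refine Finset.sum_congr rfl fun j _ => ?_
        split_ifs <;> push_cast <;> ring)
    have hcne : ∀ j, (if sg j = true then (c j : ℤ) else -(c j : ℤ)) ≠ 0 ↔ c j ≠ 0 := by
      intro j
      split_ifs <;> simp
    have hg1 : ∀ k, ∃ g, ∀ j, f j = k → c j ≠ 0 → f g = k ∧ c g ≠ 0 ∧ x g ≤ x j := by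
      intro k
      by_cases he : ∃ j, f j = k ∧ c j ≠ 0
      · have hne : (Finset.univ.filter fun j => f j = k ∧ c j ≠ 0).Nonempty := by
          obtain ⟨j, hj⟩ := he
          exact ⟨j, by simpa using hj⟩
        obtain ⟨g, hg, hmin⟩ := Finset.exists_min_image _ x hne
        refine ⟨g, fun j hj hcj => ?_⟩
        have h1 : f g = k ∧ c g ≠ 0 := by simpa using hg
        exact ⟨h1.1, h1.2, hmin j (by simpa using ⟨hj, hcj⟩)⟩
      · exact ⟨k, fun j hj hcj => absurd ⟨j, hj, hcj⟩ he⟩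
    have hg2 : ∀ k, ∃ g, ∀ j, f j = k → c j ≠ 0 → f g = k ∧ c g ≠ 0 ∧ y g ≤ y j := by
      intro k
      by_cases he : ∃ j, f j = k ∧ c j ≠ 0
      · have hne : (Finset.univ.filter fun j => f j = k ∧ c j ≠ 0).Nonempty := by
          obtain ⟨j, hj⟩ := he
          exact ⟨j, by simpa using hj⟩
        obtain ⟨g, hg, hmin⟩ := Finset.exists_min_image _ y hne
        refine ⟨g, fun j hj hcj => ?_⟩
        have h1 : f g = k ∧ c g ≠ 0 := by simpa using hg
        exact ⟨h1.1, h1.2, hmin j (by simpa using ⟨hj, hcj⟩)⟩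
      · exact ⟨k, fun j hj hcj => absurd ⟨j, hj, hcj⟩ he⟩
    choose g₁ hg₁ using hg1
    choose g₂ hg₂ using hg2
    set a : J → ℕ := fun j => if c j = 0 then 0 else x j - x (g₁ (f j)) with ha
    set b : J → ℕ := fun j => if c j = 0 then 0 else y j - y (g₂ (f j)) with hb
    have hab : ∀ j, c j = 0 ∨ (x (g₁ (f j)) + a j = x j ∧ y (g₂ (f j)) + b j = y j) := by
      intro j
      by_cases h0 : c j = 0
      · exact Or.inl h0
      · right
        have h1 := hg₁ (f j) j rfl h0
        have h2 := hg₂ (f j) j rfl h0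
        simp only [ha, hb, if_neg h0]
        omega
    have h2a : ∀ j, 2 ^ a j < N := by
      intro j
      by_cases h0 : c j = 0
      · simp only [ha, if_pos h0, pow_zero]
        omega
      · have h1 := hg₁ (f j) j rfl h0
        have h3 := (f2 j (g₁ (f j)) ((hcne j).2 h0) ((hcne _).2 h1.2.1) h1.1.symm).1
        have h4 : x (g₁ (f j)) + a j = x j := by
          simp only [ha, if_neg h0]
          omega
        rw [← h4, pow_add, mul_comm] at h3
        have := Nat.le_of_mul_le_mul_right h3 (by positivity)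
        omega
    have h3b : ∀ j, 3 ^ b j < N := by
      intro j
      by_cases h0 : c j = 0
      · simp only [hb, if_pos h0, pow_zero]
        omega
      · have h1 := hg₂ (f j) j rfl h0
        have h3 := (f2 j (g₂ (f j)) ((hcne j).2 h0) ((hcne _).2 h1.2.1) h1.1.symm).2
        have h4 : y (g₂ (f j)) + b j = y j := by
          simp only [hb, if_neg h0]
          omega
        rw [← h4, pow_add, mul_comm] at h3
        have := Nat.le_of_mul_le_mul_right h3 (by positivity)
        omega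
    have h2b : ∀ j, 2 ^ b j < N := by
      intro j
      have h10 : 2 ^ b j ≤ 3 ^ b j := Nat.pow_le_pow_left (by norm_num) _
      have := h3b j
      omega
    have haN : ∀ j, a j < N := fun j => Nat.lt_two_pow_self.trans (h2a j)
    have hbN : ∀ j, b j < N := fun j => Nat.lt_two_pow_self.trans (h2b j)
    refine ⟨f, g₁, g₂, a, haN, b, hbN, fun j => 2 ^ a j, h2a, fun j => 3 ^ b j, h3b,
      fun j => ?_, fun k => ?_⟩
    · rcases hab j with h0 | ⟨h1, h2⟩
      · exact Or.inl h0
      · right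
        exact ⟨(hg.h0 _ (haN j) _ (h2a j)).2 rfl, (hg.h1 _ (hbN j) _ (h3b j)).2 rfl,
          (hA2' _ _ _ (h2a j)).2 h1, (hB2' _ _ _ (h2b j)).2 h2⟩
    · rw [sgn_sum]
      have h1 := key f g₁ g₂ a b hab k
      have h2 : ∑ j ∈ Finset.univ.filter (fun j => f j = k), (if sg j = true then
          ((c j * 2 ^ x j * 3 ^ y j : ℕ) : ℤ) else -((c j * 2 ^ x j * 3 ^ y j : ℕ) : ℤ)) = 0 := by
        rw [← f1 k]
        refine Finset.sum_congr rfl fun j _ => ?_
        split_ifs <;> push_cast <;> ring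
      rw [h2] at h1
      have h3 : (2 : ℤ) ^ x (g₁ k) * 3 ^ y (g₂ k) ≠ 0 := by positivity
      exact (mul_eq_zero.1 h1.symm).resolve_left h3

end expsum

section lead

/-- The leading letters of a word. -/
def lead (h : Hd) (N : ℕ) (w : List Bool) (p s : ℕ) : Prop :=
  runS N w p s ∧ match h with
    | .n => en N w (p + 4 * s)
    | .t => rT N w (p + 4 * s)
    | .h => rH N w (p + 4 * s)

/-- The position after the leading letters. -/
def tpos (h : Hd) (p s : ℕ) : ℕ :=
  match h with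
  | .n => p + 4 * s
  | .t => p + 4 * (s + 1)
  | .h => p + 4 * (s + 1)

theorem isT_lead (h : Hd) {k : ℕ} {N p s : (ℕ → ℕ) → ℕ} (hN : IsE k N) (hp : IsE k p)
    (hs : IsE k s) : IsT k (fun w env => lead h (N env) w (p env) (s env)) := by
  have h4 := hp.add ((IsE.const 4).mul hs)
  cases h with
  | n => exact (isT_runS hN hp hs).and (isT_en hN h4)
  | t => exact (isT_runS hN hp hs).and (isT_rT hN h4)
  | h => exact (isT_runS hN hp hs).and (isT_rH hN h4)

theorem isE_tpos (h : Hd) {k : ℕ} {p s : (ℕ → ℕ) → ℕ} (hp : IsE k p)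
    (hs : IsE k s) : IsE k (fun env => tpos h (p env) (s env)) := by
  cases h with
  | n => exact hp.add ((IsE.const 4).mul hs)
  | t => exact hp.add ((IsE.const 4).mul (hs.add (IsE.const 1)))
  | h => exact hp.add ((IsE.const 4).mul (hs.add (IsE.const 1)))

theorem can_replicate {s : ℕ} {u : List Ltr} (h : Can (List.replicate s .S ++ u)) : Can u := by
  induction s with
  | zero => simpa using h
  | succ s ih =>
    rw [List.replicate_succ, List.cons_append] at h
    exact ih h.tail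

theorem lead_sound {N : ℕ} {w z : List Bool} (hg : Good N w z) {h : Hd} {p s : ℕ}
    (hp : p ≤ z.length + 1) (hc : Can (W z p)) (hl : lead h N w p s) :
    s ≤ z.length ∧ tpos h p s ≤ z.length + 1 ∧ Can (W z (tpos h p s)) ∧
      wval (W z p) = s + h.val (wval (W z (tpos h p s))) := by
  have hN := hg.hN
  obtain ⟨h1, h2⟩ := hl
  obtain ⟨h3, h4⟩ := runS_sound hg s p hp h1
  have h5 : s ≤ (W z p).length := by
    rw [h4, List.length_append, List.length_replicate]
    omega
  have h6 := W_length z p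
  rw [h4] at hc
  have h7 := can_replicate hc
  refine ⟨by omega, ?_⟩
  rw [h4, wval_replicate]
  cases h with
  | n => 
    have h8 : ltr z (p + 4 * s) = none := (en_iff hg h3).1 h2
    refine ⟨h3, h7, ?_⟩
    rw [W_none h8]
    rfl
  | t =>
    have h8 : ltr z (p + 4 * s) = some .T := (rT_iff hg.h6 (by omega)).1 h2
    have h9 := ltr_lt h8
    have h10 : tpos .t p s = p + 4 * s + 4 := by
      simp only [tpos]
      ring
    rw [h10]
    rw [W_some h8] at h7 ⊢
    exact ⟨by omega, h7.tail, rfl⟩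
  | h =>
    have h8 : ltr z (p + 4 * s) = some .H := (rH_iff hg.h6 (by omega)).1 h2
    have h9 := ltr_lt h8
    have h10 : tpos .h p s = p + 4 * s + 4 := by
      simp only [tpos]
      ring
    rw [h10]
    rw [W_some h8] at h7 ⊢
    exact ⟨by omega, h7.tail, rfl⟩

theorem lead_exists {N : ℕ} {w z : List Bool} (hg : Good N w z) {p : ℕ}
    (hp : p ≤ z.length + 1) : ∃ h s, s < N ∧ lead h N w p s := by
  have hN := hg.hN
  have h1 := eq_cnt_strip (W z p)
  obtain ⟨h2, h3, h4⟩ := runS_complete hg _ _ _ hp h1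
  have h5 := cnt_le (W z p)
  have h6 := W_length z p
  have hlt : cnt (W z p) < N := by omega
  have h7 : ∀ l u, W z (p + 4 * cnt (W z p)) = l :: u → ltr z (p + 4 * cnt (W z p)) = some l := by
    intro l u hu
    cases h' : ltr z (p + 4 * cnt (W z p)) with
    | none =>
      rw [W_none h'] at hu
      exact absurd hu (by simp)
    | some l' =>
      rw [W_some h'] at hu
      rw [(List.cons.inj hu).1]
  rcases strip_cases (W z p) with h8 | ⟨u, h8⟩ | ⟨u, h8⟩
  · refine ⟨.n, _, hlt, h2, ?_⟩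
    show en N w _
    rw [en_iff hg h3]
    cases h' : ltr z (p + 4 * cnt (W z p)) with
    | none => rfl
    | some l' =>
      rw [W_some h', h8] at h4
      exact absurd h4 (by simp)
  · refine ⟨.t, _, hlt, h2, ?_⟩
    exact (rT_iff hg.h6 (by omega)).2 (h7 _ _ (h4.trans h8))
  · refine ⟨.h, _, hlt, h2, ?_⟩
    exact (rH_iff hg.h6 (by omega)).2 (h7 _ _ (h4.trans h8))

end lead

/-- Coefficient of an item. -/
def cf {V T : Type} (L : List (List V × T)) (s : V → ℕ) (i : Fin L.length) : ℕ :=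
  ((L.get i).1.map s).prod

theorem cf_le {V T : Type} (L : List (List V × T)) {s : V → ℕ} {x : ℕ} (hx : 1 ≤ x)
    (hs : ∀ i, s i ≤ x) (i : Fin L.length) {D : ℕ} (hD : (L.map fun a => a.1.length).sum ≤ D) :
    cf L s i ≤ x ^ D := by
  have h1 : ∀ l : List V, (l.map s).prod ≤ x ^ l.length := by
    intro l
    induction l with
    | nil => simp
    | cons a l ih =>
      rw [List.map_cons, List.prod_cons, List.length_cons, pow_succ, mul_comm]
      exact Nat.mul_le_mul ih (hs a)
  have h2 : (L.get i).1.length ≤ (L.map fun a => a.1.length).sum := by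
    apply List.single_le_sum (by simp)
    rw [List.mem_map]
    exact ⟨_, List.get_mem L i, rfl⟩
  exact (h1 _).trans (Nat.pow_le_pow_right (by omega) (h2.trans hD))

theorem cf_sum {V : Type} (L : List (List V × Tm (V ⊕ V) × Tm (V ⊕ V))) (s : V → ℕ)
    (ρ : V ⊕ V → ℕ) : ∑ i, cf L s i * 2 ^ (L.get i).2.1.val ρ * 3 ^ (L.get i).2.2.val ρ =
      (L.map (itv s ρ)).sum := by
  rw [← Fin.sum_univ_fun_getElem L (itv s ρ)]
  rfl

/-- Coefficients of the equation. -/
def cc {V T : Type} (L₁ L₂ : List (List V × T)) (s : V → ℕ) (m : ℕ) :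
    Fin L₁.length ⊕ (Unit ⊕ Fin L₂.length) → ℕ :=
  Sum.elim (cf L₁ s) (Sum.elim (fun _ => m) (cf L₂ s))

theorem dec_succ {ℓ : ℕ} (hD : Dec ℓ) : Dec (ℓ + 1) := by
  classical
  intro V _ _ t t' ht ht'
  -- for fixed heads
  have H : ∀ τ : V → Hd, ∃ (K₀ : ℕ) (Ψ : ℕ → List Bool → (V ⊕ V → ℕ) →
      (Fin (ex τ t).length ⊕ (Unit ⊕ Fin (ex τ t').length) → ℕ) → Prop),
      (∀ (k : ℕ) (N : (ℕ → ℕ) → ℕ) (p : V ⊕ V → (ℕ → ℕ) → ℕ)
        (c : Fin (ex τ t).length ⊕ (Unit ⊕ Fin (ex τ t').length) → (ℕ → ℕ) → ℕ), IsE k N →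
        (∀ i, IsE k (p i)) → (∀ j, IsE k (c j)) →
        IsT k (fun w env => Ψ (N env) w (fun i => p i env) (fun j => c j env))) ∧
      ∀ K ≥ K₀, ∀ (z w : List Bool), Good ((z.length + 3) ^ K) w z →
        ∀ (p q s : V → ℕ) (m : ℕ),
        (∀ i, p i ≤ z.length + 1 ∧ Can (W z (p i))) →
        (∀ i, q i ≤ z.length + 1 ∧ Can (W z (q i))) → (∀ i, s i ≤ z.length) →
        (∀ i, wval (W z (p i)) = s i + (τ i).val (wval (W z (q i)))) →
        2 ^ m < (z.length + 3) ^ K →
        (Ψ ((z.length + 3) ^ K) w (Sum.elim p q) (cc (ex τ t) (ex τ t') s m) ↔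
          t.val (fun i => wval (W z (p i))) + m = t'.val (fun i => wval (W z (p i)))) := by
    intro τ
    set L₁ := ex τ t with hL₁
    set L₂ := ex τ t' with hL₂
    obtain ⟨K₀, Ψ, h1, h2⟩ := exp_sum hD (V ⊕ V) (Fin L₁.length ⊕ (Unit ⊕ Fin L₂.length))
      (Sum.elim (fun i => (L₁.get i).2.1) (Sum.elim (fun _ => .zero) (fun i => (L₂.get i).2.1)))
      (Sum.elim (fun i => (L₁.get i).2.2) (Sum.elim (fun _ => .zero) (fun i => (L₂.get i).2.2)))
      (by
        rintro (i | i | i)
        · exact (ex_lv τ ht _ (List.get_mem L₁ i)).1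
        · exact Lv.zero _
        · exact (ex_lv τ ht' _ (List.get_mem L₂ i)).1)
      (by
        rintro (i | i | i)
        · exact (ex_lv τ ht _ (List.get_mem L₁ i)).2
        · exact Lv.zero _
        · exact (ex_lv τ ht' _ (List.get_mem L₂ i)).2)
      (Sum.elim (fun _ => true) (Sum.elim (fun _ => true) (fun _ => false)))
      ((L₁.map fun a => a.1.length).sum + (L₂.map fun a => a.1.length).sum + 1)
    refine ⟨K₀, Ψ, h1, ?_⟩
    intro K hK z w hg p q s m hp hq hs hτ hm
    have hlog := log_bound hm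
    have hx : 1 ≤ (K + 1) * (z.length + 3) := by nlinarith
    have hsx : ∀ i, s i ≤ (K + 1) * (z.length + 3) := by
      intro i
      have := hs i
      nlinarith
    have hmx : m ≤ (K + 1) * (z.length + 3) := by
      rw [add_mul]
      omega
    rw [h2 K hK z w hg (Sum.elim p q) (cc L₁ L₂ s m) (by
        rintro (i | i)
        · exact hp i
        · exact hq i) (by
        rintro (i | i | i)
        · exact cf_le L₁ hx hsx i (by omega)
        · show m ≤ _
          calc m ≤ ((K + 1) * (z.length + 3)) ^ 1 := by rw [pow_one]; exact hmx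
            _ ≤ _ := Nat.pow_le_pow_right hx (by omega)
        · exact cf_le L₂ hx hsx i (by omega))]
    rw [Finset.sum_filter, Finset.sum_filter]
    simp only [Fintype.sum_sum_type, Sum.elim_inl, Sum.elim_inr, cc, if_true, Finset.sum_const,
      Finset.card_univ, Fintype.card_unit, Tm.val, pow_zero, mul_one, one_smul, reduceCtorEq,
      if_false, Finset.sum_const_zero, add_zero, zero_add]
    have e1 := ex_sum τ s (fun i => wval (W z (p i))) (fun i => wval (W z (q i))) hτ t
    have e2 := ex_sum τ s (fun i => wval (W z (p i))) (fun i => wval (W z (q i))) hτ t'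
    have e3 : (fun i => wval (W z (Sum.elim p q i))) =
        Sum.elim (fun i => wval (W z (p i))) (fun i => wval (W z (q i))) := by
      funext i
      rcases i with i | i <;> rfl
    rw [← e1, ← e2, ← hL₁, ← hL₂, ← cf_sum, ← cf_sum, e3]
    simp
  choose K₀ Ψ hΨ1 hΨ2 using H
  refine ⟨Finset.univ.sup K₀, fun N w p m => ∃ τ : V → Hd, ∃ s : V → ℕ, (∀ i, s i < N) ∧
    ((∀ i, lead (τ i) N w (p i) (s i)) ∧
    Ψ τ N w (Sum.elim p fun i => tpos (τ i) (p i) (s i)) (cc (ex τ t) (ex τ t') s m)), ?_, ?_⟩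
  · intro k N m p hN hm hp
    refine IsT.exists fun τ => isT_exFam hN fun k₁ h₁ s hs => ?_
    have hp' := fun i => (hp i).mono h₁
    have hN' := hN.mono h₁
    have hm' := hm.mono h₁
    refine (isT_all fun i => isT_lead (τ i) hN' (hp' i) (hs i)).and ?_
    refine (hΨ1 τ k₁ N (Sum.elim p fun i => fun env => tpos (τ i) (p i env) (s i env))
      (Sum.elim (fun i => fun env => cf (ex τ t) (fun i => s i env) i) (Sum.elim (fun _ => m)
        (fun i => fun env => cf (ex τ t') (fun i => s i env) i))) hN' ?_ ?_).congr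
      fun w env => ?_
    · rintro (i | i)
      · exact hp' i
      · exact isE_tpos (τ i) (hp' i) (hs i)
    · rintro (i | i | i)
      · exact isE_prod _ s hs
      · exact hm'
      · exact isE_prod _ s hs
    · have e1 : (Sum.elim (fun i => p i env) fun i => tpos (τ i) (p i env) (s i env)) =
          fun i => (Sum.elim p (fun i => fun env => tpos (τ i) (p i env) (s i env)) :
            V ⊕ V → (ℕ → ℕ) → ℕ) i env := by
        funext i
        rcases i with i | i <;> rfl
      have e2 : cc (ex τ t) (ex τ t') (fun i => s i env) (m env) =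
          fun j => (Sum.elim (fun i => fun env => cf (ex τ t) (fun i => s i env) i)
            (Sum.elim (fun _ => m) (fun i => fun env => cf (ex τ t') (fun i => s i env) i)) :
            Fin (ex τ t).length ⊕ (Unit ⊕ Fin (ex τ t').length) → (ℕ → ℕ) → ℕ) j env := by
        funext j
        rcases j with j | j | j <;> rfl
      rw [e1, e2]
  · intro K hK z w hg p m hp hm
    have hKτ : ∀ τ, K₀ τ ≤ K := fun τ =>
      (Finset.le_sup (f := K₀) (Finset.mem_univ τ)).trans hK
    constructor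
    · rintro ⟨τ, s, hs, h1, h2⟩
      have h3 := fun i => lead_sound hg (hp i).1 (hp i).2 (h1 i)
      exact (hΨ2 τ K (hKτ τ) z w hg p (fun i => tpos (τ i) (p i) (s i)) s m hp
        (fun i => ⟨(h3 i).2.1, (h3 i).2.2.1⟩) (fun i => (h3 i).1) (fun i => (h3 i).2.2.2)
        hm).1 h2
    · intro h
      choose τ s hs h1 using fun i => lead_exists hg (hp i).1
      have h3 := fun i => lead_sound hg (hp i).1 (hp i).2 (h1 i)
      exact ⟨τ, s, hs, h1, (hΨ2 τ K (hKτ τ) z w hg p (fun i => tpos (τ i) (p i) (s i)) s m hp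
        (fun i => ⟨(h3 i).2.1, (h3 i).2.2.1⟩) (fun i => (h3 i).1) (fun i => (h3 i).2.2.2)
        hm).2 h⟩

theorem dec_all (ℓ : ℕ) : Dec ℓ := by
  induction ℓ with
  | zero => exact dec_zero
  | succ ℓ ih => exact dec_succ ih

/-- Every equation between terms has a test. -/
theorem eq_test (V : Type) [Fintype V] [DecidableEq V] (t t' : Tm V) :
    ∃ (K₀ : ℕ) (Φ : ℕ → List Bool → (V → ℕ) → Prop),
      (∀ (k : ℕ) (N : (ℕ → ℕ) → ℕ) (p : V → (ℕ → ℕ) → ℕ), IsE k N →
        (∀ i, IsE k (p i)) → IsT k (fun w env => Φ (N env) w (fun i => p i env))) ∧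
      ∀ K ≥ K₀, ∀ (z w : List Bool), Good ((z.length + 3) ^ K) w z → ∀ (p : V → ℕ),
        (∀ i, p i ≤ z.length + 1 ∧ Can (W z (p i))) →
        (Φ ((z.length + 3) ^ K) w p ↔
          t.val (fun i => wval (W z (p i))) = t'.val (fun i => wval (W z (p i)))) := by
  obtain ⟨ℓ, h1⟩ := exists_lv t
  obtain ⟨ℓ', h2⟩ := exists_lv t'
  obtain ⟨K₀, Φ, h3, h4⟩ := dec_all (ℓ + ℓ') V t t' (h1.mono (by omega)) (h2.mono (by omega))
  refine ⟨K₀, fun N w p => Φ N w p 0, fun k N p hN hp => h3 k N (fun _ => 0) p hN (IsE.const 0) hp,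
    fun K hK z w hg p hp => ?_⟩
  have hN := hg.hN
  have := h4 K hK z w hg p 0 hp (by rw [pow_zero]; omega)
  rw [add_zero] at this
  exact this

end PT21
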