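import Pool.Agent.PT21.Names

/-!
# The set of names is decidable in polynomial time
-/

set_option autoImplicit false

namespace PT21

open Pool.Agent.PTL

theorem flatMap_range {α : Type} (x : List Bool) (f : Bool → List α) :
    x.flatMap f = (List.range x.length).flatMap fun i => f (x.getD i false) := by
  induction x with
  | nil => rfl
  | cons b x ih =>
    rw [List.flatMap_cons, List.length_cons, List.range_succ_eq_map, List.flatMap_cons,
      List.flatMap_map, ih]
    rfl

theorem ptc_tup : PTC (fun x => tup [x]) := by
  have h := PTC.of (F := fun w L => ((List.range L).flatMap fun i =>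
    [true] ++ cif (w.getD i false = true) [true] [false]) ++ ([false] ++ [false])) fun k L hL =>
      (IsP.loop (G := fun w _ i => [true] ++ cif (w.getD i false = true) [true] [false]) hL
        fun k' _ y hy => (IsP.emit true).append
          (isP_cif (IsT.bit hy) (IsP.emit true) (IsP.emit false))).append
        ((IsP.emit false).append (IsP.emit false))
  refine h.congr fun x => ?_
  rw [tup_cons, tup_nil]
  unfold dbl
  rw [flatMap_range]
  show _ = ((List.range x.length).flatMap fun i =>
    [true] ++ cif (x.getD i false = true) [true] [false]) ++ ([false] ++ [false])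
  congr 2
  funext i
  cases h : x.getD i false with
  | true => rw [cif_pos rfl]; rfl
  | false => rw [cif_neg (by simp)]; rfl

theorem lc_cases (b b' : Bool) : (∃ l, [b, b'] = lc l) ∨ (b = false ∧ b' = true) := by
  cases b <;> cases b'
  · exact Or.inl ⟨.S, rfl⟩
  · exact Or.inr ⟨rfl, rfl⟩
  · exact Or.inl ⟨.T, rfl⟩
  · exact Or.inl ⟨.H, rfl⟩

theorem lc_inj {l l' : Ltr} (h : lc l = lc l') : l = l' := by
  cases l <;> cases l' <;> first | rfl | (exact absurd h (by simp [lc]))

/-- Codes of words are recognised by one bit. -/
theorem enc_test : ∀ x : List Bool, (∃ u, x = enc u) ∨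
    (bt (tup [x]) (4 * (W (tup [x]) 0).length) = true ∧ ∀ u, x ≠ enc u)
  | [] => Or.inl ⟨[], rfl⟩
  | [b] => by
    right
    have h1 : ltr (tup [[b]]) 0 = none := by cases b <;> rfl
    rw [W_none h1]
    refine ⟨rfl, fun u hu => ?_⟩
    have := congrArg List.length hu
    rw [enc_length] at this
    simp at this
    omega
  | b :: b' :: x => by
    rcases lc_cases b b' with ⟨l, hl⟩ | ⟨rfl, rfl⟩
    · have h0 : b :: b' :: x = lc l ++ x := by rw [← hl]; rfl
      have h1 : tup [lc l ++ x] = dbl (lc l) ++ tup [x] := by
        rw [tup_cons, tup_cons, dbl_append, List.append_assoc]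
      have h2 : (dbl (lc l)).length = 4 := by cases l <;> rfl
      have h3 : W (dbl (lc l) ++ tup [x]) 0 = l :: W (tup [x]) 0 := by
        rw [W_some (ltr_lc l _)]
        have h4 := W_append (dbl (lc l)) (tup [x]) 0
        rw [h2] at h4
        rw [h4]
      rw [h0]
      rcases enc_test x with ⟨u, hu⟩ | ⟨h5, h6⟩
      · exact Or.inl ⟨l :: u, by rw [enc_cons, hu]⟩
      · right
        rw [h1, h3, List.length_cons]
        refine ⟨?_, ?_⟩
        · have h4 := bt_append (dbl (lc l)) (tup [x]) (4 * (W (tup [x]) 0).length)
          rw [h2] at h4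
          rw [show 4 * ((W (tup [x]) 0).length + 1) = 4 + 4 * (W (tup [x]) 0).length by ring, h4]
          exact h5
        · intro u hu
          cases u with
          | nil =>
            have := congrArg List.length hu
            rw [enc_nil] at this
            cases l <;> simp [lc] at this
          | cons l' u =>
            rw [enc_cons] at hu
            have h7 : (lc l).length = (lc l').length := by cases l <;> cases l' <;> rfl
            exact h6 u (List.append_inj hu h7).2
    · right
      have h1 : ltr (tup [false :: true :: x]) 0 = none := by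
        rw [tup_cons, dbl_cons, dbl_cons]
        rfl
      rw [W_none h1]
      refine ⟨rfl, fun u hu => ?_⟩
      cases u with
      | nil => exact absurd hu (by simp [enc])
      | cons l u =>
        rw [enc_cons] at hu
        cases l <;> simp [lc] at hu

theorem enc_iff (x : List Bool) : (∃ u, x = enc u) ↔
    bt (tup [x]) (4 * (W (tup [x]) 0).length) ≠ true := by
  constructor
  · rintro ⟨u, rfl⟩
    rw [W_tup, tup_cons, tup_nil]
    have h := bt_append (dbl (enc u)) [false, false] 0
    rw [dbl_length, enc_length, add_zero] at h
    rw [show 4 * u.length = 2 * (2 * u.length) by ring, h]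
    simp [bt]
  · intro h
    rcases enc_test x with h' | ⟨h', -⟩
    · exact h'
    · exact absurd h' h

theorem enc_inj {u v : List Ltr} (h : enc u = enc v) : u = v := by
  rw [← W_tup u, h, W_tup]

theorem nu_inj : Function.Injective nu := by
  intro m n h
  rw [← wval_nf m, enc_inj h, wval_nf]

theorem mem_range_nu (u : List Ltr) : enc u ∈ Set.range nu ↔ Can u := by
  constructor
  · rintro ⟨n, hn⟩
    rw [← enc_inj hn]
    exact can_nf n
  · intro h
    exact ⟨wval u, by rw [nu, nf_wval h]⟩

/-- Local test for canonical words. -/
def okp (N : ℕ) (w : List Bool) (q : ℕ) : Prop :=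
  (rH N w q → ¬ en N w (q + 4)) ∧
  (rS N w q → ¬ ∃ a < N, sp N w (q + 4) 0 a ∨ sp N w (q + 4) 1 a)

theorem isT_okp {k : ℕ} {N q : (ℕ → ℕ) → ℕ} (hN : IsE k N) (hq : IsE k q) :
    IsT k (fun w env => okp (N env) w (q env)) := by
  have h4 := hq.add (IsE.const 4)
  refine ((isT_rH hN hq).imp (isT_en hN h4).not).and ((isT_rS hN hq).imp
    (IsT.ex hN fun k₁ h₁ a ha => ?_).not)
  exact (isT_sp 0 (hN.mono h₁) (h4.mono h₁) ha).or (isT_sp 1 (hN.mono h₁) (h4.mono h₁) ha)

theorem ok_can {N : ℕ} {w z : List Bool} (hg : Good N w z)
    (hbig : ∀ p, IsPw (wval (W z p) + 1) → wval (W z p) + 1 < N) : ∀ (L p : ℕ),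
    p ≤ z.length + 1 → wl N w p L → ((∀ i < L, okp N w (p + 4 * i)) ↔ Can (W z p)) := by
  intro L
  have hN := hg.hN
  induction L with
  | zero =>
    intro p hp h
    have h1 := wl_sound hg 0 p hp h
    rw [List.length_eq_zero_iff.1 h1]
    exact ⟨fun _ => trivial, fun _ i hi => absurd hi (by omega)⟩
  | succ L ih =>
    intro p hp h
    have h1 := wl_sound hg _ p hp h
    cases hl : ltr z p with
    | none =>
      rw [W_none hl] at h1
      simp at h1
    | some l =>
      have h5 := ltr_lt hl
      rw [W_some hl, List.length_cons] at h1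
      have h6 : wl N w (p + 4) L := wl_complete hg L (p + 4) (by omega) (by omega)
      have h7 := ih (p + 4) (by omega) h6
      have h8 : (∀ i < L + 1, okp N w (p + 4 * i)) ↔
          okp N w p ∧ ∀ i < L, okp N w (p + 4 + 4 * i) := by
        constructor
        · intro h
          refine ⟨by simpa using h 0 (by omega), fun i hi => ?_⟩
          have := h (i + 1) (by omega)
          rwa [show p + 4 * (i + 1) = p + 4 + 4 * i by ring] at this
        · rintro ⟨h9, h10⟩ i hi
          cases i with
          | zero => simpa using h9
          | succ i =>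
            rw [show p + 4 * (i + 1) = p + 4 + 4 * i by ring]
            exact h10 i (by omega)
      rw [h8, h7, W_some hl]
      unfold okp
      rw [rH_iff hg.h6 (by omega), rS_iff hg.h6 (by omega), hl, en_iff hg (by omega)]
      cases l with
      | S =>
        have h9 : (∃ a < N, sp N w (p + 4) 0 a ∨ sp N w (p + 4) 1 a) ↔
            IsPw (wval (W z (p + 4)) + 1) := by
          constructor
          · rintro ⟨a, ha, h10 | h10⟩
            · exact Or.inl ⟨a, ((sp_iff0 hg (by omega) ha).1 h10).2⟩
            · exact Or.inr ⟨a, ((sp_iff1 hg (by omega) ha).1 h10).2⟩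
          · intro h10
            have h11 := hbig _ h10
            rcases h10 with ⟨a, ha⟩ | ⟨a, ha⟩
            · have h4 : a < 2 ^ a := Nat.lt_two_pow_self
              have haN : a < N := by omega
              exact ⟨a, haN, Or.inl ((sp_iff0 hg (by omega) haN).2 ⟨h11, ha⟩)⟩
            · have h4 : a < 3 ^ a := Nat.lt_pow_self (by norm_num)
              have haN : a < N := by omega
              exact ⟨a, haN, Or.inr ((sp_iff1 hg (by omega) haN).2 ⟨h11, ha⟩)⟩
        rw [h9]
        simp only [Can, reduceCtorEq, Option.some.injEq, false_implies, true_and, true_implies]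
        tauto
      | T =>
        simp only [Can, reduceCtorEq, Option.some.injEq, false_implies, true_and]
      | H =>
        have h9 : ltr z (p + 4) = none ↔ W z (p + 4) = [] := by
          constructor
          · exact W_none
          · intro h10
            cases h' : ltr z (p + 4) with
            | none => rfl
            | some l =>
              rw [W_some h'] at h10
              exact absurd h10 (by simp)
        rw [h9]
        simp only [Can, reduceCtorEq, Option.some.injEq, false_implies, true_implies, and_true]
        tauto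

/-- The set of names is decidable in polynomial time. -/
theorem pSet_range : PSet (Set.range nu) := by
  classical
  obtain ⟨C, hC⟩ := succ_pw
  obtain ⟨K₀, hK₀⟩ := big_K C
  obtain ⟨f, hf, hf'⟩ := frame (K := K₀ + 2) (by omega)
    (F := fun w N => cif (∃ L < N, (wl N w 0 L ∧ ¬ rb N w (4 * L)) ∧
      ∀ i < L, okp N w (4 * i)) [true] [false]) (by
      intro k N hN
      refine isP_cif (IsT.ex hN fun k₁ h₁ L hL => ?_) (IsP.emit true) (IsP.emit false)
      have hN' := hN.mono h₁
      refine ((isT_wl hN' (IsE.const 0) hL).and (isT_rb hN' ((IsE.const 4).mul hL)).not).and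
        (IsT.all hL fun k₂ h₂ i hi => ?_)
      exact isT_okp (hN'.mono h₂) ((IsE.const 4).mul hi))
  refine ⟨fun x => f (tup [x]), (hf.comp ptc_tup).polyTime, fun x => ?_⟩
  obtain ⟨w, hg, hfz⟩ := hf' (tup [x])
  beta_reduce
  rw [hfz]
  have hN := hg.hN
  set z := tup [x] with hz
  set N := (z.length + 3) ^ (K₀ + 2) with hNdef
  have hbig : ∀ p, IsPw (wval (W z p) + 1) → wval (W z p) + 1 < N := by
    intro p h
    have hl := W_length z p
    have hM : z.length + 3 ≤ (K₀ + 2 + 1) * (z.length + 3) :=
      Nat.le_mul_of_pos_left _ (by omega)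
    have h1 := hC ((K₀ + 2 + 1) * (z.length + 3)) (W z p) (by omega) (by omega) h
    exact h1.trans_lt (hK₀ (K₀ + 2) (by omega) _ (by omega))
  have hzl : z.length = 2 * x.length + 2 := by
    rw [hz, tup_cons, tup_nil, List.length_append, dbl_length]
    rfl
  have hmain : (∃ L < N, (wl N w 0 L ∧ ¬ rb N w (4 * L)) ∧ ∀ i < L, okp N w (4 * i)) ↔
      x ∈ Set.range nu := by
    have hWl := W_length z 0
    have h4L : ∀ L, wl N w 0 L → 4 * L ≤ z.length + 1 := by
      intro L hL
      by_cases h0 : L = 0
      · omega
      · have h1 := hL.1 (L - 1) (by omega)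
        by_contra hcon
        -- the letter before the end is inside the string
        have h2 : ∀ i < L, 4 * i + 2 < z.length := by
          intro i
          induction i with
          | zero =>
            intro hi
            have h3 := hL.1 0 hi
            rw [zero_add, en_iff hg (by omega)] at h3
            cases hl : ltr z (4 * 0) with
            | none => exact absurd hl h3
            | some l => exact ltr_lt hl
          | succ i ih =>
            intro hi
            have h4 := ih (by omega)
            have h3 := hL.1 (i + 1) hi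
            rw [zero_add, en_iff hg (by omega)] at h3
            cases hl : ltr z (4 * (i + 1)) with
            | none => exact absurd hl h3
            | some l => exact ltr_lt hl
        have h3 := h2 (L - 1) (by omega)
        omega
    constructor
    · rintro ⟨L, hLN, ⟨h1, h2⟩, h3⟩
      have h4 := wl_sound hg L 0 (by omega) h1
      have h5 := h4L L h1
      rw [hg.h6 (4 * L) (by omega), ← h4] at h2
      obtain ⟨u, hu⟩ := (enc_iff x).2 h2
      have h6 : W z 0 = u := by rw [hz, hu, W_tup]
      have h7 := (ok_can hg hbig L 0 (by omega) h1).1 (by simpa using h3)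
      rw [hu, mem_range_nu, ← h6]
      exact h7
    · intro hx
      obtain ⟨u, hu⟩ : ∃ u, x = enc u := by
        obtain ⟨n, hn⟩ := hx
        exact ⟨nf n, hn.symm⟩
      have h6 : W z 0 = u := by rw [hz, hu, W_tup]
      rw [hu, mem_range_nu, ← h6] at hx
      have h1 := wl_complete hg _ 0 (by omega) rfl
      have h5 := h4L _ h1
      have h2 := (enc_iff x).1 ⟨u, hu⟩
      refine ⟨(W z 0).length, by omega, ⟨h1, ?_⟩, ?_⟩
      · rw [hg.h6 _ (by omega)]
        exact h2
      · simpa using (ok_can hg hbig _ 0 (by omega) h1).2 hx
  constructor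
  · intro h
    rw [cif_pos (hmain.2 h)]
  · intro h
    rw [cif_neg (fun h' => h (hmain.1 h'))]

end PT21
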