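import Pool.Agent.PT21.SU2

/-!
# Canonical words
-/

set_option autoImplicit false

namespace PT21

/-- The three letters: successor, `2 ^ x`, `3 ^ x`. -/
inductive Ltr
  | S | T | H
  deriving DecidableEq

/-- The value of a word. -/
def wval : List Ltr → ℕ
  | [] => 0
  | .S :: u => wval u + 1
  | .T :: u => 2 ^ wval u
  | .H :: u => 3 ^ wval u

/-- Powers of `2` or `3`. -/
def IsPw (n : ℕ) : Prop := (∃ k, n = 2 ^ k) ∨ ∃ k, n = 3 ^ k

/-- Canonical words. -/
def Can : List Ltr → Prop
  | [] => True
  | .S :: u => Can u ∧ ¬ IsPw (wval u + 1)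
  | .T :: u => Can u
  | .H :: u => Can u ∧ u ≠ []

/-- The canonical word of a number. -/
def nf (n : ℕ) : List Ltr :=
  if h0 : n = 0 then [] else
  if n = 2 ^ Nat.log 2 n then .T :: nf (Nat.log 2 n) else
  if n = 3 ^ Nat.log 3 n then .H :: nf (Nat.log 3 n) else
  .S :: nf (n - 1)
termination_by n
decreasing_by
  · exact Nat.log_lt_self 2 h0
  · exact Nat.log_lt_self 3 h0
  · omega

theorem nf_zero : nf 0 = [] := by
  rw [nf]
  simp

theorem wval_nf (n : ℕ) : wval (nf n) = n := by
  induction n using Nat.strong_induction_on with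
  | _ n ih =>
    rw [nf]
    split_ifs with h0 h2 h3
    · rw [h0]
      rfl
    · rw [wval, ih _ (Nat.log_lt_self 2 h0)]
      exact h2.symm
    · rw [wval, ih _ (Nat.log_lt_self 3 h0)]
      exact h3.symm
    · rw [wval, ih _ (by omega)]
      omega

theorem log_pow2 (k : ℕ) : Nat.log 2 (2 ^ k) = k := Nat.log_pow (by norm_num) k

theorem log_pow3 (k : ℕ) : Nat.log 3 (3 ^ k) = k := Nat.log_pow (by norm_num) k

theorem three_pow_ne_two_pow {k j : ℕ} (hk : k ≠ 0) : 3 ^ k ≠ 2 ^ j := by
  intro h
  rcases Nat.eq_zero_or_pos j with hj | hj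
  · subst hj
    have : 1 < 3 ^ k := Nat.one_lt_pow hk (by norm_num)
    omega
  · have h1 : Odd (3 ^ k) := Odd.pow (by decide)
    have h2 : Even (2 ^ j) := (Nat.even_pow.2 ⟨even_two, by omega⟩)
    rw [h] at h1
    exact (Nat.not_odd_iff_even.2 h2) h1

theorem isPw_iff (n : ℕ) (hn : n ≠ 0) : IsPw n ↔ n = 2 ^ Nat.log 2 n ∨ n = 3 ^ Nat.log 3 n := by
  constructor
  · rintro (⟨k, rfl⟩ | ⟨k, rfl⟩)
    · left
      rw [log_pow2]
    · right
      rw [log_pow3]
  · rintro (h | h)
    · exact Or.inl ⟨_, h⟩
    · exact Or.inr ⟨_, h⟩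

theorem can_nf (n : ℕ) : Can (nf n) := by
  induction n using Nat.strong_induction_on with
  | _ n ih =>
    rw [nf]
    split_ifs with h0 h2 h3
    · exact trivial
    · exact ih _ (Nat.log_lt_self 2 h0)
    · refine ⟨ih _ (Nat.log_lt_self 3 h0), ?_⟩
      intro he
      have h4 := wval_nf (Nat.log 3 n)
      rw [he] at h4
      have h5 : Nat.log 3 n = 0 := h4.symm
      rw [h5] at h3
      apply h2
      rw [h3]
      norm_num
    · refine ⟨ih _ (by omega), ?_⟩
      rw [wval_nf, Nat.sub_add_cancel (by omega), isPw_iff n h0]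
      push Not
      exact ⟨h2, h3⟩

theorem wval_pos {w : List Ltr} (h : w ≠ []) : 0 < wval w := by
  match w, h with
  | .S :: u, _ => simp [wval]
  | .T :: u, _ => simp [wval]
  | .H :: u, _ => simp [wval]

theorem nf_wval {w : List Ltr} (h : Can w) : nf (wval w) = w := by
  induction w with
  | nil => exact nf_zero
  | cons l u ih =>
    cases l with
    | S =>
      obtain ⟨h1, h2⟩ := h
      rw [wval, nf, dif_neg (by omega)]
      rw [isPw_iff _ (by omega)] at h2
      push Not at h2
      rw [if_neg h2.1, if_neg h2.2, Nat.add_sub_cancel, ih h1]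
    | T =>
      have h1 : Can u := h
      rw [wval, nf, dif_neg (by positivity), log_pow2, if_pos rfl, ih h1]
    | H =>
      obtain ⟨h1, h2⟩ := h
      have h3 : wval u ≠ 0 := (wval_pos h2).ne'
      rw [wval, nf, dif_neg (by positivity), if_neg (three_pow_ne_two_pow h3), log_pow3,
        if_pos rfl, ih h1]

theorem can_inj {u v : List Ltr} (hu : Can u) (hv : Can v) (h : wval u = wval v) : u = v := by
  rw [← nf_wval hu, ← nf_wval hv, h]

theorem Can.tail {l : Ltr} {u : List Ltr} (h : Can (l :: u)) : Can u := by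
  cases l with
  | S => exact h.1
  | T => exact h
  | H => exact h.1

/-- Number of letters `S` at the beginning. -/
def cnt : List Ltr → ℕ
  | .S :: u => cnt u + 1
  | _ => 0

/-- The word without the letters `S` at the beginning. -/
def strip : List Ltr → List Ltr
  | .S :: u => strip u
  | w => w

theorem eq_cnt_strip (w : List Ltr) : w = List.replicate (cnt w) .S ++ strip w := by
  induction w with
  | nil => rfl
  | cons l u ih =>
    cases l with
    | S =>
      simp only [cnt, strip, List.replicate_succ, List.cons_append]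
      rw [← ih]
    | T => rfl
    | H => rfl

theorem wval_replicate (s : ℕ) (w : List Ltr) : wval (List.replicate s .S ++ w) = s + wval w := by
  induction s with
  | zero => simp
  | succ s ih =>
    simp only [List.replicate_succ, List.cons_append, wval, ih]
    omega

theorem wval_eq (w : List Ltr) : wval w = cnt w + wval (strip w) := by
  conv_lhs => rw [eq_cnt_strip w]
  exact wval_replicate _ _

theorem can_strip {w : List Ltr} (h : Can w) : Can (strip w) := by
  induction w with
  | nil => exact h
  | cons l u ih =>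
    cases l with
    | S => exact ih h.1
    | T => exact h
    | H => exact h

theorem cnt_le (w : List Ltr) : cnt w ≤ w.length := by
  have := congrArg List.length (eq_cnt_strip w)
  simp only [List.length_append, List.length_replicate] at this
  omega

theorem strip_cases (w : List Ltr) : strip w = [] ∨ (∃ u, strip w = .T :: u) ∨
    ∃ u, strip w = .H :: u := by
  induction w with
  | nil => exact Or.inl rfl
  | cons l u ih =>
    cases l with
    | S => exact ih
    | T => exact Or.inr (Or.inl ⟨u, rfl⟩)
    | H => exact Or.inr (Or.inr ⟨u, rfl⟩)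

theorem strip_pw (w : List Ltr) : strip w = [] ∨ IsPw (wval (strip w)) := by
  rcases strip_cases w with h | ⟨u, h⟩ | ⟨u, h⟩
  · exact Or.inl h
  · right
    rw [h]
    exact Or.inl ⟨_, rfl⟩
  · right
    rw [h]
    exact Or.inr ⟨_, rfl⟩

/-- Different powers of `2` or `3` with a small difference are small. -/
theorem pw_gap : ∃ C : ℕ, ∀ M p q : ℕ, 2 ≤ M → IsPw p → IsPw q → p ≠ q → p ≤ q + M →
    q ≤ p + M → p ≤ M ^ C ∧ q ≤ M ^ C := by
  classical
  obtain ⟨C, hC⟩ := su_dec (Fin 3)
  refine ⟨C, fun M p q hM hp hq hne h1 h2 => ?_⟩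
  obtain ⟨a, b, hpe, hpo⟩ : ∃ a b : ℕ, (p : ℤ) = 2 ^ a * 3 ^ b ∧ (a = 0 ∨ b = 0) := by
    rcases hp with ⟨k, rfl⟩ | ⟨k, rfl⟩
    · exact ⟨k, 0, by push_cast; ring, Or.inr rfl⟩
    · exact ⟨0, k, by push_cast; ring, Or.inl rfl⟩
  obtain ⟨a', b', hqe, hqo⟩ : ∃ a b : ℕ, (q : ℤ) = 2 ^ a * 3 ^ b ∧ (a = 0 ∨ b = 0) := by
    rcases hq with ⟨k, rfl⟩ | ⟨k, rfl⟩
    · exact ⟨k, 0, by push_cast; ring, Or.inr rfl⟩
    · exact ⟨0, k, by push_cast; ring, Or.inl rfl⟩
  have hp0 : (p : ℤ) ≠ 0 := by rw [hpe]; positivity
  have hq0 : (q : ℤ) ≠ 0 := by rw [hqe]; positivity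
  have hne' : (p : ℤ) ≠ q := by exact_mod_cast hne
  obtain ⟨f, f1, f2⟩ := hC M ![1, -1, q - p] ![a, a', 0] ![b, b', 0] hM (by
    intro j
    fin_cases j
    · simp
      omega
    · simp
      omega
    · simp only [Fin.reduceFinMk, Matrix.cons_val]
      rw [abs_le]
      constructor <;> omega) (by
    simp only [Fin.sum_univ_three, Matrix.cons_val]
    rw [one_mul, ← hpe, mul_assoc, ← hqe]
    ring)
  have hs : ∀ k, (if f 0 = k then (p : ℤ) else 0) + (if f 1 = k then -(q : ℤ) else 0) +
      (if f 2 = k then ((q : ℤ) - p) else 0) = 0 := by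
    intro k
    have := f1 k
    rw [Finset.sum_filter, Fin.sum_univ_three] at this
    simp only [Matrix.cons_val] at this
    rw [one_mul, ← hpe, mul_assoc (-1 : ℤ), ← hqe] at this
    simpa using this
  have h02 : f 0 = f 2 := by
    by_contra h
    have := hs (f 0)
    rw [if_pos rfl, if_neg (Ne.symm h)] at this
    by_cases h' : f 1 = f 0
    · rw [if_pos h'] at this
      omega
    · rw [if_neg h'] at this
      omega
  have h12 : f 1 = f 2 := by
    by_contra h
    have := hs (f 1)
    rw [if_pos rfl, if_neg (Ne.symm h)] at this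
    by_cases h' : f 0 = f 1
    · rw [if_pos h'] at this
      omega
    · rw [if_neg h'] at this
      omega
  have hM0 : 0 < M ^ C := by positivity
  constructor
  · have h3 := f2 0 2 (by simp) (by simp only [Matrix.cons_val]; omega) h02
    simp only [Matrix.cons_val, pow_zero, mul_one] at h3
    have : p = 2 ^ a * 3 ^ b := by exact_mod_cast hpe
    rcases hpo with h | h
    · rw [this, h, pow_zero, one_mul]
      exact h3.2
    · rw [this, h, pow_zero, mul_one]
      exact h3.1
  · have h3 := f2 1 2 (by simp) (by simp only [Matrix.cons_val]; omega) h12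
    simp only [Matrix.cons_val, pow_zero, mul_one] at h3
    have : q = 2 ^ a' * 3 ^ b' := by exact_mod_cast hqe
    rcases hqo with h | h
    · rw [this, h, pow_zero, one_mul]
      exact h3.2
    · rw [this, h, pow_zero, mul_one]
      exact h3.1

/-- Canonical words whose values have a small difference. -/
theorem can_diff : ∃ C : ℕ, ∀ (M m : ℕ) (u v : List Ltr), 2 ≤ M → Can u → Can v →
    u.length + m ≤ M → v.length ≤ M → wval v = wval u + m →
    v = List.replicate m .S ++ u ∨ wval u ≤ M ^ C := by
  obtain ⟨C, hC⟩ := pw_gap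
  refine ⟨C + 2, fun M m u v hM hu hv hlu hlv h => ?_⟩
  have hM1 : M ≤ M ^ (C + 2) := by
    calc M = M ^ 1 := (pow_one M).symm
      _ ≤ M ^ (C + 2) := Nat.pow_le_pow_right (by omega) (by omega)
  by_cases hs : strip u = strip v
  · left
    have h1 := wval_eq u
    have h2 := wval_eq v
    rw [hs] at h1
    have h3 : cnt v = m + cnt u := by omega
    rw [eq_cnt_strip v, h3, ← hs, List.replicate_add, List.append_assoc, ← eq_cnt_strip u]
  · right
    have h1 := wval_eq u
    have h2 := wval_eq v
    have hcu := cnt_le u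
    have hcv := cnt_le v
    have hne : wval (strip u) ≠ wval (strip v) := fun he =>
      hs (can_inj (can_strip hu) (can_strip hv) he)
    rcases strip_pw u with hu0 | hup
    · have : wval (strip u) = 0 := by rw [hu0]; rfl
      omega
    · rcases strip_pw v with hv0 | hvp
      · have : wval (strip v) = 0 := by rw [hv0]; rfl
        omega
      · have h3 := (hC M _ _ hM hup hvp hne (by omega) (by omega)).1
        have h4 : M ≤ M ^ (C + 1) := by
          calc M = M ^ 1 := (pow_one M).symm
            _ ≤ M ^ (C + 1) := Nat.pow_le_pow_right (by omega) (by omega)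
        have h5 : M ^ C ≤ M ^ (C + 1) := Nat.pow_le_pow_right (by omega) (by omega)
        calc wval u ≤ M ^ (C + 1) + M ^ (C + 1) := by omega
          _ = M ^ (C + 1) * 2 := by ring
          _ ≤ M ^ (C + 1) * M := Nat.mul_le_mul_left _ hM
          _ = M ^ (C + 2) := (pow_succ M (C + 1)).symm

/-- If the successor of the value of a word is a power, the value is small. -/
theorem succ_pw : ∃ C : ℕ, ∀ (M : ℕ) (u : List Ltr), 2 ≤ M → u.length + 1 ≤ M →
    IsPw (wval u + 1) → wval u + 1 ≤ M ^ C := by
  obtain ⟨C, hC⟩ := pw_gap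
  refine ⟨C + 1, fun M u hM hlu h => ?_⟩
  have hM1 : M ≤ M ^ (C + 1) := by
    calc M = M ^ 1 := (pow_one M).symm
      _ ≤ M ^ (C + 1) := Nat.pow_le_pow_right (by omega) (by omega)
  have h1 := wval_eq u
  have hcu := cnt_le u
  rcases strip_pw u with hu0 | hup
  · have : wval (strip u) = 0 := by rw [hu0]; rfl
    omega
  · have h3 := (hC M _ _ hM hup h (by omega) (by omega) (by omega)).2
    exact h3.trans (Nat.pow_le_pow_right (by omega) (by omega))

end PT21
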